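import Mathlib

/-!
Pettis' theorem: a surjective Borel homomorphism from a Baire topological group to a
second countable topological group is continuous.
-/

namespace Pool.Agent.R581

open Filter Set Topology TopologicalSpace

/-- Left translation preserves residual sets. -/
theorem residual_smul {G : Type*} [Group G] [TopologicalSpace G] [IsTopologicalGroup G]
    (z : G) {s : Set G} (hs : s ∈ residual G) : (fun x => z * x) ⁻¹' s ∈ residual G := by
  have := tendsto_residual_of_isOpenMap (f := fun x : G => z * x) (continuous_const_mul z)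
    (isOpenMap_mul_left z)
  exact this hs

theorem pettis {G H : Type*} [Group G] [TopologicalSpace G] [IsTopologicalGroup G]
    [BaireSpace G] [MeasurableSpace G] [BorelSpace G] [Group H] [TopologicalSpace H]
    [IsTopologicalGroup H] [SecondCountableTopology H] [MeasurableSpace H]
    [OpensMeasurableSpace H] (f : G →* H) (hsurj : Function.Surjective f)
    (hf : Measurable f) : Continuous f := by
  refine continuous_of_continuousAt_one f ?_
  rw [ContinuousAt, map_one]
  intro U hU
  obtain ⟨V0, hV0, hV0U⟩ := exists_nhds_split_inv hU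
  set V : Set H := interior V0 with hVdef
  have hVo : IsOpen V := isOpen_interior
  have hV1 : (1 : H) ∈ V := mem_interior_iff_mem_nhds.2 hV0
  have hVU : ∀ v ∈ V, ∀ w ∈ V, v / w ∈ U := fun v hv w hw =>
    hV0U v (interior_subset hv) w (interior_subset hw)
  set A : Set G := f ⁻¹' V with hA
  have hAm : MeasurableSet A := hf hVo.measurableSet
  obtain ⟨O, hO, hAO⟩ := hAm.residualEq_isOpen
  -- O is nonempty
  have hOne : O.Nonempty := by
    by_contra hemp
    rw [Set.not_nonempty_iff_eq_empty] at hemp
    subst hemp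
    have hAc : Aᶜ ∈ residual G := by
      filter_upwards [Filter.eventuallyEq_set.1 hAO] with x hx
      simpa using hx
    obtain ⟨s, hs, hcov⟩ := countable_cover_nhds (α := H) (f := fun h => (fun y => h⁻¹ * y) ⁻¹' V)
      (by
        intro h
        have : IsOpen ((fun y => h⁻¹ * y) ⁻¹' V) := hVo.preimage (continuous_const_mul _)
        exact this.mem_nhds (by simpa using hV1))
    have hall : ⋂ h ∈ s, {x : G | (Function.surjInv hsurj h)⁻¹ * x ∈ Aᶜ} ∈ residual G := by
      rw [countable_bInter_mem hs]
      intro h _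
      exact residual_smul _ hAc
    obtain ⟨x, hx⟩ := (dense_of_mem_residual hall).nonempty
    have hx1 : f x ∈ ⋃ h ∈ s, (fun y => h⁻¹ * y) ⁻¹' V := by
      rw [hcov]; trivial
    simp only [mem_iUnion] at hx1
    obtain ⟨h, hh, hx2⟩ := hx1
    have hx3 := mem_iInter₂.1 hx h hh
    apply hx3
    change f ((Function.surjInv hsurj h)⁻¹ * x) ∈ V
    rw [map_mul, map_inv, Function.surjInv_eq hsurj h]
    exact hx2
  obtain ⟨o, ho⟩ := hOne
  have hW : {z : G | z * o ∈ O} ∈ 𝓝 (1 : G) := by
    have : IsOpen {z : G | z * o ∈ O} := hO.preimage (continuous_mul_const o)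
    exact this.mem_nhds (by simpa using ho)
  refine mem_of_superset (mem_map.2 (mem_of_superset hW ?_)) (subset_refl U)
  intro z hz
  -- z O ∩ O nonempty open
  have hopen : IsOpen (O ∩ (fun x => z⁻¹ * x) ⁻¹' O) :=
    hO.inter (hO.preimage (continuous_const_mul _))
  have hne : (O ∩ (fun x => z⁻¹ * x) ⁻¹' O).Nonempty := ⟨z * o, hz, by simpa using ho⟩
  have hres : {x | x ∈ A ↔ x ∈ O} ∈ residual G := Filter.eventuallyEq_set.1 hAO
  have hres2 := residual_smul z⁻¹ hres
  obtain ⟨x, hxO, hx1, hx2⟩ := (dense_of_mem_residual (inter_mem hres hres2)).inter_open_nonempty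
    _ hopen hne
  have hxA : x ∈ A := hx1.2 hxO.1
  have hxA2 : z⁻¹ * x ∈ A := hx2.2 hxO.2
  have := hVU _ hxA _ hxA2
  have hzz : f z = f x / f (z⁻¹ * x) := by
    rw [map_mul, map_inv, div_eq_mul_inv]; group
  change f z ∈ U
  rw [hzz]
  exact this

end Pool.Agent.R581
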