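import Mathlib
import Pool.Agent.R581.Pettis

/-!
Automatic continuity of an abstract isomorphism from a Polish group onto a Polish
paratopological group with continuous inverse map.
-/

namespace Pool.Agent.R581

open Filter Set Topology TopologicalSpace

theorem auto_cont {G M : Type*} [Group G] [TopologicalSpace G] [IsTopologicalGroup G]
    [PolishSpace G] [Group M] [TopologicalSpace M] [ContinuousMul M] [PolishSpace M]
    (f : G ≃* M) (hf : Continuous f.symm) : Continuous f := by
  have hop : PolishSpace Mᵐᵒᵖ := (MulOpposite.opHomeomorph (M := M)).symm.isClosedEmbedding.polishSpace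
  have hK : PolishSpace Mˣ := Units.isClosedEmbedding_embedProduct.polishSpace
  let v : Mˣ ≃* M := (toUnits (G := M)).symm
  have hv : Continuous v := Units.continuous_val
  let φ : Mˣ ≃* G := v.trans f.symm
  have hφ : Continuous φ := hf.comp hv
  borelize G
  borelize Mˣ
  have hemb : MeasurableEmbedding φ := hφ.measurableEmbedding φ.injective
  have hmeas : Measurable φ.symm := by
    intro s hs
    have h1 : φ.symm ⁻¹' s = φ '' s := by
      ext x
      simp only [mem_preimage, mem_image]
      constructor
      · intro hx
        exact ⟨φ.symm x, hx, by simp⟩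
      · rintro ⟨y, hy, rfl⟩
        simpa using hy
    rw [h1]
    exact hemb.measurableSet_image.2 hs
  have hc : Continuous φ.symm := pettis (φ.symm : G →* Mˣ) φ.symm.surjective hmeas
  have : (f : G → M) = v ∘ φ.symm := by
    funext x
    simp [φ]
  rw [this]
  exact hv.comp hc

end Pool.Agent.R581
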