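import Mathlib

/-!
# Real-rooted polynomials: lower bound off the real line and the Laguerre inequality
-/

namespace R581.Circ

open Polynomial

/-- all complex roots are real -/
def RR (G : ℝ[X]) : Prop := ∀ z : ℂ, aeval z G = 0 → z.im = 0

theorem RR_of_mul {r : ℝ} {H : ℝ[X]} (h : RR ((X - C r) * H)) : RR H := by
  intro z hz
  apply h
  rw [map_mul, hz, mul_zero]

theorem rr_induction {P : ℝ[X] → Prop} (hC : ∀ c : ℝ, c ≠ 0 → P (C c))
    (hmul : ∀ (r : ℝ) (H : ℝ[X]), H ≠ 0 → RR H → P H → P ((X - C r) * H)) :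
    ∀ (n : ℕ) (G : ℝ[X]), G.natDegree = n → G ≠ 0 → RR G → P G := by
  intro n
  induction n with
  | zero =>
    intro G hn h0 _
    obtain ⟨c, rfl⟩ := natDegree_eq_zero.1 hn
    exact hC c (fun h => h0 (by rw [h, C_0]))
  | succ n ih =>
    intro G hn h0 hRR
    have hdeg : (G.map (algebraMap ℝ ℂ)).degree ≠ 0 := by
      rw [degree_map]
      rw [degree_eq_natDegree h0, hn]
      exact_mod_cast Nat.succ_ne_zero n
    obtain ⟨z, hz⟩ := Complex.exists_root (f := G.map (algebraMap ℝ ℂ)) (by
      rw [degree_map, degree_eq_natDegree h0, hn]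
      exact_mod_cast Nat.succ_pos n)
    have hz' : aeval z G = 0 := by
      rw [IsRoot, eval_map_algebraMap] at hz
      exact hz
    have him := hRR z hz'
    have hzr : z = ((z.re : ℝ) : ℂ) := by
      apply Complex.ext
      · simp
      · simpa using him
    have hroot : G.IsRoot z.re := by
      rw [IsRoot]
      have h1 : aeval ((z.re : ℝ) : ℂ) G = ((G.eval z.re : ℝ) : ℂ) := by
        have := aeval_algebraMap_apply_eq_algebraMap_eval (A := ℂ) z.re G
        simpa using this
      rw [hzr, h1] at hz'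
      exact_mod_cast hz'
    obtain ⟨H, hH⟩ := dvd_iff_isRoot.2 hroot
    have hH0 : H ≠ 0 := by
      rintro rfl
      rw [mul_zero] at hH
      exact h0 hH
    have hHn : H.natDegree = n := by
      rw [hH, natDegree_mul (X_sub_C_ne_zero _) hH0, natDegree_X_sub_C] at hn
      omega
    rw [hH] at hRR ⊢
    exact hmul _ _ hH0 (RR_of_mul hRR) (ih H hHn hH0 (RR_of_mul hRR))

theorem rr_lower (G : ℝ[X]) (h0 : G ≠ 0) (h : RR G) (z : ℂ) :
    |G.leadingCoeff| * |z.im| ^ G.natDegree ≤ ‖aeval z G‖ := by
  refine rr_induction (P := fun G => |G.leadingCoeff| * |z.im| ^ G.natDegree ≤ ‖aeval z G‖)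
    ?_ ?_ _ G rfl h0 h
  · intro c _
    simp
  · intro r H hH _ ih
    rw [leadingCoeff_mul, leadingCoeff_X_sub_C, one_mul,
      natDegree_mul (X_sub_C_ne_zero _) hH, natDegree_X_sub_C, pow_add, pow_one, map_mul, norm_mul]
    have h1 : |z.im| ≤ ‖aeval z (X - C r)‖ := by
      have : aeval z (X - C r) = z - (r : ℂ) := by simp
      rw [this]
      have h2 := Complex.abs_im_le_norm (z - (r : ℂ))
      simpa using h2
    calc |H.leadingCoeff| * (|z.im| * |z.im| ^ H.natDegree)
        = |z.im| * (|H.leadingCoeff| * |z.im| ^ H.natDegree) := by ring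
      _ ≤ ‖aeval z (X - C r)‖ * ‖aeval z H‖ := mul_le_mul h1 ih (by positivity) (norm_nonneg _)

theorem laguerre (G : ℝ[X]) (h0 : G ≠ 0) (h : RR G) (x : ℝ) :
    0 ≤ (derivative G).eval x ^ 2 - G.eval x * (derivative (derivative G)).eval x := by
  refine rr_induction (P := fun G => 0 ≤ (derivative G).eval x ^ 2 -
    G.eval x * (derivative (derivative G)).eval x) ?_ ?_ _ G rfl h0 h
  · intro c _
    simp
  · intro r H _ _ ih
    have e1 : derivative ((X - C r) * H) = H + (X - C r) * derivative H := by
      rw [derivative_mul]; simp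
    have e2 : derivative (derivative ((X - C r) * H))
        = 2 * derivative H + (X - C r) * derivative (derivative H) := by
      rw [e1, derivative_add, derivative_mul]; simp; ring
    rw [e2, e1]
    simp only [eval_add, eval_mul, eval_sub, eval_X, eval_C, eval_ofNat]
    nlinarith [sq_nonneg (eval x H), mul_nonneg (sq_nonneg (x - r)) ih]

end R581.Circ
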