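import Pool.Agent.R581.CircA

/-!
# Certificates for real-rootedness, and adding a pair of nearby poles
-/

namespace R581.Circ

open Polynomial Filter Topology

/-- `M` disjoint closed intervals in `(-1,1)` on which `G` changes sign -/
def Cert (G : ℝ → ℝ) (M : ℕ) : Prop :=
  ∃ (ι : Type) (_ : Fintype ι) (l r : ι → ℝ), Fintype.card ι = M ∧
    (∀ i, -1 < l i ∧ l i < r i ∧ r i < 1 ∧ G (l i) * G (r i) < 0) ∧
    ∀ i j, i ≠ j → r i < l j ∨ r j < l i

theorem exists_zero {G : ℝ → ℝ} (hG : Continuous G) {l r : ℝ} (hlr : l < r)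
    (h : G l * G r < 0) : ∃ y, l < y ∧ y < r ∧ G y = 0 := by
  rcases mul_neg_iff.1 h with ⟨h1, h2⟩ | ⟨h1, h2⟩
  · obtain ⟨y, hy, hy0⟩ := intermediate_value_Icc' hlr.le hG.continuousOn ⟨h2.le, h1.le⟩
    refine ⟨y, lt_of_le_of_ne hy.1 ?_, lt_of_le_of_ne hy.2 ?_, hy0⟩
    · rintro rfl; linarith
    · rintro rfl; linarith
  · obtain ⟨y, hy, hy0⟩ := intermediate_value_Icc hlr.le hG.continuousOn ⟨h1.le, h2.le⟩
    refine ⟨y, lt_of_le_of_ne hy.1 ?_, lt_of_le_of_ne hy.2 ?_, hy0⟩
    · rintro rfl; linarith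
    · rintro rfl; linarith

theorem cert_roots (G : ℝ[X]) (h0 : G ≠ 0) (hc : Cert (fun y => G.eval y) G.natDegree)
    (z : ℂ) (hz : aeval z G = 0) : ∃ y : ℝ, -1 < y ∧ y < 1 ∧ z = (y : ℂ) := by
  classical
  obtain ⟨ι, _, l, r, hcard, h1, h2⟩ := hc
  have hex : ∀ i, ∃ y, l i < y ∧ y < r i ∧ G.eval y = 0 := fun i =>
    exists_zero G.continuous (h1 i).2.1 (h1 i).2.2.2
  choose y hy using hex
  have hinj : Function.Injective y := by
    intro i j hij
    by_contra hne
    have h3 := hy i
    have h4 := hy j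
    rw [hij] at h3
    rcases h2 i j hne with h | h
    · linarith [h3.2.1, h4.1]
    · linarith [h3.1, h4.2.1]
  have hGc : G.map (algebraMap ℝ ℂ) ≠ 0 := by
    rwa [Ne, Polynomial.map_eq_zero]
  have hsub : Finset.univ.image (fun i => ((y i : ℝ) : ℂ)) ⊆ (G.map (algebraMap ℝ ℂ)).roots.toFinset := by
    intro w hw
    rw [Finset.mem_image] at hw
    obtain ⟨i, -, rfl⟩ := hw
    rw [Multiset.mem_toFinset, mem_roots hGc, IsRoot, eval_map_algebraMap]
    have := aeval_algebraMap_apply_eq_algebraMap_eval (A := ℂ) (y i) G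
    rw [(hy i).2.2] at this
    simpa using this
  have hc1 : (Finset.univ.image (fun i => ((y i : ℝ) : ℂ))).card = G.natDegree := by
    rw [Finset.card_image_of_injective, Finset.card_univ, hcard]
    exact fun i j h => hinj (by exact_mod_cast h)
  have hc2 : (G.map (algebraMap ℝ ℂ)).roots.toFinset.card ≤ G.natDegree := by
    refine (Multiset.toFinset_card_le _).trans ((card_roots' _).trans ?_)
    rw [natDegree_map]
  have heq := Finset.eq_of_subset_of_card_le hsub (by rw [hc1]; exact hc2)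
  have hzm : z ∈ (G.map (algebraMap ℝ ℂ)).roots.toFinset := by
    rw [Multiset.mem_toFinset, mem_roots hGc, IsRoot, eval_map_algebraMap]
    exact hz
  rw [← heq, Finset.mem_image] at hzm
  obtain ⟨i, -, hi⟩ := hzm
  refine ⟨y i, ?_, ?_, hi.symm⟩
  · linarith [(h1 i).1, (hy i).1]
  · linarith [(h1 i).2.2.1, (hy i).2.1]

/-- one can shrink an interval with a sign change so that it avoids a non-root -/
theorem avoid {G : ℝ → ℝ} (hG : Continuous G) {l r u : ℝ} (hlr : l < r) (h : G l * G r < 0)
    (hu : G u ≠ 0) : ∃ l' r', l ≤ l' ∧ l' < r' ∧ r' ≤ r ∧ G l' * G r' < 0 ∧ (u < l' ∨ r' < u) := by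
  rcases lt_or_ge u l with h1 | h1
  · exact ⟨l, r, le_rfl, hlr, le_rfl, h, Or.inl h1⟩
  rcases lt_or_ge r u with h2 | h2
  · exact ⟨l, r, le_rfl, hlr, le_rfl, h, Or.inr h2⟩
  have hs : 0 < G u * G u := mul_self_pos.2 hu
  rcases lt_or_ge (G u * G r) 0 with h3 | h3
  · -- sign change on `[u, r]`
    have hur : u < r := lt_of_le_of_ne h2 (by rintro rfl; nlinarith)
    have hev : ∀ᶠ x in 𝓝 u, G x * G r < 0 :=
      (hG.continuousAt.mul continuousAt_const).eventually_lt continuousAt_const h3
    have hev2 : ∀ᶠ x in 𝓝[>] u, G x * G r < 0 := hev.filter_mono nhdsWithin_le_nhds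
    have hev3 : ∀ᶠ x in 𝓝[>] u, x < r := eventually_nhdsWithin_of_eventually_nhds
      (eventually_lt_nhds hur)
    have hev4 : ∀ᶠ x in 𝓝[>] u, u < x := eventually_mem_nhdsWithin
    obtain ⟨x, hx1, hx2, hx3⟩ := (hev2.and (hev3.and hev4)).exists
    exact ⟨x, r, by linarith, hx2, le_rfl, hx1, Or.inl hx3⟩
  · have h4 : G l * G u < 0 := by
      have hr0 : G r ≠ 0 := by intro h0; rw [h0, mul_zero] at h; exact lt_irrefl _ h
      have hpos : 0 < G u * G r := lt_of_le_of_ne h3 (mul_ne_zero hu hr0).symm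
      have h5 : (G l * G r) * (G u * G r) < 0 := mul_neg_of_neg_of_pos h hpos
      have h6 : (G l * G u) * (G r * G r) < 0 := by nlinarith
      by_contra hcon
      push Not at hcon
      have := mul_nonneg hcon (mul_self_nonneg (G r))
      linarith
    have hlu : l < u := lt_of_le_of_ne h1 (by rintro rfl; nlinarith)
    have hev : ∀ᶠ x in 𝓝 u, G l * G x < 0 :=
      (continuousAt_const.mul hG.continuousAt).eventually_lt continuousAt_const h4
    have hev2 : ∀ᶠ x in 𝓝[<] u, G l * G x < 0 := hev.filter_mono nhdsWithin_le_nhds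
    have hev3 : ∀ᶠ x in 𝓝[<] u, l < x := eventually_nhdsWithin_of_eventually_nhds
      (eventually_gt_nhds hlu)
    have hev4 : ∀ᶠ x in 𝓝[<] u, x < u := eventually_mem_nhdsWithin
    obtain ⟨x, hx1, hx2, hx3⟩ := (hev2.and (hev3.and hev4)).exists
    exact ⟨l, x, le_rfl, hx2, by linarith, hx1, Or.inr hx3⟩

/-- the perturbed function -/
def pert (A G : ℝ → ℝ) (u h : ℝ) (y : ℝ) : ℝ := (y - u) * (y - (u + h ^ 2)) * G y + h ^ 5 * A y

theorem step_good {A G : ℝ → ℝ} (hA : Continuous A) (hG : Continuous G) {u : ℝ} (hu1 : -1 < u)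
    (hu2 : u < 1) (hAu : A u ≠ 0) (hGu : G u ≠ 0) {M : ℕ} (hc : Cert G M) :
    ∀ᶠ h in 𝓝[>] (0 : ℝ), Cert (pert A G u h) (M + 2) := by
  classical
  obtain ⟨ι, _, l0, r0, hcard, h1, h2⟩ := hc
  have hav := fun i => avoid hG (h1 i).2.1 (h1 i).2.2.2 hGu
  choose l r hl hlr hr hs hav using hav
  -- a radius `s` such that `[u-s,u+s]` avoids all intervals and `G` has constant sign on it
  have hsgn : ∀ᶠ s in 𝓝[>] (0 : ℝ), 0 < G (u - s) * G u ∧ 0 < G (u + s) * G u := by
    have hpos : 0 < G u * G u := mul_self_pos.2 hGu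
    have c1 : ContinuousAt (fun s => G (u - s) * G u) 0 := by fun_prop
    have c2 : ContinuousAt (fun s => G (u + s) * G u) 0 := by fun_prop
    have e1 : ∀ᶠ s in 𝓝 (0 : ℝ), 0 < G (u - s) * G u :=
      continuousAt_const.eventually_lt c1 (by simpa using hpos)
    have e2 : ∀ᶠ s in 𝓝 (0 : ℝ), 0 < G (u + s) * G u :=
      continuousAt_const.eventually_lt c2 (by simpa using hpos)
    exact (e1.and e2).filter_mono nhdsWithin_le_nhds
  have hdis : ∀ᶠ s in 𝓝[>] (0 : ℝ), ∀ i, u + s < l i ∨ r i < u - s := by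
    rw [eventually_all]
    intro i
    rcases hav i with h | h
    · have c1 : ContinuousAt (fun s : ℝ => u + s) 0 := by fun_prop
      have : ∀ᶠ s in 𝓝 (0 : ℝ), u + s < l i := c1.eventually_lt continuousAt_const (by simpa using h)
      exact (this.filter_mono nhdsWithin_le_nhds).mono fun s hs => Or.inl hs
    · have c1 : ContinuousAt (fun s : ℝ => u - s) 0 := by fun_prop
      have : ∀ᶠ s in 𝓝 (0 : ℝ), r i < u - s := continuousAt_const.eventually_lt c1 (by simpa using h)
      exact (this.filter_mono nhdsWithin_le_nhds).mono fun s hs => Or.inr hs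
  have hin : ∀ᶠ s in 𝓝[>] (0 : ℝ), -1 < u - s ∧ u + s < 1 := by
    have c1 : ContinuousAt (fun s : ℝ => u - s) 0 := by fun_prop
    have c2 : ContinuousAt (fun s : ℝ => u + s) 0 := by fun_prop
    have e1 : ∀ᶠ s in 𝓝 (0 : ℝ), -1 < u - s := continuousAt_const.eventually_lt c1 (by simpa using hu1)
    have e2 : ∀ᶠ s in 𝓝 (0 : ℝ), u + s < 1 := c2.eventually_lt continuousAt_const (by simpa using hu2)
    exact (e1.and e2).filter_mono nhdsWithin_le_nhds
  obtain ⟨s, ⟨hs1, hs1'⟩, hs2, ⟨hs3, hs3'⟩, hs4⟩ :=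
    (hsgn.and (hdis.and (hin.and eventually_mem_nhdsWithin))).exists
  have hs4' : 0 < s := hs4
  -- old sign changes persist
  have hold : ∀ᶠ h in 𝓝[>] (0 : ℝ), ∀ i, pert A G u h (l i) * pert A G u h (r i) < 0 := by
    rw [eventually_all]
    intro i
    have c1 : ContinuousAt (fun h => pert A G u h (l i) * pert A G u h (r i)) 0 := by
      unfold pert; fun_prop
    have : ∀ᶠ h in 𝓝 (0 : ℝ), pert A G u h (l i) * pert A G u h (r i) < 0 := by
      refine c1.eventually_lt continuousAt_const ?_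
      have e : pert A G u 0 (l i) * pert A G u 0 (r i)
          = ((l i - u) * (r i - u)) ^ 2 * (G (l i) * G (r i)) := by
        unfold pert; ring
      rw [e]
      refine mul_neg_of_pos_of_neg ?_ (hs i)
      have hne : (l i - u) * (r i - u) ≠ 0 := by
        apply mul_ne_zero
        · rcases hav i with h | h
          · linarith
          · have := hlr i; intro h'; linarith
        · rcases hav i with h | h
          · have := hlr i; intro h'; linarith
          · intro h'; linarith
      positivity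
    exact this.filter_mono nhdsWithin_le_nhds
  have hh : ∀ᶠ h in 𝓝[>] (0 : ℝ), h ^ 2 < s := by
    have c1 : ContinuousAt (fun h : ℝ => h ^ 2) 0 := by fun_prop
    have : ∀ᶠ h in 𝓝 (0 : ℝ), h ^ 2 < s := c1.eventually_lt continuousAt_const (by simpa using hs4')
    exact this.filter_mono nhdsWithin_le_nhds
  -- common assembly
  have assemble : ∀ (h p₁ p₂ p₃ p₄ : ℝ), u - s ≤ p₁ → p₁ < p₂ → p₂ < p₃ → p₃ < p₄ → p₄ ≤ u + s →
      pert A G u h p₁ * pert A G u h p₂ < 0 → pert A G u h p₃ * pert A G u h p₄ < 0 →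
      (∀ i, pert A G u h (l i) * pert A G u h (r i) < 0) → Cert (pert A G u h) (M + 2) := by
    intro h p₁ p₂ p₃ p₄ q1 q2 q3 q4 q5 q6 q7 q8
    refine ⟨ι ⊕ Bool, inferInstance, Sum.elim l (fun b => cond b p₁ p₃),
      Sum.elim r (fun b => cond b p₂ p₄), ?_, ?_, ?_⟩
    · rw [Fintype.card_sum, hcard, Fintype.card_bool]
    · rintro (i | b)
      · simp only [Sum.elim_inl]
        exact ⟨by linarith [(h1 i).1, hl i], hlr i, by linarith [(h1 i).2.2.1, hr i], q8 i⟩
      · simp only [Sum.elim_inr]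
        cases b
        · exact ⟨by simp only [cond_false]; linarith, q4, by simp only [cond_false]; linarith, q7⟩
        · exact ⟨by simp only [cond_true]; linarith, q2, by simp only [cond_true]; linarith, q6⟩
    · rintro (i | b) (j | b') hne
      · simp only [Sum.elim_inl]
        rcases h2 i j (fun h => hne (by rw [h])) with h' | h'
        · left; linarith [hr i, hl j]
        · right; linarith [hr j, hl i]
      · simp only [Sum.elim_inl, Sum.elim_inr]
        rcases hs2 i with h' | h'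
        · right; cases b' <;> simp only [cond_true, cond_false] <;> linarith
        · left; cases b' <;> simp only [cond_true, cond_false] <;> linarith
      · simp only [Sum.elim_inl, Sum.elim_inr]
        rcases hs2 j with h' | h'
        · left; cases b <;> simp only [cond_true, cond_false] <;> linarith
        · right; cases b <;> simp only [cond_true, cond_false] <;> linarith
      · simp only [Sum.elim_inr]
        cases b <;> cases b' <;> simp only [cond_true, cond_false]
        · exact absurd rfl hne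
        · right; exact q3
        · left; exact q3
        · exact absurd rfl hne
  rcases lt_or_gt_of_ne (mul_ne_zero hAu hGu) with hAG | hAG
  · -- opposite signs: the new roots are outside the pair
    have e1 : ∀ᶠ h in 𝓝[>] (0 : ℝ), A u * (s * (s + h ^ 2) * G (u - s) + h ^ 5 * A (u - s)) < 0 := by
      have c1 : ContinuousAt (fun h => A u * (s * (s + h ^ 2) * G (u - s) + h ^ 5 * A (u - s))) 0 := by
        fun_prop
      have : ∀ᶠ h in 𝓝 (0 : ℝ), A u * (s * (s + h ^ 2) * G (u - s) + h ^ 5 * A (u - s)) < 0 := by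
        refine c1.eventually_lt continuousAt_const ?_
        have h3 : A u * G (u - s) < 0 := by
          have h4 : (A u * G u) * (G (u - s) * G u) < 0 := mul_neg_of_neg_of_pos hAG hs1
          by_contra hcon
          push Not at hcon
          nlinarith [mul_nonneg hcon (mul_self_nonneg (G u))]
        have h5 : A u * (s * (s + 0 ^ 2) * G (u - s) + 0 ^ 5 * A (u - s)) = s ^ 2 * (A u * G (u - s)) := by
          ring
        rw [h5]
        exact mul_neg_of_pos_of_neg (by positivity) h3
      exact this.filter_mono nhdsWithin_le_nhds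
    have e2 : ∀ᶠ h in 𝓝[>] (0 : ℝ), A (u + h ^ 2) * (s * (s - h ^ 2) * G (u + s) + h ^ 5 * A (u + s)) < 0 := by
      have c1 : ContinuousAt (fun h => A (u + h ^ 2) * (s * (s - h ^ 2) * G (u + s) + h ^ 5 * A (u + s))) 0 := by
        fun_prop
      have : ∀ᶠ h in 𝓝 (0 : ℝ), A (u + h ^ 2) * (s * (s - h ^ 2) * G (u + s) + h ^ 5 * A (u + s)) < 0 := by
        refine c1.eventually_lt continuousAt_const ?_
        have h3 : A u * G (u + s) < 0 := by
          have h4 : (A u * G u) * (G (u + s) * G u) < 0 := mul_neg_of_neg_of_pos hAG hs1'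
          by_contra hcon
          push Not at hcon
          nlinarith [mul_nonneg hcon (mul_self_nonneg (G u))]
        have h5 : A (u + 0 ^ 2) * (s * (s - 0 ^ 2) * G (u + s) + 0 ^ 5 * A (u + s)) = s ^ 2 * (A u * G (u + s)) := by
          ring_nf
        rw [h5]
        exact mul_neg_of_pos_of_neg (by positivity) h3
      exact this.filter_mono nhdsWithin_le_nhds
    filter_upwards [hold, hh, e1, e2, eventually_mem_nhdsWithin] with h q1 q2 q3 q4 q5
    have q5' : 0 < h := q5
    have h5 : 0 < h ^ 5 := by positivity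
    have h2' : 0 < h ^ 2 := by positivity
    refine assemble h (u - s) u (u + h ^ 2) (u + s) le_rfl (by linarith) (by linarith) (by linarith)
      le_rfl ?_ ?_ q1
    · have : pert A G u h (u - s) * pert A G u h u
          = h ^ 5 * (A u * (s * (s + h ^ 2) * G (u - s) + h ^ 5 * A (u - s))) := by
        unfold pert; ring
      rw [this]
      exact mul_neg_of_pos_of_neg h5 q3
    · have : pert A G u h (u + h ^ 2) * pert A G u h (u + s)
          = h ^ 5 * (A (u + h ^ 2) * (s * (s - h ^ 2) * G (u + s) + h ^ 5 * A (u + s))) := by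
        unfold pert; ring
      rw [this]
      exact mul_neg_of_pos_of_neg h5 q4
  · -- equal signs: the new roots are inside the pair
    have e1 : ∀ᶠ h in 𝓝[>] (0 : ℝ), A u * (-(2 / 9) * G (u + h ^ 2 / 3) + h * A (u + h ^ 2 / 3)) < 0 := by
      have c1 : ContinuousAt (fun h => A u * (-(2 / 9) * G (u + h ^ 2 / 3) + h * A (u + h ^ 2 / 3))) 0 := by
        fun_prop
      have : ∀ᶠ h in 𝓝 (0 : ℝ), A u * (-(2 / 9) * G (u + h ^ 2 / 3) + h * A (u + h ^ 2 / 3)) < 0 := by
        refine c1.eventually_lt continuousAt_const ?_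
        have h5 : A u * (-(2 / 9) * G (u + 0 ^ 2 / 3) + 0 * A (u + 0 ^ 2 / 3)) = -(2 / 9) * (A u * G u) := by
          ring_nf
        rw [h5]
        nlinarith
      exact this.filter_mono nhdsWithin_le_nhds
    have e2 : ∀ᶠ h in 𝓝[>] (0 : ℝ),
        A (u + h ^ 2) * (-(2 / 9) * G (u + 2 * h ^ 2 / 3) + h * A (u + 2 * h ^ 2 / 3)) < 0 := by
      have c1 : ContinuousAt (fun h =>
          A (u + h ^ 2) * (-(2 / 9) * G (u + 2 * h ^ 2 / 3) + h * A (u + 2 * h ^ 2 / 3))) 0 := by
        fun_prop
      have : ∀ᶠ h in 𝓝 (0 : ℝ),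
          A (u + h ^ 2) * (-(2 / 9) * G (u + 2 * h ^ 2 / 3) + h * A (u + 2 * h ^ 2 / 3)) < 0 := by
        refine c1.eventually_lt continuousAt_const ?_
        have h5 : A (u + 0 ^ 2) * (-(2 / 9) * G (u + 2 * 0 ^ 2 / 3) + 0 * A (u + 2 * 0 ^ 2 / 3))
            = -(2 / 9) * (A u * G u) := by
          ring_nf
        rw [h5]
        nlinarith
      exact this.filter_mono nhdsWithin_le_nhds
    filter_upwards [hold, hh, e1, e2, eventually_mem_nhdsWithin] with h q1 q2 q3 q4 q5
    have q5' : 0 < h := q5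
    have h9 : 0 < h ^ 9 := by positivity
    have h2' : 0 < h ^ 2 := by positivity
    refine assemble h u (u + h ^ 2 / 3) (u + 2 * h ^ 2 / 3) (u + h ^ 2) (by linarith) (by linarith)
      (by linarith) (by linarith) (by linarith) ?_ ?_ q1
    · have : pert A G u h u * pert A G u h (u + h ^ 2 / 3)
          = h ^ 9 * (A u * (-(2 / 9) * G (u + h ^ 2 / 3) + h * A (u + h ^ 2 / 3))) := by
        unfold pert; ring
      rw [this]
      exact mul_neg_of_pos_of_neg h9 q3
    · have : pert A G u h (u + 2 * h ^ 2 / 3) * pert A G u h (u + h ^ 2)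
          = h ^ 9 * (A (u + h ^ 2) * (-(2 / 9) * G (u + 2 * h ^ 2 / 3) + h * A (u + 2 * h ^ 2 / 3))) := by
        unfold pert; ring
      rw [this]
      exact mul_neg_of_pos_of_neg h9 q4

end R581.Circ
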