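import Pool.Agent.R581.CircB

/-!
# The inductive construction of pencils with many gaps
-/

namespace R581.Circ

open Polynomial Filter Topology

/-- the perturbed polynomial -/
noncomputable def pertP (A G : ℝ[X]) (u h : ℝ) : ℝ[X] :=
  (X - C u) * (X - C (u + h ^ 2)) * G + C (h ^ 5) * A

theorem pertP_eval (A G : ℝ[X]) (u h y : ℝ) :
    (pertP A G u h).eval y = pert (fun y => A.eval y) (fun y => G.eval y) u h y := by
  simp [pertP, pert]

theorem pertP_pencil (A B : ℝ[X]) (u h β : ℝ) :
    pertP A (C β * A + B) u h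
      = C β * ((X - C u) * (X - C (u + h ^ 2)) * A) + pertP A B u h := by
  unfold pertP; ring

theorem lead_pencil {A B : ℝ[X]} (hA : A.Monic) (hB : B.degree < A.degree) {β : ℝ} (hβ : β ≠ 0) :
    C β * A + B ≠ 0 ∧ (C β * A + B).natDegree = A.natDegree ∧ (C β * A + B).leadingCoeff = β := by
  have hd : (C β * A).degree = A.degree := degree_C_mul hβ
  have hlt : B.degree < (C β * A).degree := by rwa [hd]
  have hlc : (C β * A + B).leadingCoeff = β := by
    rw [leadingCoeff_add_of_degree_lt' hlt, leadingCoeff_mul, leadingCoeff_C, hA.leadingCoeff, mul_one]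
  refine ⟨?_, ?_, hlc⟩
  · intro h0
    rw [h0, leadingCoeff_zero] at hlc
    exact hβ hlc.symm
  · apply natDegree_eq_of_degree_eq
    rw [degree_add_eq_left_of_degree_lt hlt, hd]

theorem monic_pert {A : ℝ[X]} (hA : A.Monic) (u w : ℝ) : ((X - C u) * (X - C w) * A).Monic :=
  ((monic_X_sub_C u).mul (monic_X_sub_C w)).mul hA

theorem degree_pert {A : ℝ[X]} (hA : A.Monic) (u w : ℝ) :
    ((X - C u) * (X - C w) * A).natDegree = A.natDegree + 2 := by
  rw [Monic.natDegree_mul ((monic_X_sub_C u).mul (monic_X_sub_C w)) hA,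
    Monic.natDegree_mul (monic_X_sub_C u) (monic_X_sub_C w), natDegree_X_sub_C, natDegree_X_sub_C]
  ring

theorem degree_pertB {A B : ℝ[X]} (hA : A.Monic) (hB : B.degree < A.degree) (u h : ℝ) :
    (pertP A B u h).degree < ((X - C u) * (X - C (u + h ^ 2)) * A).degree := by
  have h2 : ((X - C u) * (X - C (u + h ^ 2)) * A).degree = (2 : WithBot ℕ) + A.degree := by
    rw [degree_mul, degree_mul, degree_X_sub_C, degree_X_sub_C]; rfl
  rw [h2]
  unfold pertP
  refine lt_of_le_of_lt (degree_add_le _ _) (max_lt ?_ ?_)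
  · rw [degree_mul, degree_mul, degree_X_sub_C, degree_X_sub_C]
    have : (1 : WithBot ℕ) + 1 = 2 := rfl
    rw [this]
    exact WithBot.add_lt_add_left (by decide) hB
  · refine lt_of_le_of_lt degree_le_natDegree ?_
    rw [degree_eq_natDegree hA.ne_zero]
    have h3 : (C (h ^ 5) * A).natDegree ≤ A.natDegree := natDegree_C_mul_le _ _
    exact_mod_cast (by omega : (C (h ^ 5) * A).natDegree < 2 + A.natDegree)

theorem step_bad {A B : ℝ[X]} (hA : A.Monic) (hB : B.degree < A.degree) (u : ℝ) {β : ℝ}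
    (hβ : 0 < β) (hbad : ¬ RR (C β * A + B)) :
    ∀ᶠ h in 𝓝[>] (0 : ℝ), ¬ RR (pertP A (C β * A + B) u h) := by
  unfold RR at hbad
  push Not at hbad
  obtain ⟨z, hz, him⟩ := hbad
  have hpos : 0 < β * |z.im| ^ (A.natDegree + 2) := by
    have : 0 < |z.im| := abs_pos.2 him
    positivity
  have hev : ∀ᶠ h in 𝓝[>] (0 : ℝ), |h ^ 5| * ‖aeval z A‖ < β * |z.im| ^ (A.natDegree + 2) := by
    have c1 : ContinuousAt (fun h : ℝ => |h ^ 5| * ‖aeval z A‖) 0 := by fun_prop
    have : ∀ᶠ h in 𝓝 (0 : ℝ), |h ^ 5| * ‖aeval z A‖ < β * |z.im| ^ (A.natDegree + 2) :=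
      c1.eventually_lt continuousAt_const (by simpa using hpos)
    exact this.filter_mono nhdsWithin_le_nhds
  filter_upwards [hev] with h hh hRR
  rw [pertP_pencil] at hRR
  obtain ⟨l1, l2, l3⟩ := lead_pencil (monic_pert hA u (u + h ^ 2)) (degree_pertB hA hB u h) hβ.ne'
  have hlow := rr_lower _ l1 hRR z
  rw [l2, l3, degree_pert hA, abs_of_pos hβ, ← pertP_pencil] at hlow
  have e : aeval z (pertP A (C β * A + B) u h) = ((h ^ 5 : ℝ) : ℂ) * aeval z A := by
    unfold pertP
    rw [map_add, map_mul, hz, mul_zero, zero_add, map_mul]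
    simp
  rw [e, norm_mul, Complex.norm_real, Real.norm_eq_abs] at hlow
  linarith

theorem step_new {A B : ℝ[X]} (hA : A.Monic) (hB : B.degree < A.degree) (u : ℝ)
    (hAu : A.eval u ≠ 0) {γ : ℝ} (hγ : 0 < γ) (hroot : γ * A.eval u + B.eval u = 0) :
    ∀ᶠ h in 𝓝[>] (0 : ℝ), ¬ RR (pertP A (C (γ + 2 * h) * A + B) u h) := by
  have hr : (C γ * A + B).IsRoot u := by
    simp only [IsRoot, eval_add, eval_mul, eval_C]
    exact hroot
  obtain ⟨C₁, hC₁⟩ := dvd_iff_isRoot.2 hr
  let R : ℝ → ℝ := fun h =>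
    h ^ 2 * (-(derivative (C γ * A + B)).eval (u + h ^ 2 / 2) / 4
        + h * (derivative A).eval (u + h ^ 2 / 2) / 2) ^ 2
      - (A.eval (u + h ^ 2 / 2) / 2 - h * C₁.eval (u + h ^ 2 / 2) / 8)
        * (4 * A.eval (u + h ^ 2 / 2) + h * C₁.eval (u + h ^ 2 / 2)
          - h ^ 3 * (derivative (derivative (C γ * A + B))).eval (u + h ^ 2 / 2) / 4
          + h ^ 4 * (derivative (derivative A)).eval (u + h ^ 2 / 2) / 2)
  have hRc : ContinuousAt R 0 := by
    have : ∀ P : ℝ[X], Continuous (fun h : ℝ => P.eval (u + h ^ 2 / 2)) := fun P =>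
      P.continuous.comp (by fun_prop)
    have h1 := this A
    have h2 := this (derivative A)
    have h3 := this (derivative (derivative A))
    have h4 := this C₁
    have h5 := this (derivative (C γ * A + B))
    have h6 := this (derivative (derivative (C γ * A + B)))
    apply Continuous.continuousAt
    fun_prop
  have hR0 : R 0 < 0 := by
    have : R 0 = -2 * (A.eval u) ^ 2 := by
      simp only [R]
      norm_num
      ring
    rw [this]
    have : 0 < (A.eval u) ^ 2 := by positivity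
    linarith
  have hev : ∀ᶠ h in 𝓝[>] (0 : ℝ), R h < 0 :=
    (hRc.eventually_lt continuousAt_const hR0).filter_mono nhdsWithin_le_nhds
  filter_upwards [hev, eventually_mem_nhdsWithin] with h hh hpos hRR
  have hpos' : 0 < h := hpos
  have hβ : γ + 2 * h ≠ 0 := by positivity
  have hne : pertP A (C (γ + 2 * h) * A + B) u h ≠ 0 := by
    rw [pertP_pencil]
    exact (lead_pencil (monic_pert hA u (u + h ^ 2)) (degree_pertB hA hB u h) hβ).1
  have hL := laguerre _ hne hRR (u + h ^ 2 / 2)
  have e0 : C (γ + 2 * h) * A + B = (C γ * A + B) + C (2 * h) * A := by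
    rw [C_add]; ring
  set Q := C γ * A + B with hQ
  have eQ : Q.eval (u + h ^ 2 / 2) = h ^ 2 / 2 * C₁.eval (u + h ^ 2 / 2) := by
    rw [hC₁]; simp
  have d1 : derivative (pertP A (Q + C (2 * h) * A) u h)
      = (2 * X - C u - C (u + h ^ 2)) * (Q + C (2 * h) * A)
        + (X - C u) * (X - C (u + h ^ 2)) * (derivative Q + C (2 * h) * derivative A)
        + C (h ^ 5) * derivative A := by
    unfold pertP
    simp only [derivative_add, derivative_mul, derivative_sub, derivative_X, derivative_C,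
      zero_mul, zero_add, sub_zero, one_mul, mul_one]
    ring
  have d2 : derivative (derivative (pertP A (Q + C (2 * h) * A) u h))
      = 2 * (Q + C (2 * h) * A)
        + 2 * ((2 * X - C u - C (u + h ^ 2)) * (derivative Q + C (2 * h) * derivative A))
        + (X - C u) * (X - C (u + h ^ 2)) *
          (derivative (derivative Q) + C (2 * h) * derivative (derivative A))
        + C (h ^ 5) * derivative (derivative A) := by
    rw [d1]
    simp only [derivative_add, derivative_mul, derivative_sub, derivative_X, derivative_C,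
      derivative_ofNat, zero_mul, zero_add, sub_zero, one_mul, mul_one]
    ring
  rw [e0, d2, d1] at hL
  unfold pertP at hL
  simp only [eval_add, eval_mul, eval_sub, eval_X, eval_C, eval_ofNat, eQ] at hL
  have : h ^ 6 * R h < 0 := mul_neg_of_pos_of_neg (by positivity) hh
  simp only [R] at this
  rw [← hQ] at this
  nlinarith [this, hL]

/-- configurations with `K` certified gaps -/
def Hyp (D : Set ℝ) (K : ℕ) : Prop :=
  ∃ (Z : Finset ℝ) (B : ℝ[X]) (a b : ℕ → ℝ), Z.Nonempty ∧ (∀ z ∈ Z, z ∈ D) ∧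
    (∀ z ∈ Z, B.eval z ≠ 0) ∧ B.degree < (∏ z ∈ Z, (X - C z) : ℝ[X]).degree ∧
    (∀ j ≤ K, 0 < a j ∧
      Cert (fun y => (C (a j) * (∏ z ∈ Z, (X - C z)) + B).eval y) Z.card) ∧
    (∀ j < K, a (j + 1) < b j ∧ b j < a j ∧ ¬ RR (C (b j) * (∏ z ∈ Z, (X - C z)) + B))

theorem hyp_zero {D : Set ℝ} (h0 : (0 : ℝ) ∈ D) : Hyp D 0 := by
  refine ⟨{0}, C (-1), fun _ => 2, fun _ => 0, Finset.singleton_nonempty 0, ?_, ?_, ?_, ?_, ?_⟩
  · intro z hz; rw [Finset.mem_singleton] at hz; rwa [hz]
  · intro z _; simp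
  · rw [Finset.prod_singleton, degree_X_sub_C, degree_C (by norm_num)]
    decide
  · intro j _
    refine ⟨by norm_num, Unit, inferInstance, fun _ => 0, fun _ => 3 / 4, by simp, ?_, ?_⟩
    · intro _
      simp
      norm_num
    · intro i j hij
      exact absurd (Subsingleton.elim i j) hij
  · intro j hj
    exact absurd hj (Nat.not_lt_zero j)

end R581.Circ
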