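import Pool.Agent.R581.CircC

namespace R581.Circ

open Polynomial Filter Topology

theorem prod_monic (Z : Finset ℝ) : (∏ z ∈ Z, (X - C z) : ℝ[X]).Monic :=
  monic_prod_of_monic _ _ fun z _ => monic_X_sub_C z

theorem prod_natDegree (Z : Finset ℝ) : (∏ z ∈ Z, (X - C z) : ℝ[X]).natDegree = Z.card := by
  rw [natDegree_prod_of_monic _ _ fun z _ => monic_X_sub_C z]
  simp

theorem prod_eval_eq_zero (Z : Finset ℝ) (y : ℝ) :
    (∏ z ∈ Z, (X - C z) : ℝ[X]).eval y = 0 ↔ y ∈ Z := by
  rw [eval_prod, Finset.prod_eq_zero_iff]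
  constructor
  · rintro ⟨z, hz, h⟩
    simp only [eval_sub, eval_X, eval_C] at h
    have : y = z := by linarith
    rwa [this]
  · intro h
    exact ⟨y, h, by simp⟩

theorem hyp_succ {D : Set ℝ} (hD : ∀ c d : ℝ, -1 < c → c < d → d < 1 → ∃ y ∈ D, c < y ∧ y < d)
    {K : ℕ} (H : Hyp D K) : Hyp D (K + 1) := by
  classical
  obtain ⟨Z, B, a, b, hZne, hZD, hBZ, hdeg, hgood, hbad⟩ := H
  set A : ℝ[X] := ∏ z ∈ Z, (X - C z) with hA
  have hAm : A.Monic := prod_monic Z
  have hAz : ∀ y, A.eval y = 0 ↔ y ∈ Z := prod_eval_eq_zero Z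
  -- monotonicity of `a`
  have hanti' : ∀ i, i ≤ K → a K ≤ a (K - i) := by
    intro i
    induction i with
    | zero => intro _; exact le_rfl
    | succ i ih =>
      intro hi
      have h1 := ih (by omega)
      obtain ⟨h2, h3, -⟩ := hbad (K - (i + 1)) (by omega)
      have h4 : K - (i + 1) + 1 = K - i := by omega
      rw [h4] at h2
      linarith
  have hanti : ∀ j, j ≤ K → a K ≤ a j := by
    intro j hj
    have := hanti' (K - j) (by omega)
    rwa [show K - (K - j) = j by omega] at this
  -- the new good level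
  have haK := (hgood K le_rfl).1
  obtain ⟨ι, _, l, r, hcard, h1, h2⟩ := (hgood K le_rfl).2
  have hev : ∀ᶠ α in 𝓝 (a K), 0 < α ∧ ∀ i, (α * A.eval (l i) + B.eval (l i)) *
      (α * A.eval (r i) + B.eval (r i)) < 0 := by
    refine (eventually_gt_nhds haK).and ?_
    rw [eventually_all]
    intro i
    have c1 : ContinuousAt (fun α : ℝ => (α * A.eval (l i) + B.eval (l i)) *
      (α * A.eval (r i) + B.eval (r i))) (a K) := by fun_prop
    refine c1.eventually_lt continuousAt_const ?_
    have := (h1 i).2.2.2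
    simpa using this
  obtain ⟨η, hη, hball⟩ := Metric.eventually_nhds_iff.1 hev
  have hdist : ∀ t : ℝ, 0 < t → t < η → 0 < a K - t ∧ ∀ i, ((a K - t) * A.eval (l i) + B.eval (l i)) *
      ((a K - t) * A.eval (r i) + B.eval (r i)) < 0 := by
    intro t ht0 ht
    apply hball
    rw [Real.dist_eq]
    have : a K - t - a K = -t := by ring
    rw [this, abs_neg, abs_of_pos ht0]
    exact ht
  set α' := a K - η / 2 with hα'
  have hα'good := hdist (η / 2) (by linarith) (by linarith)
  rw [← hα'] at hα'good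
  have hcert' : Cert (fun y => (C α' * A + B).eval y) Z.card := by
    refine ⟨ι, inferInstance, l, r, hcard, fun i => ⟨(h1 i).1, (h1 i).2.1, (h1 i).2.2.1, ?_⟩, h2⟩
    simpa using hα'good.2 i
  -- a root of an intermediate level
  have hmid := hdist (η / 4) (by linarith) (by linarith)
  have hne : Nonempty ι := by
    rw [← Fintype.card_pos_iff, hcard]
    exact Finset.card_pos.2 hZne
  obtain ⟨i₀⟩ := hne
  obtain ⟨y₀, hy1, hy2, hy3⟩ := exists_zero (G := fun y => (a K - η / 4) * A.eval y + B.eval y)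
    (by fun_prop) (h1 i₀).2.1 (hmid.2 i₀)
  have hy0in : -1 < y₀ ∧ y₀ < 1 := ⟨by linarith [(h1 i₀).1], by linarith [(h1 i₀).2.2.1]⟩
  have hAy : A.eval y₀ ≠ 0 := by
    intro h0
    have hz := (hAz y₀).1 h0
    simp only [h0, mul_zero, zero_add] at hy3
    exact hBZ y₀ hz hy3
  -- the position `u` of the new pair
  have hevu : ∀ᶠ y in 𝓝 y₀, A.eval y ≠ 0 ∧ α' < -B.eval y / A.eval y ∧ -B.eval y / A.eval y < a K ∧
      -1 < y ∧ y < 1 := by
    have cA : ContinuousAt (fun y => A.eval y) y₀ := A.continuous.continuousAt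
    have cQ : ContinuousAt (fun y => -B.eval y / A.eval y) y₀ := by
      refine ContinuousAt.div ?_ cA hAy
      exact (B.continuous.neg).continuousAt
    have hval : -B.eval y₀ / A.eval y₀ = a K - η / 4 := by
      rw [div_eq_iff hAy]
      linarith
    refine (cA.eventually_ne hAy).and ((continuousAt_const.eventually_lt cQ ?_).and
      ((cQ.eventually_lt continuousAt_const ?_).and
        ((eventually_gt_nhds hy0in.1).and (eventually_lt_nhds hy0in.2))))
    · rw [hval]; linarith
    · rw [hval]; linarith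
  obtain ⟨ρ, hρ, hballu⟩ := Metric.eventually_nhds_iff.1 hevu
  obtain ⟨u, huD, hu1, hu2⟩ := hD (max (y₀ - ρ) ((y₀ - 1) / 2)) (min (y₀ + ρ) ((y₀ + 1) / 2))
    (by rw [lt_max_iff]; right; linarith)
    (by
      rw [max_lt_iff, lt_min_iff, lt_min_iff]
      refine ⟨⟨by linarith, by linarith⟩, ⟨by linarith, by linarith⟩⟩)
    (by rw [min_lt_iff]; right; linarith)
  rw [max_lt_iff] at hu1
  rw [lt_min_iff] at hu2
  obtain ⟨hAu, hγ1, hγ2, hum1, hup1⟩ := hballu (y := u) (by
    rw [Real.dist_eq, abs_lt]; constructor <;> linarith)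
  set γ := -B.eval u / A.eval u with hγ
  have hγroot : γ * A.eval u + B.eval u = 0 := by
    rw [hγ, div_mul_cancel₀ _ hAu]; ring
  have hγ0 : 0 < γ := by linarith [hα'good.1]
  have hGu : ∀ α : ℝ, α ≠ γ → (C α * A + B).eval u ≠ 0 := by
    intro α hα h0
    simp only [eval_add, eval_mul, eval_C] at h0
    have h3 : (α - γ) * A.eval u = 0 := by linarith
    rcases mul_eq_zero.1 h3 with h | h
    · exact hα (by linarith)
    · exact hAu h
  have hcont : ∀ P : ℝ[X], Continuous (fun y => P.eval y) := fun P => P.continuous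
  -- eventual statements
  have E1 : ∀ᶠ h in 𝓝[>] (0 : ℝ), ∀ j ∈ Finset.range (K + 1),
      Cert (pert (fun y => A.eval y) (fun y => (C (a j) * A + B).eval y) u h) (Z.card + 2) := by
    rw [Filter.eventually_all_finset]
    intro j hj
    rw [Finset.mem_range] at hj
    exact step_good (hcont A) (hcont _) hum1 hup1 hAu
      (hGu _ (by have := hanti j (by omega); linarith)) (hgood j (by omega)).2
  have E2 : ∀ᶠ h in 𝓝[>] (0 : ℝ),
      Cert (pert (fun y => A.eval y) (fun y => (C α' * A + B).eval y) u h) (Z.card + 2) :=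
    step_good (hcont A) (hcont _) hum1 hup1 hAu (hGu _ (by linarith)) hcert'
  have E3 : ∀ᶠ h in 𝓝[>] (0 : ℝ), ∀ j ∈ Finset.range K,
      ¬ RR (pertP A (C (b j) * A + B) u h) := by
    rw [Filter.eventually_all_finset]
    intro j hj
    rw [Finset.mem_range] at hj
    obtain ⟨h3, h4, h5⟩ := hbad j hj
    have h6 := (hgood (j + 1) (by omega)).1
    exact step_bad hAm hdeg u (by linarith) h5
  have E4 := step_new hAm hdeg u hAu hγ0 hγroot
  have E5 : ∀ᶠ h in 𝓝[>] (0 : ℝ), γ + 2 * h < a K := by
    have c1 : ContinuousAt (fun h : ℝ => γ + 2 * h) 0 := by fun_prop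
    exact (c1.eventually_lt continuousAt_const (by simpa using hγ2)).filter_mono nhdsWithin_le_nhds
  have E6 : ∀ᶠ h in 𝓝[>] (0 : ℝ), A.eval (u + h ^ 2) ≠ 0 := by
    have c1 : ContinuousAt (fun h : ℝ => A.eval (u + h ^ 2)) 0 :=
      (A.continuous.comp (by fun_prop : Continuous fun h : ℝ => u + h ^ 2)).continuousAt
    exact (c1.eventually_ne (by simpa using hAu)).filter_mono nhdsWithin_le_nhds
  obtain ⟨h₀, hh₀, hall⟩ := (nhdsGT_basis (0 : ℝ)).eventually_iff.1
    (E1.and (E2.and (E3.and (E4.and (E5.and E6)))))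
  have hh₀' : 0 < h₀ := hh₀
  obtain ⟨w, hwD, hw1, hw2⟩ := hD u (min (u + h₀ ^ 2) ((u + 1) / 2)) hum1
    (by
      rw [lt_min_iff]
      exact ⟨by have : 0 < h₀ ^ 2 := by positivity
                linarith, by linarith⟩)
    (by rw [min_lt_iff]; right; linarith)
  rw [lt_min_iff] at hw2
  have hwu : 0 < w - u := by linarith
  obtain ⟨h, hh0, hhw⟩ : ∃ h : ℝ, 0 < h ∧ u + h ^ 2 = w :=
    ⟨Real.sqrt (w - u), Real.sqrt_pos.2 hwu, by rw [Real.sq_sqrt hwu.le]; ring⟩
  have hhlt : h < h₀ := by
    have : h ^ 2 < h₀ ^ 2 := by linarith [hw2.1]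
    exact lt_of_pow_lt_pow_left₀ 2 hh₀'.le this
  obtain ⟨F1, F2, F3, F4, F5, F6⟩ := hall ⟨hh0, hhlt⟩
  rw [hhw] at F6
  have huZ : u ∉ Z := fun h => hAu ((hAz u).2 h)
  have hwZ : w ∉ Z := fun h => F6 ((hAz w).2 h)
  have huw : u ≠ w := ne_of_lt hw1
  have huZ' : u ∉ insert w Z := by
    rw [Finset.mem_insert]
    push Not
    exact ⟨huw, huZ⟩
  have hprod : (∏ z ∈ insert u (insert w Z), (X - C z) : ℝ[X])
      = (X - C u) * (X - C (u + h ^ 2)) * A := by
    rw [Finset.prod_insert huZ', Finset.prod_insert hwZ, hhw, ← hA]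
    ring
  have hcard' : (insert u (insert w Z)).card = Z.card + 2 := by
    rw [Finset.card_insert_of_notMem huZ', Finset.card_insert_of_notMem hwZ]
  have hcertconv : ∀ α : ℝ,
      Cert (pert (fun y => A.eval y) (fun y => (C α * A + B).eval y) u h) (Z.card + 2) →
      Cert (fun y => (C α * (∏ z ∈ insert u (insert w Z), (X - C z)) + pertP A B u h).eval y)
        (insert u (insert w Z)).card := by
    intro α hc
    rw [hprod, hcard', ← pertP_pencil]
    have : (fun y => (pertP A (C α * A + B) u h).eval y)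
        = pert (fun y => A.eval y) (fun y => (C α * A + B).eval y) u h := by
      funext y
      exact pertP_eval _ _ _ _ _
    rw [this]
    exact hc
  refine ⟨insert u (insert w Z), pertP A B u h, fun j => if j ≤ K then a j else α',
    fun j => if j < K then b j else γ + 2 * h, ⟨u, Finset.mem_insert_self _ _⟩, ?_, ?_, ?_, ?_, ?_⟩
  · intro z hz
    rw [Finset.mem_insert, Finset.mem_insert] at hz
    rcases hz with rfl | rfl | hz
    · exact huD
    · exact hwD
    · exact hZD z hz
  · intro z hz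
    have hh5 : h ^ 5 ≠ 0 := by positivity
    rw [Finset.mem_insert, Finset.mem_insert] at hz
    rcases hz with rfl | rfl | hz
    · simp only [pertP, eval_add, eval_mul, eval_sub, eval_X, eval_C, sub_self, zero_mul, zero_add]
      exact mul_ne_zero hh5 hAu
    · simp only [pertP, eval_add, eval_mul, eval_sub, eval_X, eval_C, hhw, sub_self, mul_zero,
        zero_mul, zero_add]
      exact mul_ne_zero hh5 F6
    · have h0 : A.eval z = 0 := (hAz z).2 hz
      simp only [pertP, eval_add, eval_mul, eval_sub, eval_X, eval_C, hhw, h0, mul_zero, add_zero]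
      refine mul_ne_zero (mul_ne_zero ?_ ?_) (hBZ z hz)
      · intro h; exact huZ (by have : z = u := by linarith
                               rwa [← this])
      · intro h; exact hwZ (by have : z = w := by linarith
                               rwa [← this])
  · rw [hprod]
    exact degree_pertB hAm hdeg u h
  · intro j hj
    rcases Nat.lt_or_ge K j with hj' | hj'
    · have : ¬ j ≤ K := by omega
      simp only [this, if_false]
      exact ⟨hα'good.1, hcertconv _ F2⟩
    · simp only [hj', if_true]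
      exact ⟨(hgood j hj').1, hcertconv _ (F1 j (Finset.mem_range.2 (by omega)))⟩
  · intro j hj
    rcases Nat.lt_or_ge j K with hj' | hj'
    · have e1 : j + 1 ≤ K := hj'
      have e2 : j ≤ K := by omega
      simp only [e1, e2, hj', if_true]
      obtain ⟨h3, h4, _⟩ := hbad j hj'
      refine ⟨h3, h4, ?_⟩
      rw [hprod, ← pertP_pencil]
      exact F3 j (Finset.mem_range.2 hj')
    · have hjK : j = K := by omega
      subst hjK
      simp only [le_refl, if_true, lt_irrefl, if_false]
      have e1 : ¬ j + 1 ≤ j := by omega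
      simp only [e1, if_false]
      refine ⟨by linarith, F5, ?_⟩
      rw [hprod, ← pertP_pencil]
      exact F4

end R581.Circ
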