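import Pool.Agent.R581.CircD

/-!
# Chebyshev nodes and the passage from real pencils to self-inversive polynomials
-/

namespace R581.Circ

open Polynomial Filter Topology

/-- roots of Chebyshev polynomials of odd index -/
def D : Set ℝ := {y | ∃ b : ℕ, Odd b ∧ (Chebyshev.T ℝ (b : ℤ)).eval y = 0}

theorem zero_mem_D : (0 : ℝ) ∈ D := ⟨1, odd_one, by simp⟩

theorem D_dense (c d : ℝ) (hc : -1 < c) (hcd : c < d) (hd : d < 1) : ∃ y ∈ D, c < y ∧ y < d := by
  have hth : Real.arccos d < Real.arccos c :=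
    Real.strictAntiOn_arccos ⟨hc.le, (hcd.trans hd).le⟩ ⟨(hc.trans hcd).le, hd.le⟩ hcd
  set θ₁ := Real.arccos d with hθ₁
  set θ₂ := Real.arccos c with hθ₂
  have h1 : 0 ≤ θ₁ := Real.arccos_nonneg d
  have h2 : θ₂ ≤ Real.pi := Real.arccos_le_pi c
  have hpi := Real.pi_pos
  obtain ⟨n, hn⟩ := exists_nat_gt (Real.pi / (θ₂ - θ₁))
  have hpos : 0 < θ₂ - θ₁ := by linarith
  set b : ℝ := ((2 * n + 1 : ℕ) : ℝ) with hb
  have hb0 : 0 < b := by rw [hb]; positivity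
  have hbn : Real.pi / b < θ₂ - θ₁ := by
    rw [div_lt_iff₀ hpos] at hn
    rw [div_lt_iff₀ hb0]
    have : (n : ℝ) ≤ b := by rw [hb]; push_cast; linarith [Nat.cast_nonneg (α := ℝ) n]
    nlinarith
  set k : ℤ := ⌊θ₁ * b / Real.pi - 1 / 2⌋ + 1 with hk
  have hk1 : θ₁ * b / Real.pi - 1 / 2 < (k : ℝ) := by
    rw [hk]; push_cast; exact Int.lt_floor_add_one _
  have hk2 : (k : ℝ) ≤ θ₁ * b / Real.pi - 1 / 2 + 1 := by
    rw [hk]; push_cast
    have := Int.floor_le (θ₁ * b / Real.pi - 1 / 2)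
    linarith
  set t : ℝ := (2 * k + 1) * Real.pi / 2 / b with ht
  have ht1 : θ₁ < t := by
    rw [ht, lt_div_iff₀ hb0]
    have h3 : θ₁ * b / Real.pi * Real.pi = θ₁ * b := div_mul_cancel₀ _ hpi.ne'
    nlinarith
  have ht2 : t < θ₂ := by
    have h3 : θ₁ * b / Real.pi * Real.pi = θ₁ * b := div_mul_cancel₀ _ hpi.ne'
    have h4 : t ≤ θ₁ + Real.pi / b := by
      have h5 : (θ₁ + Real.pi / b) * b = θ₁ * b + Real.pi := by field_simp
      rw [ht, div_le_iff₀ hb0, h5]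
      nlinarith
    linarith
  refine ⟨Real.cos t, ⟨2 * n + 1, ⟨n, rfl⟩, ?_⟩, ?_, ?_⟩
  · rw [Chebyshev.T_real_cos, Real.cos_eq_zero_iff]
    refine ⟨k, ?_⟩
    have : (((2 * n + 1 : ℕ) : ℤ) : ℝ) = b := by rw [hb]; push_cast; ring
    rw [this, ht]
    field_simp
  · have : Real.cos θ₂ = c := Real.cos_arccos hc.le (hcd.trans hd).le
    rw [← this]
    exact Real.cos_lt_cos_of_nonneg_of_le_pi (by linarith) h2 ht2
  · have : Real.cos θ₁ = d := Real.cos_arccos (hc.trans hcd).le hd.le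
    rw [← this]
    exact Real.cos_lt_cos_of_nonneg_of_le_pi h1 (by linarith) ht1

theorem common_N (Z : Finset ℝ) (hZ : ∀ z ∈ Z, z ∈ D) :
    ∃ N : ℕ, Odd N ∧ ∀ z ∈ Z, (Chebyshev.T ℝ (N : ℤ)).eval z = 0 := by
  classical
  induction Z using Finset.induction_on with
  | empty => exact ⟨1, odd_one, by simp⟩
  | insert z Z _ ih =>
    obtain ⟨N, hN, h⟩ := ih (fun y hy => hZ y (Finset.mem_insert_of_mem hy))
    obtain ⟨b, hb, hbz⟩ := hZ z (Finset.mem_insert_self _ _)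
    have hmul : ∀ (m k : ℕ) (y : ℝ), Odd m → (Chebyshev.T ℝ (k : ℤ)).eval y = 0 →
        (Chebyshev.T ℝ ((m * k : ℕ) : ℤ)).eval y = 0 := by
      intro m k y hm hy
      rw [Nat.cast_mul, Chebyshev.T_mul, eval_comp, hy]
      exact Chebyshev.T_eval_zero_of_odd ℝ (by exact_mod_cast hm)
    refine ⟨b * N, hb.mul hN, fun y hy => ?_⟩
    rw [Finset.mem_insert] at hy
    rcases hy with rfl | hy
    · rw [mul_comm b N]
      exact hmul N b _ hN hbz
    · exact hmul b N y hb (h y hy)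

theorem T_root_real {N : ℕ} (hN : 0 < N) (y : ℂ) (hy : aeval y (Chebyshev.T ℝ (N : ℤ)) = 0) :
    ∃ t : ℝ, -1 ≤ t ∧ t ≤ 1 ∧ y = (t : ℂ) := by
  obtain ⟨θ, rfl⟩ := Complex.cos_surjective y
  have h1 : aeval (Complex.cos θ) (Chebyshev.T ℝ (N : ℤ)) = (Chebyshev.T ℂ (N : ℤ)).eval (Complex.cos θ) := by
    rw [← Chebyshev.map_T (algebraMap ℝ ℂ), eval_map_algebraMap]
  rw [h1, Chebyshev.T_complex_cos, Complex.cos_eq_zero_iff] at hy
  obtain ⟨k, hk⟩ := hy
  have hN' : ((N : ℤ) : ℂ) ≠ 0 := by exact_mod_cast hN.ne'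
  have hθ : θ = (((2 * k + 1) * Real.pi / 2 / N : ℝ) : ℂ) := by
    push_cast
    rw [eq_div_iff (by exact_mod_cast hN.ne')]
    have : θ * (N : ℂ) = ((N : ℤ) : ℂ) * θ := by push_cast; ring
    rw [this, hk]
  refine ⟨Real.cos ((2 * k + 1) * Real.pi / 2 / N), Real.neg_one_le_cos _, Real.cos_le_one _, ?_⟩
  rw [hθ, Complex.ofReal_cos]

theorem exists_x (y : ℂ) : ∃ x : ℂ, x ≠ 0 ∧ (x + x⁻¹) / 2 = y := by
  obtain ⟨s, hs⟩ := IsAlgClosed.exists_pow_nat_eq (y ^ 2 - 1) (n := 2) (by norm_num)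
  have h1 : (y + s) * (y - s) = 1 := by
    have : (y + s) * (y - s) = y ^ 2 - s ^ 2 := by ring
    rw [this, hs]; ring
  have hx : y + s ≠ 0 := left_ne_zero_of_mul_eq_one h1
  refine ⟨y + s, hx, ?_⟩
  have h2 : (y + s)⁻¹ = y - s := (eq_inv_of_mul_eq_one_right h1).symm
  rw [h2]; ring

theorem norm_one_of_mem {x : ℂ} (hx : x ≠ 0) {t : ℝ} (h1 : -1 ≤ t) (h2 : t ≤ 1)
    (h : (x + x⁻¹) / 2 = (t : ℂ)) : ‖x‖ = 1 := by
  have hq : (x - t) ^ 2 = ((t ^ 2 - 1 : ℝ) : ℂ) := by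
    have h3 : x * x⁻¹ = 1 := mul_inv_cancel₀ hx
    have h4 : x⁻¹ = 2 * t - x := by linear_combination 2 * h
    rw [h4] at h3
    push_cast
    linear_combination -h3
  have hre := congrArg Complex.re hq
  have him := congrArg Complex.im hq
  rw [sq, Complex.mul_re, Complex.ofReal_re] at hre
  rw [sq, Complex.mul_im, Complex.ofReal_im] at him
  simp only [Complex.sub_re, Complex.ofReal_re, Complex.sub_im, Complex.ofReal_im, sub_zero] at hre him
  have h5 : (x.re - t) * x.im = 0 := by linarith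
  have h6 : x.re = t := by
    by_contra hne
    have h7 : x.re - t ≠ 0 := sub_ne_zero.2 hne
    have h8 : x.im = 0 := by
      rcases mul_eq_zero.1 h5 with h | h
      · exact absurd h h7
      · exact h
    rw [h8] at hre
    have : 0 < (x.re - t) * (x.re - t) := mul_self_pos.2 h7
    nlinarith
  have h9 : x.im * x.im = 1 - t ^ 2 := by
    rw [h6] at hre; nlinarith
  have h10 : ‖x‖ ^ 2 = 1 := by
    rw [← Complex.normSq_eq_norm_sq, Complex.normSq_apply, h6, h9]; ring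
  have h11 := norm_nonneg x
  nlinarith

theorem im_zero_of_norm {x : ℂ} (hx : ‖x‖ = 1) : ((x + x⁻¹) / 2).im = 0 := by
  have h1 : x⁻¹ = (starRingEnd ℂ) x := Complex.inv_eq_conj hx
  rw [h1]
  have : (x + (starRingEnd ℂ) x) / 2 = ((x.re : ℝ) : ℂ) := by
    rw [Complex.add_conj]
    push_cast
    ring
  rw [this]
  simp

theorem T_joukowski (N : ℕ) {x : ℂ} (hx : x ≠ 0) :
    aeval ((x + x⁻¹) / 2) (Chebyshev.T ℝ (N : ℤ)) * (2 * x ^ N) = x ^ (2 * N) + 1 := by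
  have h1 : aeval ((x + x⁻¹) / 2) (Chebyshev.T ℝ (N : ℤ))
      = (Chebyshev.T ℂ (N : ℤ)).eval ((x + x⁻¹) / 2) := by
    rw [← Chebyshev.map_T (algebraMap ℝ ℂ), eval_map_algebraMap]
  have hexp : Complex.exp (Complex.log x) = x := Complex.exp_log hx
  set θ : ℂ := -Complex.I * Complex.log x with hθ
  have hi : θ * Complex.I = Complex.log x := by
    rw [hθ]
    linear_combination (-Complex.log x) * Complex.I_mul_I
  have hcos : Complex.cos θ = (x + x⁻¹) / 2 := by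
    unfold Complex.cos
    rw [hi, neg_mul, hi, Complex.exp_neg, hexp]
  have hcosN : Complex.cos (((N : ℤ) : ℂ) * θ) = (x ^ N + (x ^ N)⁻¹) / 2 := by
    unfold Complex.cos
    have h2 : ((N : ℤ) : ℂ) * θ * Complex.I = (N : ℂ) * Complex.log x := by
      rw [mul_assoc, hi]; push_cast; ring
    rw [h2, neg_mul, h2, Complex.exp_neg, Complex.exp_nat_mul, hexp]
  rw [h1, ← hcos, Chebyshev.T_complex_cos, hcosN]
  have hxN : x ^ N ≠ 0 := pow_ne_zero _ hx
  field_simp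
  ring

/-- the palindromic polynomial `x^N P((x + 1/x)/2)` -/
noncomputable def lift (N : ℕ) (P : ℝ[X]) : ℝ[X] :=
  ∑ k ∈ Finset.range N, C (P.coeff k / 2 ^ k) * (X ^ (N - k) * (X ^ 2 + 1) ^ k)

theorem lift_eval (N : ℕ) (P : ℝ[X]) (hP : P.natDegree < N) {x : ℂ} (hx : x ≠ 0) :
    aeval x (lift N P) = x ^ N * aeval ((x + x⁻¹) / 2) P := by
  rw [aeval_eq_sum_range' hP, lift, map_sum, Finset.mul_sum]
  refine Finset.sum_congr rfl fun k hk => ?_
  rw [Finset.mem_range] at hk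
  have h1 : x ^ N = x ^ (N - k) * x ^ k := by rw [← pow_add]; congr 1; omega
  simp only [map_mul, map_pow, map_add, aeval_X, map_one, aeval_C]
  rw [Algebra.smul_def]
  have h2 : (x ^ 2 + 1 : ℂ) = (2 * x) * ((x + x⁻¹) / 2) := by
    field_simp
  rw [h2, mul_pow, mul_pow, h1]
  have h3 : (algebraMap ℝ ℂ) (P.coeff k / 2 ^ k) = (algebraMap ℝ ℂ) (P.coeff k) / 2 ^ k := by
    simp
  rw [h3]
  have h4 : (2 : ℂ) ^ k ≠ 0 := pow_ne_zero _ two_ne_zero
  field_simp

theorem natDegree_term (N k : ℕ) (hk : k < N) :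
    ((X : ℝ[X]) ^ (N - k) * (X ^ 2 + 1) ^ k).natDegree ≤ 2 * N - 1 := by
  refine natDegree_mul_le.trans ?_
  have h1 : ((X : ℝ[X]) ^ (N - k)).natDegree ≤ N - k := natDegree_X_pow_le _
  have h2 : (((X : ℝ[X]) ^ 2 + 1) ^ k).natDegree ≤ k * 2 := by
    refine natDegree_pow_le.trans ?_
    gcongr
    compute_degree
  omega

theorem lift_natDegree (N : ℕ) (P : ℝ[X]) : (lift N P).natDegree ≤ 2 * N - 1 := by
  unfold lift
  refine natDegree_sum_le_of_forall_le _ _ fun k hk => ?_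
  rw [Finset.mem_range] at hk
  exact (natDegree_C_mul_le _ _).trans (natDegree_term N k hk)

theorem reflect_sq (k : ℕ) : reflect (2 * k) (((X : ℝ[X]) ^ 2 + 1) ^ k) = (X ^ 2 + 1) ^ k := by
  induction k with
  | zero => simp
  | succ k ih =>
    have h1 : (((X : ℝ[X]) ^ 2 + 1) ^ k).natDegree ≤ 2 * k := by
      refine natDegree_pow_le.trans ?_
      rw [mul_comm]
      gcongr
      compute_degree
    have h2 : ((X : ℝ[X]) ^ 2 + 1).natDegree ≤ 2 := by compute_degree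
    rw [pow_succ, mul_add, mul_one, reflect_mul _ _ h1 h2, ih]
    congr 1
    have h3 : reflect 2 ((X : ℝ[X]) ^ 2) = 1 := by
      rw [reflect_monomial, revAt_le le_rfl]; simp
    have h4 : reflect 2 (1 : ℝ[X]) = X ^ 2 := by
      have := reflect_monomial (R := ℝ) 2 0
      rw [pow_zero, revAt_le (by norm_num)] at this
      exact this
    rw [reflect_add, h3, h4, add_comm]

theorem term_symm (N k : ℕ) (hk : k < N) (i : ℕ) (hi : i ≤ 2 * N) :
    ((X : ℝ[X]) ^ (N - k) * (X ^ 2 + 1) ^ k).coeff i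
      = ((X : ℝ[X]) ^ (N - k) * (X ^ 2 + 1) ^ k).coeff (2 * N - i) := by
  have h1 : (((X : ℝ[X]) ^ 2 + 1) ^ k).natDegree ≤ 2 * k := by
    refine natDegree_pow_le.trans ?_
    rw [mul_comm]
    gcongr
    compute_degree
  have h2 : ((X : ℝ[X]) ^ (N - k)).natDegree ≤ 2 * (N - k) :=
    (natDegree_X_pow_le _).trans (by omega)
  have h3 : reflect (2 * (N - k) + 2 * k) ((X : ℝ[X]) ^ (N - k) * (X ^ 2 + 1) ^ k)
      = X ^ (N - k) * (X ^ 2 + 1) ^ k := by
    rw [reflect_mul _ _ h2 h1, reflect_sq, reflect_monomial, revAt_le (by omega)]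
    congr 2
    omega
  have h4 : 2 * (N - k) + 2 * k = 2 * N := by omega
  rw [h4] at h3
  conv_lhs => rw [← h3, coeff_reflect, revAt_le hi]

theorem lift_symm (N : ℕ) (P : ℝ[X]) (i : ℕ) (hi : i ≤ 2 * N) :
    (lift N P).coeff i = (lift N P).coeff (2 * N - i) := by
  unfold lift
  rw [finsetSum_coeff, finsetSum_coeff]
  refine Finset.sum_congr rfl fun k hk => ?_
  rw [Finset.mem_range] at hk
  rw [coeff_C_mul, coeff_C_mul, term_symm N k hk i hi]

end R581.Circ
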