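import Pool.Agent.R581.MoralPerc

/-!
# The counting inequality behind moral auctions
-/

namespace R581.Moral

open Finset

section Swap

variable {n : ℕ} {Y : Fin n → Type} [∀ i, Fintype (Y i)] [∀ i, DecidableEq (Y i)]

/-- exchanging the `i`-th coordinate of a profile with an extra value -/
def swapE (Y : Fin n → Type) (i : Fin n) : ((∀ i, Y i) × Y i) ≃ ((∀ i, Y i) × Y i) where
  toFun p := (Function.update p.1 i p.2, p.1 i)
  invFun p := (Function.update p.1 i p.2, p.1 i)
  left_inv p := by
    obtain ⟨y, z⟩ := p
    simp
  right_inv p := by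
    obtain ⟨y, z⟩ := p
    simp

omit [∀ i, Fintype (Y i)] [∀ i, DecidableEq (Y i)] in
theorem prod_update_weight (w : ∀ i, Y i → ℝ) (i : Fin n) (y : ∀ i, Y i) (z : Y i) :
    (∏ j, w j (Function.update y i z j)) * w i (y i) = (∏ j, w j (y j)) * w i z := by
  rw [← mul_prod_erase univ (fun j => w j (Function.update y i z j)) (mem_univ i),
    ← mul_prod_erase univ (fun j => w j (y j)) (mem_univ i), Function.update_self]
  have : ∏ j ∈ univ.erase i, w j (Function.update y i z j) = ∏ j ∈ univ.erase i, w j (y j) := by
    refine prod_congr rfl fun j hj => ?_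
    rw [Function.update_of_ne (ne_of_mem_erase hj)]
  rw [this]; ring

omit [∀ i, DecidableEq (Y i)] in
theorem swap_sum (w : ∀ i, Y i → ℝ) (i : Fin n) (h : (∀ i, Y i) → ℝ) :
    ∑ y, (∏ j, w j (y j)) * ∑ z, w i z * h (Function.update y i z)
      = (∑ z, w i z) * ∑ y, (∏ j, w j (y j)) * h y := by
  classical
  have h1 : ∑ y, (∏ j, w j (y j)) * ∑ z, w i z * h (Function.update y i z)
      = ∑ p : (∀ i, Y i) × Y i, ((∏ j, w j (p.1 j)) * w i p.2) * h (Function.update p.1 i p.2) := by
    rw [Fintype.sum_prod_type]
    refine sum_congr rfl fun y _ => ?_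
    rw [mul_sum]
    refine sum_congr rfl fun z _ => ?_
    ring
  have h2 : ∑ p : (∀ i, Y i) × Y i, ((∏ j, w j (p.1 j)) * w i p.2) * h (Function.update p.1 i p.2)
      = ∑ p : (∀ i, Y i) × Y i, ((∏ j, w j (p.1 j)) * w i p.2) * h p.1 := by
    rw [← Equiv.sum_comp (swapE Y i)
      (fun p : (∀ i, Y i) × Y i => ((∏ j, w j (p.1 j)) * w i p.2) * h p.1)]
    refine sum_congr rfl fun p _ => ?_
    simp only [swapE, Equiv.coe_fn_mk]
    rw [prod_update_weight]
  rw [h1, h2, Fintype.sum_prod_type, mul_sum]
  refine sum_congr rfl fun y _ => ?_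
  rw [sum_mul]
  refine sum_congr rfl fun z _ => ?_
  ring

omit [∀ i, DecidableEq (Y i)] in
/-- comparing sums line by line -/
theorem sum_le_of_lines (w : ∀ i, Y i → ℝ) (hw : ∀ i x, 0 ≤ w i x) (i : Fin n)
    (hi : 0 < ∑ z, w i z) (h₁ h₂ : (∀ i, Y i) → ℝ)
    (hle : ∀ y, ∑ z, w i z * h₁ (Function.update y i z) ≤ ∑ z, w i z * h₂ (Function.update y i z)) :
    ∑ y, (∏ j, w j (y j)) * h₁ y ≤ ∑ y, (∏ j, w j (y j)) * h₂ y := by
  have h := swap_sum w i h₁
  have h' := swap_sum w i h₂
  have : (∑ z, w i z) * ∑ y, (∏ j, w j (y j)) * h₁ y ≤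
      (∑ z, w i z) * ∑ y, (∏ j, w j (y j)) * h₂ y := by
    rw [← h, ← h']
    refine sum_le_sum fun y _ => ?_
    exact mul_le_mul_of_nonneg_left (hle y) (prod_nonneg fun j _ => hw j _)
  exact le_of_mul_le_mul_left this hi

end Swap

section Count

variable {n : ℕ} {V : Type} [Fintype V] [DecidableEq V] {L : Type} [LinearOrder L]

/-- the set of values with which `i` wins against `v₋ᵢ` -/
def winSet (A : (Fin n → V) → Option (Fin n)) (i : Fin n) (v : Fin n → V) : Finset V :=
  univ.filter (fun x => A (Function.update v i x) = some i)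

/-- normalised payment at a cell -/
noncomputable def cellPay (A : (Fin n → V) → Option (Fin n)) (U : Fin n → Finset V)
    (q : Fin n → V → ℝ) (i : Fin n) (v : Fin n → V) : ℝ :=
  if A v = some i then
    min (∑ x ∈ winSet A i v, q i x) (∑ x ∈ U i, q i x) / (∑ x ∈ winSet A i v, q i x)
  else 0

theorem count_ineq (A : (Fin n → V) → Option (Fin n)) (κ : Fin n → (Fin n → V) → L)
    (hκ : ∀ i v x, κ i (Function.update v i x) = κ i v)
    (hA : ∀ v i, A v = some i → ∀ j, j ≠ i → κ i v < κ j v)
    (U : Fin n → Finset V) (N : Fin n → V → ℕ) :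
    ∑ v, (∏ j, (N j (v j) : ℝ)) * ∑ i, cellPay A U (fun i x => (N i x : ℝ)) i v
      ≤ ∏ i, (∑ x, (N i x : ℝ)) - ∏ i, (∑ x, (N i x : ℝ) - ∑ x ∈ U i, (N i x : ℝ)) := by
  classical
  let Y : Fin n → Type := fun i => Σ x : V, Fin (N i x)
  let g : (∀ i, Y i) → (Fin n → V) := fun y i => (y i).1
  have hg : ∀ y i (z : Y i), g (Function.update y i z) = Function.update (g y) i z.1 := by
    intro y i z
    funext j
    by_cases hj : j = i
    · subst hj; simp [g]
    · simp [g, Function.update_of_ne hj]
  have hcardY : ∀ i, Fintype.card (Y i) = ∑ x, N i x := by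
    intro i
    simp [Y, Fintype.card_sigma]
  let a : Fin n → ℕ := fun i => ∑ x ∈ U i, N i x
  have haY : ∀ i, a i ≤ Fintype.card (Y i) := by
    intro i
    rw [hcardY]
    exact sum_le_sum_of_subset (subset_univ _)
  let WY : ∀ i, (∀ i, Y i) → Finset (Y i) := fun i y =>
    univ.filter (fun z => A (g (Function.update y i z)) = some i)
  have hWYup : ∀ i y z, WY i (Function.update y i z) = WY i y := by
    intro i y z
    simp only [WY, Function.update_idem]
  have hWYcard : ∀ i y, (WY i y).card = ∑ x ∈ winSet A i (g y), N i x := by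
    intro i y
    have : WY i y = (winSet A i (g y)).sigma (fun x => (univ : Finset (Fin (N i x)))) := by
      ext z
      rcases z with ⟨x, c⟩
      simp only [WY, winSet, mem_filter, mem_univ, true_and]
      rw [hg]
      constructor
      · intro h
        exact Finset.mem_sigma.2 ⟨mem_filter.2 ⟨mem_univ _, h⟩, mem_univ _⟩
      · intro h
        exact (mem_filter.1 (Finset.mem_sigma.1 h).1).2
    rw [this, card_sigma]
    simp
  have hX : ∀ (i : Fin n) (W : Finset (Y i)), ∃ X : Finset (Y i), X ⊆ W ∧ X.card = W.card - a i := by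
    intro i W
    exact exists_subset_card_eq (Nat.sub_le _ _)
  choose X hXs hXc using hX
  let paid : Fin n → (∀ i, Y i) → Prop := fun i y => A (g y) = some i ∧ y i ∉ X i (WY i y)
  let K : Finset (∀ i, Y i) := univ.filter (fun y => ∀ i, ¬ paid i y)
  have hperc : ∏ i, (Fintype.card (Y i) - a i) ≤ K.card := by
    refine percolation (fun i => Fintype.card (Y i) - a i) (fun i => Nat.sub_le _ _) K ?_
    intro S hKS hrule
    -- minimal counterexample with respect to the key of the assigned line
    by_contra hcon
    push Not at hcon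
    have hsold : ∀ y, y ∉ S → ∃ i, A (g y) = some i := by
      intro y hy
      by_contra h
      push Not at h
      apply hy
      apply hKS
      simp only [K, mem_filter, mem_univ, true_and]
      intro i hp
      exact h i hp.1
    -- pick the counterexample of minimal key
    let B : Finset (∀ i, Y i) := univ.filter (fun y => y ∉ S)
    have hBne : B.Nonempty := by
      obtain ⟨y, hy⟩ := hcon
      exact ⟨y, by simp [B, hy]⟩
    have hne : Nonempty (Fin n) := by
      obtain ⟨y, hy⟩ := hcon
      obtain ⟨i, -⟩ := hsold y hy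
      exact ⟨i⟩
    choose! win hwin using hsold
    obtain ⟨y, hyB, hmin⟩ := exists_min_image B (fun y => κ (win y) (g y)) hBne
    have hyS : y ∉ S := by simpa [B] using hyB
    have hAy := hwin y hyS
    set i := win y with hi
    -- all cells of the line not won by `i` are in `S`
    have hline : ∀ z : Y i, z ∉ WY i y → Function.update y i z ∈ S := by
      intro z hz
      by_contra hzS
      have hz' := hwin _ hzS
      set j := win (Function.update y i z) with hj
      have hji : j ≠ i := by
        intro h
        apply hz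
        simp only [WY, mem_filter, mem_univ, true_and]
        rw [hz', h]
      have h1 : κ j (g (Function.update y i z)) < κ i (g (Function.update y i z)) :=
        hA _ j hz' i hji.symm
      have h2 : κ i (g (Function.update y i z)) = κ i (g y) := by rw [hg, hκ]
      have h3 := hmin (Function.update y i z) (by simp [B, hzS])
      rw [h2] at h1
      exact absurd h1 (not_lt.2 h3)
    have hXline : ∀ z ∈ X i (WY i y), Function.update y i z ∈ S := by
      intro z hz
      apply hKS
      simp only [K, mem_filter, mem_univ, true_and]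
      intro j hp
      obtain ⟨hp1, hp2⟩ := hp
      have hzW := hXs _ _ hz
      simp only [WY, mem_filter, mem_univ, true_and] at hzW
      rw [hzW] at hp1
      have hij : i = j := by simpa using hp1
      subst hij
      apply hp2
      rw [hWYup, Function.update_self]
      exact hz
    apply hyS
    refine hrule y i ((univ \ WY i y) ∪ X i (WY i y)) ?_ ?_
    · rw [card_union_of_disjoint]
      · rw [hXc, card_sdiff_of_subset (subset_univ _), card_univ]
        have := card_le_univ (WY i y)
        omega
      · rw [disjoint_left]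
        intro z hz hz'
        rw [mem_sdiff] at hz
        exact hz.2 (hXs _ _ hz')
    · intro z hz
      rw [mem_union, mem_sdiff] at hz
      rcases hz with hz | hz
      · exact hline z hz.2
      · exact hXline z hz
  -- cardinalities
  have hKc : (K.card : ℝ) = ∏ i, (Fintype.card (Y i) : ℝ)
      - ∑ y : (∀ i, Y i), ∑ i, (if paid i y then (1 : ℝ) else 0) := by
    have h1 : ∀ y : (∀ i, Y i), (if y ∈ K then (1 : ℝ) else 0)
        = 1 - ∑ i, (if paid i y then (1 : ℝ) else 0) := by
      intro y
      by_cases h : ∃ i, paid i y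
      · obtain ⟨i, hi⟩ := h
        rw [if_neg, sum_eq_single i, if_pos hi]
        · ring
        · intro j _ hj
          rw [if_neg]
          intro hp
          have h1 := hi.1
          rw [hp.1] at h1
          exact hj (by simpa using h1)
        · simp
        · simp only [K, mem_filter, mem_univ, true_and, not_forall, not_not]
          exact ⟨i, hi⟩
      · push Not at h
        rw [if_pos, sum_eq_zero]
        · ring
        · intro i _
          rw [if_neg (h i)]
        · simp only [K, mem_filter, mem_univ, true_and]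
          exact h
    have h2 : (K.card : ℝ) = ∑ y : (∀ i, Y i), (if y ∈ K then (1 : ℝ) else 0) := by
      rw [← sum_filter]
      simp
    rw [h2, sum_congr rfl (fun y _ => h1 y), sum_sub_distrib]
    congr 1
    simp [Fintype.card_pi]
  -- line sums
  have hpay : ∀ i, ∑ y : (∀ i, Y i), (if paid i y then (1 : ℝ) else 0)
      = ∑ y : (∀ i, Y i), cellPay A U (fun i x => (N i x : ℝ)) i (g y) := by
    intro i
    have key : ∀ y : (∀ i, Y i), ∑ z : Y i, (if paid i (Function.update y i z) then (1 : ℝ) else 0)
        = ∑ z : Y i, cellPay A U (fun i x => (N i x : ℝ)) i (g (Function.update y i z)) := by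
      intro y
      have hL : ∑ z : Y i, (if paid i (Function.update y i z) then (1 : ℝ) else 0)
          = (((WY i y) \ X i (WY i y)).card : ℝ) := by
        rw [← sum_filter]
        simp only [sum_const, nsmul_eq_mul, mul_one]
        congr 2
        ext z
        simp only [paid, mem_filter, mem_univ, true_and, mem_sdiff, WY, Function.update_idem,
          Function.update_self]
      have hwin : ∀ z : Y i, winSet A i (g (Function.update y i z)) = winSet A i (g y) := by
        intro z
        simp only [winSet, hg, Function.update_idem]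
      have hR : ∑ z : Y i, cellPay A U (fun i x => (N i x : ℝ)) i (g (Function.update y i z))
          = ((WY i y).card : ℝ) * (min ((WY i y).card : ℝ) (a i : ℝ) / ((WY i y).card : ℝ)) := by
        have : ∀ z : Y i, cellPay A U (fun i x => (N i x : ℝ)) i (g (Function.update y i z))
            = if z ∈ WY i y then (min ((WY i y).card : ℝ) (a i : ℝ) / ((WY i y).card : ℝ)) else 0 := by
          intro z
          unfold cellPay
          rw [hwin z]
          have hc : ((WY i y).card : ℝ) = ∑ x ∈ winSet A i (g y), (N i x : ℝ) := by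
            rw [hWYcard]; push_cast; rfl
          have ha : (a i : ℝ) = ∑ x ∈ U i, (N i x : ℝ) := by
            simp only [a]; push_cast; rfl
          rw [hc, ha]
          simp only [WY, mem_filter, mem_univ, true_and]
        rw [sum_congr rfl (fun z _ => this z), ← sum_filter]
        simp
      rw [hL, hR, card_sdiff_of_subset (hXs _ _), hXc]
      rcases Nat.eq_zero_or_pos (WY i y).card with h0 | h0
      · rw [h0]; simp
      · have hpos : ((WY i y).card : ℝ) ≠ 0 := by positivity
        rw [mul_div_cancel₀ _ hpos]
        rcases le_total (WY i y).card (a i) with hle | hle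
        · rw [min_eq_left (by exact_mod_cast hle)]
          congr 1; omega
        · rw [min_eq_right (by exact_mod_cast hle)]
          congr 1; omega
    rcases isEmpty_or_nonempty (Y i) with he | hne
    · have : IsEmpty (∀ i, Y i) := ⟨fun y => he.false (y i)⟩
      simp
    · have h1 := swap_sum (Y := Y) (fun _ _ => (1 : ℝ)) i (fun y => if paid i y then (1 : ℝ) else 0)
      have h2 := swap_sum (Y := Y) (fun _ _ => (1 : ℝ)) i
        (fun y => cellPay A U (fun i x => (N i x : ℝ)) i (g y))
      simp only [prod_const_one, one_mul] at h1 h2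
      have hpos : (∑ z : Y i, (1 : ℝ)) ≠ 0 := by
        simp
      have h3 : (∑ z : Y i, (1 : ℝ)) * ∑ y : (∀ i, Y i), (if paid i y then (1 : ℝ) else 0)
          = (∑ z : Y i, (1 : ℝ)) * ∑ y : (∀ i, Y i), cellPay A U (fun i x => (N i x : ℝ)) i (g y) := by
        rw [← h1, ← h2]
        exact sum_congr rfl fun y _ => key y
      exact mul_left_cancel₀ hpos h3
  -- transfer from `Y` to `V`
  have htr : ∀ F : (Fin n → V) → ℝ, ∑ y : (∀ i, Y i), F (g y) = ∑ v, (∏ j, (N j (v j) : ℝ)) * F v := by
    intro F
    rw [← sum_fiberwise_of_maps_to (s := (univ : Finset (∀ i, Y i))) (t := univ) (g := g)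
      (fun _ _ => mem_univ _)]
    refine sum_congr rfl fun v _ => ?_
    have h1 : ∑ y ∈ univ.filter (fun y => g y = v), F (g y)
        = ((univ.filter (fun y => g y = v)).card : ℝ) * F v := by
      rw [sum_congr rfl (fun y hy => by rw [(mem_filter.1 hy).2])]
      simp
    rw [h1]
    congr 1
    have h2 : univ.filter (fun y => g y = v)
        = Fintype.piFinset (fun i => univ.filter (fun z : Y i => z.1 = v i)) := by
      ext y
      simp only [mem_filter, mem_univ, true_and, Fintype.mem_piFinset, g]
      constructor
      · intro h i; exact congrFun h i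
      · intro h; funext i; exact h i
    rw [h2, Fintype.card_piFinset]
    push_cast
    refine prod_congr rfl fun i _ => ?_
    have h3 : (univ.filter (fun z : Y i => z.1 = v i)).card = N i (v i) := by
      have : univ.filter (fun z : Y i => z.1 = v i)
          = (({v i} : Finset V)).sigma (fun x => (univ : Finset (Fin (N i x)))) := by
        ext z
        rcases z with ⟨x, c⟩
        simp only [mem_filter, mem_univ, true_and]
        constructor
        · intro h
          exact Finset.mem_sigma.2 ⟨mem_singleton.2 h, mem_univ _⟩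
        · intro h
          exact mem_singleton.1 (Finset.mem_sigma.1 h).1
      rw [this, card_sigma]
      simp
    rw [h3]
  rw [← htr (fun v => ∑ i, cellPay A U (fun i x => (N i x : ℝ)) i v), sum_comm]
  have h4 : ∑ i, ∑ y : (∀ i, Y i), cellPay A U (fun i x => (N i x : ℝ)) i (g y)
      = ∑ y : (∀ i, Y i), ∑ i, (if paid i y then (1 : ℝ) else 0) := by
    rw [sum_comm (s := (univ : Finset (∀ i, Y i)))]
    exact sum_congr rfl fun i _ => (hpay i).symm
  rw [h4]
  have h5 : ∏ i, (Fintype.card (Y i) : ℝ) = ∏ i, (∑ x, (N i x : ℝ)) := by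
    refine prod_congr rfl fun i _ => ?_
    rw [hcardY]; push_cast; rfl
  have h6 : (∏ i, (∑ x, (N i x : ℝ) - ∑ x ∈ U i, (N i x : ℝ))) ≤ (K.card : ℝ) := by
    have : ((∏ i, (Fintype.card (Y i) - a i) : ℕ) : ℝ) ≤ (K.card : ℝ) := by exact_mod_cast hperc
    refine le_trans (le_of_eq ?_) this
    push_cast
    refine prod_congr rfl fun i _ => ?_
    rw [Nat.cast_sub (haY i), hcardY]
    simp only [a]
    push_cast
    rfl
  rw [hKc, h5] at h6
  linarith

end Count

end R581.Moral
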