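import Pool.Agent.R581.MoralOne

/-!
# Layer-cake form of the revenue bound
-/

namespace R581.Moral

open Finset MeasureTheory intervalIntegral

theorem integral_ind (a b ψ : ℝ) (hab : a ≤ b) (hψ : ψ ≤ b) :
    ∫ c in a..b, (if c ≤ ψ then (1 : ℝ) else 0) = max (ψ - a) 0 := by
  rcases le_or_gt ψ a with h | h
  · rw [max_eq_right (by linarith)]
    rw [integral_congr_Ioo_of_le (g := fun _ => (0 : ℝ)) hab]
    · simp
    · intro c hc
      simp only
      rw [if_neg (by have := hc.1; linarith)]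
  · rw [max_eq_left (by linarith)]
    have hanti : Antitone (fun c : ℝ => if c ≤ ψ then (1 : ℝ) else 0) := by
      intro x y hxy
      simp only
      split_ifs with h1 h2
      · exact le_rfl
      · linarith
      · exact zero_le_one
      · exact le_rfl
    rw [← integral_add_adjacent_intervals (b := ψ) (hanti.intervalIntegrable) (hanti.intervalIntegrable)]
    rw [integral_congr_Ioo_of_le (g := fun _ => (1 : ℝ)) h.le,
      integral_congr_Ioo_of_le (a := ψ) (g := fun _ => (0 : ℝ)) hψ]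
    · simp
    · intro c hc
      simp only
      rw [if_neg (by have := hc.1; linarith)]
    · intro c hc
      simp only
      rw [if_pos hc.2.le]

variable {m : ℕ} {q : Fin (m + 1) → ℝ} (hq : ∀ k, 0 < q k)

include hq

theorem al_anti : Antitone (al q) := by
  intro a b hab
  refine sum_le_sum_of_subset_of_nonneg ?_ (fun x _ _ => (hq x).le)
  intro x hx
  rw [mem_filter] at hx ⊢
  exact ⟨hx.1, hab.trans hx.2⟩

theorem al_nonneg (c : ℝ) : 0 ≤ al q c := sum_nonneg fun x _ => (hq x).le

theorem integral_al (hm : 0 < m) (c₀ : ℝ) (h1 : c₀ ≤ 1) :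
    ∫ c in c₀..1, al q c = Rs q c₀ := by
  rw [Rs_eq hq hm c₀ h1]
  have e : ∀ c, al q c = ∑ x, q x * (if c ≤ psi q x then 1 else 0) := by
    intro c
    unfold al
    rw [sum_filter]
    refine sum_congr rfl fun x _ => ?_
    split_ifs <;> simp
  rw [integral_congr (g := fun c => ∑ x, q x * (if c ≤ psi q x then (1 : ℝ) else 0))
    (fun c _ => e c)]
  rw [intervalIntegral.integral_finsetSum]
  · refine sum_congr rfl fun x _ => ?_
    rw [intervalIntegral.integral_const_mul, integral_ind _ _ _ h1 (psi_le_one hq hm x)]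
  · intro x _
    refine IntervalIntegrable.const_mul ?_ _
    have hanti : Antitone (fun c : ℝ => if c ≤ psi q x then (1 : ℝ) else 0) := by
      intro x y hxy
      simp only
      split_ifs with h1 h2
      · exact le_rfl
      · linarith
      · exact zero_le_one
      · exact le_rfl
    exact hanti.intervalIntegrable

theorem min_al_anti (μ : ℝ) : Antitone (fun c => min μ (al q c)) := by
  intro a b hab
  exact min_le_min le_rfl (al_anti hq hab)

/-- **Upper bound.** -/
theorem price_le (hm : 0 < m) (W : Finset (Fin (m + 1))) (P : ℝ)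
    (hP : ∀ x ∈ W, P ≤ ((x : ℕ) : ℝ) / m) :
    P * ∑ x ∈ W, q x ≤ ∫ c in (0 : ℝ)..1, min (∑ x ∈ W, q x) (al q c) := by
  classical
  set μ := ∑ x ∈ W, q x with hμ
  have hμ0 : 0 ≤ μ := sum_nonneg fun x _ => (hq x).le
  have hint : ∀ a b : ℝ, IntervalIntegrable (fun c => min μ (al q c)) volume a b :=
    fun a b => (min_al_anti hq μ).intervalIntegrable
  have hint' : ∀ a b : ℝ, IntervalIntegrable (al q) volume a b :=
    fun a b => (al_anti hq).intervalIntegrable
  rcases W.eq_empty_or_nonempty with hW | hW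
  · rw [hμ, hW]
    simp only [sum_empty, mul_zero]
    apply intervalIntegral.integral_nonneg zero_le_one
    intro c _
    exact le_min le_rfl (al_nonneg hq c)
  obtain ⟨τ, hτW, hτ⟩ := W.exists_min_image id hW
  have hPτ := hP τ hτW
  have hμQ : μ ≤ Qt q (τ : ℕ) := by
    rw [hμ]
    unfold Qt
    rw [← sum_filter]
    refine sum_le_sum_of_subset_of_nonneg ?_ (fun x _ _ => (hq x).le)
    intro x hx
    rw [mem_filter]
    exact ⟨mem_univ _, hτ x hx⟩
  -- the critical level
  obtain ⟨c₀, h0, h1, hlo, hhi⟩ : ∃ c₀ : ℝ, 0 ≤ c₀ ∧ c₀ ≤ 1 ∧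
      (∀ c, 0 < c → c < c₀ → μ ≤ al q c) ∧ (∀ c, c₀ < c → c < 1 → al q c ≤ μ) := by
    let S : Set ℝ := {c | 0 ≤ c ∧ c ≤ 1 ∧ μ ≤ al q c}
    by_cases hS : S.Nonempty
    · have hbdd : BddAbove S := ⟨1, fun c hc => hc.2.1⟩
      refine ⟨sSup S, ?_, ?_, ?_, ?_⟩
      · obtain ⟨c, hc⟩ := hS
        exact le_trans hc.1 (le_csSup hbdd hc)
      · exact csSup_le hS fun c hc => hc.2.1
      · intro c _ hc
        obtain ⟨c', hc', hlt⟩ := exists_lt_of_lt_csSup hS hc
        exact le_trans hc'.2.2 (al_anti hq hlt.le)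
      · intro c hc hc1
        by_contra hcon
        push Not at hcon
        have : c ∈ S := ⟨by
          obtain ⟨c', hc'⟩ := hS
          have := le_csSup hbdd hc'
          linarith [hc'.1], hc1.le, hcon.le⟩
        have := le_csSup hbdd this
        linarith
    · refine ⟨0, le_rfl, zero_le_one, fun c h1 h2 => by linarith, fun c h1 h2 => ?_⟩
      by_contra hcon
      push Not at hcon
      exact hS ⟨c, h1.le, h2.le, hcon.le⟩
  rw [← integral_add_adjacent_intervals (hint 0 c₀) (hint c₀ 1)]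
  have e1 : c₀ * μ ≤ ∫ c in (0 : ℝ)..c₀, min μ (al q c) := by
    have : ∫ c in (0 : ℝ)..c₀, μ = c₀ * μ := by simp
    rw [← this]
    refine integral_mono_on_of_le_Ioo h0 (by simp) (hint 0 c₀) ?_
    intro c hc
    exact le_min le_rfl (hlo c hc.1 hc.2)
  have e2 : Rs q c₀ ≤ ∫ c in c₀..(1 : ℝ), min μ (al q c) := by
    rw [← integral_al hq hm c₀ h1]
    refine integral_mono_on_of_le_Ioo h1 (hint' c₀ 1) (hint c₀ 1) ?_
    intro c hc
    exact le_min (hhi c hc.1 hc.2) le_rfl
  have e3 : (((τ : ℕ) : ℝ) / m - c₀) * Qt q (τ : ℕ) ≤ Rs q c₀ := by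
    exact le_sup' (hc q c₀) (mem_range.2 (by have := τ.2; omega))
  have e4 : 0 ≤ Rs q c₀ := by
    have h4 : hc q c₀ (m + 1) ≤ Rs q c₀ := le_sup' (hc q c₀) (mem_range.2 (by omega))
    have h5 : hc q c₀ (m + 1) = 0 := by
      unfold hc; rw [Qt_top le_rfl]; ring
    linarith
  rcases le_total c₀ (((τ : ℕ) : ℝ) / m) with h | h
  · have : (((τ : ℕ) : ℝ) / m - c₀) * μ ≤ (((τ : ℕ) : ℝ) / m - c₀) * Qt q (τ : ℕ) :=
      mul_le_mul_of_nonneg_left hμQ (by linarith)
    nlinarith
  · nlinarith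

end R581.Moral
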