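import Mathlib

/-!
# One-buyer revenue curves (ironed virtual values)
-/

namespace R581.Moral

open Finset

/-- functions with the same one-sided slopes differ by a constant -/
theorem sandwich (f g φ : ℝ → ℝ)
    (hf : ∀ a b, a ≤ b → (b - a) * φ b ≤ f a - f b ∧ f a - f b ≤ (b - a) * φ a)
    (hg : ∀ a b, a ≤ b → (b - a) * φ b ≤ g a - g b ∧ g a - g b ≤ (b - a) * φ a)
    (a b : ℝ) (hab : a ≤ b) : f a - f b = g a - g b := by
  have step : ∀ x y, x ≤ y → |(f x - f y) - (g x - g y)| ≤ (y - x) * (φ x - φ y) := by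
    intro x y hxy
    obtain ⟨h1, h2⟩ := hf x y hxy
    obtain ⟨h3, h4⟩ := hg x y hxy
    rw [abs_le]
    constructor <;> nlinarith
  have key : ∀ N : ℕ, 0 < N → |(f a - f b) - (g a - g b)| ≤ (b - a) / N * (φ a - φ b) := by
    intro N hN
    have hN' : (0 : ℝ) < N := by exact_mod_cast hN
    have hd : 0 ≤ (b - a) / N := div_nonneg (by linarith) hN'.le
    have ind : ∀ k : ℕ, |(f a - f (a + k * ((b - a) / N))) - (g a - g (a + k * ((b - a) / N)))|
        ≤ (b - a) / N * (φ a - φ (a + k * ((b - a) / N))) := by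
      intro k
      induction k with
      | zero => simp
      | succ k ih =>
        have h := step (a + k * ((b - a) / N)) (a + (k + 1 : ℕ) * ((b - a) / N))
          (by push_cast; nlinarith)
        have he : a + ((k + 1 : ℕ) : ℝ) * ((b - a) / N) - (a + k * ((b - a) / N)) = (b - a) / N := by
          push_cast; ring
        rw [he] at h
        have htri := abs_add_le ((f a - f (a + k * ((b - a) / N))) - (g a - g (a + k * ((b - a) / N))))
          ((f (a + k * ((b - a) / N)) - f (a + (k + 1 : ℕ) * ((b - a) / N))) -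
            (g (a + k * ((b - a) / N)) - g (a + (k + 1 : ℕ) * ((b - a) / N))))
        have heq : ((f a - f (a + k * ((b - a) / N))) - (g a - g (a + k * ((b - a) / N)))) +
          ((f (a + k * ((b - a) / N)) - f (a + (k + 1 : ℕ) * ((b - a) / N))) -
            (g (a + k * ((b - a) / N)) - g (a + (k + 1 : ℕ) * ((b - a) / N)))) =
            (f a - f (a + (k + 1 : ℕ) * ((b - a) / N))) - (g a - g (a + (k + 1 : ℕ) * ((b - a) / N))) := by
          ring
        rw [heq] at htri
        nlinarith
    have h := ind N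
    have he : a + (N : ℝ) * ((b - a) / N) = b := by
      field_simp; ring
    rwa [he] at h
  have h0 : |(f a - f b) - (g a - g b)| ≤ 0 := by
    by_contra hcon
    push Not at hcon
    set D := |(f a - f b) - (g a - g b)| with hD
    obtain ⟨N, hN⟩ := exists_nat_gt ((b - a) * (φ a - φ b) / D)
    have hN1 : 0 < N := by
      rcases Nat.eq_zero_or_pos N with h | h
      · exfalso
        rw [h] at hN
        have h1 := key 1 one_pos
        have : 0 ≤ (b - a) * (φ a - φ b) := by
          have : (b - a) / ((1 : ℕ) : ℝ) * (φ a - φ b) = (b - a) * (φ a - φ b) := by simp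
          linarith
        have h2 : 0 ≤ (b - a) * (φ a - φ b) / D := div_nonneg this hcon.le
        simp at hN
        linarith
      · exact h
    have hN2 : (0 : ℝ) < N := by exact_mod_cast hN1
    have h1 := key N hN1
    rw [div_lt_iff₀ hcon] at hN
    have h2 : (b - a) / N * (φ a - φ b) = (b - a) * (φ a - φ b) / N := by ring
    rw [h2, le_div_iff₀ hN2] at h1
    nlinarith
  have := abs_nonneg ((f a - f b) - (g a - g b))
  have h1 : |(f a - f b) - (g a - g b)| = 0 := le_antisymm h0 this
  rw [abs_eq_zero] at h1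
  linarith

variable {m : ℕ} (q : Fin (m + 1) → ℝ)

/-- probability that the value is at least `t/m` -/
noncomputable def Qt (t : ℕ) : ℝ := ∑ k : Fin (m + 1), if t ≤ (k : ℕ) then q k else 0

/-- profit of the posted price `t/m` at production cost `c` -/
noncomputable def hc (c : ℝ) (t : ℕ) : ℝ := ((t : ℝ) / m - c) * Qt q t

/-- optimal posted-price profit at cost `c` -/
noncomputable def Rs (c : ℝ) : ℝ :=
  (range (m + 2)).sup' (nonempty_range_iff.2 (Nat.succ_ne_zero _)) (hc q c)

/-- ironed virtual value -/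
noncomputable def psi (x : Fin (m + 1)) : ℝ :=
  (range ((x : ℕ) + 1)).sup' (nonempty_range_iff.2 (Nat.succ_ne_zero _)) fun t =>
    (Icc ((x : ℕ) + 1) (m + 1)).inf' (nonempty_Icc.2 (Nat.succ_le_of_lt x.2)) fun t' =>
      ((t : ℝ) / m * Qt q t - (t' : ℝ) / m * Qt q t') / (Qt q t - Qt q t')

variable {q} (hq : ∀ k, 0 < q k)

include hq

theorem Qt_anti {t t' : ℕ} (h : t ≤ t') : Qt q t' ≤ Qt q t := by
  refine sum_le_sum fun k _ => ?_
  split_ifs with h1 h2
  · exact le_rfl
  · omega
  · exact (hq k).le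
  · exact le_rfl

omit hq in
theorem Qt_top {t : ℕ} (h : m + 1 ≤ t) : Qt q t = 0 := by
  refine sum_eq_zero fun k _ => ?_
  rw [if_neg]
  have := k.2
  omega

theorem Qt_strict {t t' : ℕ} (h : t < t') (ht : t ≤ m) : Qt q t' < Qt q t := by
  refine sum_lt_sum (fun k _ => ?_) ⟨⟨t, by omega⟩, mem_univ _, ?_⟩
  · split_ifs with h1 h2
    · exact le_rfl
    · omega
    · exact (hq k).le
    · exact le_rfl
  · simp only [le_refl, if_true]
    rw [if_neg (by simpa using h)]
    exact hq _

theorem Qt_nonneg (t : ℕ) : 0 ≤ Qt q t := by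
  refine sum_nonneg fun k _ => ?_
  split_ifs
  · exact (hq k).le
  · exact le_rfl

theorem le_psi_iff (c : ℝ) (x : Fin (m + 1)) :
    c ≤ psi q x ↔ ∃ t ≤ (x : ℕ), ∀ t', (x : ℕ) < t' → t' ≤ m + 1 → hc q c t' ≤ hc q c t := by
  unfold psi
  rw [le_sup'_iff]
  constructor
  · rintro ⟨t, ht, h⟩
    rw [mem_range] at ht
    refine ⟨t, by omega, fun t' h1 h2 => ?_⟩
    rw [le_inf'_iff] at h
    have h3 := h t' (mem_Icc.2 ⟨h1, h2⟩)
    have hpos : 0 < Qt q t - Qt q t' := by
      have := Qt_strict hq (t := t) (t' := t') (by omega) (by have := x.2; omega)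
      linarith
    rw [le_div_iff₀ hpos] at h3
    unfold hc
    nlinarith
  · rintro ⟨t, ht, h⟩
    refine ⟨t, mem_range.2 (by omega), ?_⟩
    rw [le_inf'_iff]
    intro t' h1
    rw [mem_Icc] at h1
    have h3 := h t' (by omega) h1.2
    have hpos : 0 < Qt q t - Qt q t' := by
      have := Qt_strict hq (t := t) (t' := t') (by omega) (by have := x.2; omega)
      linarith
    rw [le_div_iff₀ hpos]
    unfold hc at h3
    nlinarith

theorem s_spec (c : ℝ) : ∃ t ≤ m + 1, hc q c t = Rs q c ∧ ∀ x : Fin (m + 1),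
    (c ≤ psi q x ↔ t ≤ (x : ℕ)) := by
  classical
  have hex : ∃ t, t ≤ m + 1 ∧ hc q c t = Rs q c := by
    obtain ⟨t, ht, h⟩ := exists_mem_eq_sup' (s := range (m + 2)) (nonempty_range_iff.2 (Nat.succ_ne_zero _)) (hc q c)
    exact ⟨t, by rw [mem_range] at ht; omega, h.symm⟩
  refine ⟨Nat.find hex, (Nat.find_spec hex).1, (Nat.find_spec hex).2, fun x => ?_⟩
  have hle : ∀ t, t ≤ m + 1 → hc q c t ≤ Rs q c := fun t ht =>
    le_sup' (hc q c) (mem_range.2 (by omega))
  rw [le_psi_iff hq]
  constructor
  · rintro ⟨t, ht, h⟩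
    by_contra hcon
    push Not at hcon
    have h1 := h _ hcon (Nat.find_spec hex).1
    rw [(Nat.find_spec hex).2] at h1
    have h2 : hc q c t = Rs q c := le_antisymm (hle t (by have := x.2; omega)) h1
    have h3 := Nat.find_min' hex ⟨by have := x.2; omega, h2⟩
    omega
  · intro h
    refine ⟨_, h, fun t' _ h2 => ?_⟩
    rw [(Nat.find_spec hex).2]
    exact hle t' h2

omit hq in
/-- `Pr(ψ ≥ c)` -/
noncomputable def al (q : Fin (m + 1) → ℝ) (c : ℝ) : ℝ :=
  ∑ x ∈ univ.filter (fun x => c ≤ psi q x), q x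

theorem al_eq {c : ℝ} {t : ℕ} (h : ∀ x : Fin (m + 1), (c ≤ psi q x ↔ t ≤ (x : ℕ))) :
    al q c = Qt q t := by
  unfold al Qt
  rw [sum_filter]
  refine sum_congr rfl fun x _ => ?_
  simp only [h x]

theorem Rs_sandwich (a b : ℝ) (hab : a ≤ b) :
    (b - a) * al q b ≤ Rs q a - Rs q b ∧ Rs q a - Rs q b ≤ (b - a) * al q a := by
  obtain ⟨ta, hta, ha1, ha2⟩ := s_spec hq a
  obtain ⟨tb, htb, hb1, hb2⟩ := s_spec hq b
  have hle : ∀ c t, t ≤ m + 1 → hc q c t ≤ Rs q c := fun c t ht =>
    le_sup' (hc q c) (mem_range.2 (by omega))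
  rw [al_eq hq ha2, al_eq hq hb2]
  have h1 := hle a tb htb
  have h2 := hle b ta hta
  unfold hc at *
  constructor <;> nlinarith

theorem psi_le_one (hm : 0 < m) (x : Fin (m + 1)) : psi q x ≤ 1 := by
  by_contra hcon
  push Not at hcon
  obtain ⟨t, ht, h1, h2⟩ := s_spec hq (psi q x)
  have h3 := (h2 x).1 le_rfl
  have h4 : hc q (psi q x) (m + 1) ≤ Rs q (psi q x) := le_sup' (hc q (psi q x)) (mem_range.2 (by omega))
  have h5 : hc q (psi q x) (m + 1) = 0 := by
    unfold hc; rw [Qt_top le_rfl]; ring
  rw [← h1, h5] at h4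
  have htm : t ≤ m := by have := x.2; omega
  have hpos : 0 < Qt q t := by
    have := Qt_strict hq (t := t) (t' := m + 1) (by omega) htm
    rwa [Qt_top le_rfl] at this
  have hv : (t : ℝ) / m ≤ 1 := by
    rw [div_le_one (by exact_mod_cast hm)]
    exact_mod_cast htm
  unfold hc at h4
  have : ((t : ℝ) / m - psi q x) * Qt q t < 0 := mul_neg_of_neg_of_pos (by linarith) hpos
  linarith

theorem Rs_one (hm : 0 < m) : Rs q 1 = 0 := by
  apply le_antisymm
  · unfold Rs
    apply sup'_le
    intro t ht
    rw [mem_range] at ht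
    unfold hc
    rcases Nat.lt_or_ge t (m + 1) with h | h
    · have hv : (t : ℝ) / m ≤ 1 := by
        rw [div_le_one (by exact_mod_cast hm)]
        exact_mod_cast (by omega : t ≤ m)
      exact mul_nonpos_of_nonpos_of_nonneg (by linarith) (Qt_nonneg hq t)
    · rw [Qt_top h]; simp
  · have h4 : hc q 1 (m + 1) ≤ Rs q 1 := le_sup' (hc q 1) (mem_range.2 (by omega))
    have h5 : hc q 1 (m + 1) = 0 := by
      unfold hc; rw [Qt_top le_rfl]; ring
    linarith

/-- the optimal profit is the expected excess of the virtual value -/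
theorem Rs_eq (hm : 0 < m) (c : ℝ) (hc1 : c ≤ 1) :
    Rs q c = ∑ x, q x * max (psi q x - c) 0 := by
  have h := sandwich (Rs q) (fun c => ∑ x, q x * max (psi q x - c) 0) (al q)
    (fun a b hab => Rs_sandwich hq a b hab) ?_ c 1 hc1
  · rw [Rs_one hq hm] at h
    have h1 : ∑ x, q x * max (psi q x - 1) 0 = 0 := by
      refine sum_eq_zero fun x _ => ?_
      rw [max_eq_right (by have := psi_le_one hq hm x; linarith), mul_zero]
    simp only [h1] at h
    linarith
  · intro a b hab
    have e : ∀ c, al q c = ∑ x, q x * (if c ≤ psi q x then 1 else 0) := by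
      intro c
      unfold al
      rw [sum_filter]
      refine sum_congr rfl fun x _ => ?_
      split_ifs <;> simp
    rw [← sum_sub_distrib, e, e, mul_sum, mul_sum]
    constructor
    · refine sum_le_sum fun x _ => ?_
      have hx := (hq x).le
      rw [← mul_sub]
      have : (b - a) * (if b ≤ psi q x then (1 : ℝ) else 0) ≤
          max (psi q x - a) 0 - max (psi q x - b) 0 := by
        split_ifs with h1
        · rw [max_eq_left (by linarith), max_eq_left (by linarith)]; linarith
        · rw [max_eq_right (a := psi q x - b) (by linarith)]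
          have := le_max_right (psi q x - a) 0
          linarith
      nlinarith
    · refine sum_le_sum fun x _ => ?_
      have hx := (hq x).le
      rw [← mul_sub]
      have : max (psi q x - a) 0 - max (psi q x - b) 0 ≤
          (b - a) * (if a ≤ psi q x then (1 : ℝ) else 0) := by
        split_ifs with h1
        · rw [max_eq_left (a := psi q x - a) (by linarith)]
          have := le_max_left (psi q x - b) 0
          linarith
        · rw [max_eq_right (a := psi q x - a) (by linarith)]
          have := le_max_right (psi q x - b) 0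
          linarith
      nlinarith

theorem psi_mono {x y : Fin (m + 1)} (h : x ≤ y) : psi q x ≤ psi q y := by
  obtain ⟨t, _, _, h2⟩ := s_spec hq (psi q x)
  rw [h2 y]
  have := (h2 x).1 le_rfl
  exact le_trans this h

/-- **Lower bound.** Selling at a vertex `τ` of the ironed revenue curve collects at least the
expected virtual value. -/
theorem vertex (hm : 0 < m) (τ : Fin (m + 1)) (h0 : 0 ≤ psi q τ)
    (hlt : ∀ x, x < τ → psi q x < psi q τ) :
    ∑ x, (if τ ≤ x then q x * psi q x else 0) ≤ ((τ : ℕ) : ℝ) / m * ∑ x, (if τ ≤ x then q x else 0) := by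
  obtain ⟨t, ht, h1, h2⟩ := s_spec hq (psi q τ)
  have ht1 := (h2 τ).1 le_rfl
  have htt : t = (τ : ℕ) := by
    by_contra hne
    have hlt' : t < (τ : ℕ) := by omega
    have h3 := (h2 ⟨t, by have := τ.2; omega⟩).2 le_rfl
    have h4 := hlt ⟨t, by have := τ.2; omega⟩ (by exact hlt')
    linarith
  subst htt
  have hQ : Qt q (τ : ℕ) = ∑ x, (if τ ≤ x then q x else 0) := by
    unfold Qt
    refine sum_congr rfl fun x _ => ?_
    simp only [Fin.le_def]
  rw [← hQ]
  have h3 := Rs_eq hq hm (psi q τ) (psi_le_one hq hm τ)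
  rw [← h1] at h3
  unfold hc at h3
  have h4 : ∑ x, (if τ ≤ x then q x * psi q x else 0)
      ≤ psi q τ * Qt q (τ : ℕ) + ∑ x, q x * max (psi q x - psi q τ) 0 := by
    rw [hQ, mul_sum, ← sum_add_distrib]
    refine sum_le_sum fun x _ => ?_
    have hx := (hq x).le
    split_ifs with h5
    · have := le_max_left (psi q x - psi q τ) 0
      nlinarith
    · have := le_max_right (psi q x - psi q τ) 0
      nlinarith [mul_nonneg hx this]
  linarith

end R581.Moral
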