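import Mathlib

/-!
# Line percolation on product sets (polynomial method)

If a set `K` of cells of `∏ Y i` percolates under the rule: a cell becomes infected once some axis
line through it contains at least `k i` infected cells; then `∏ k i ≤ #K`.
-/

namespace R581.Moral

open Finset

variable {n : ℕ} {Y : Fin n → Type} [∀ i, Fintype (Y i)] [∀ i, DecidableEq (Y i)]

/-- the polynomial function with coefficient vector `c` -/
noncomputable def pf (k : Fin n → ℕ) (a : ∀ i, Y i → ℝ) (c : (∀ i, Fin (k i)) → ℝ)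
    (y : ∀ i, Y i) : ℝ :=
  ∑ κ, c κ * ∏ i, a i (y i) ^ (κ i : ℕ)

theorem pf_line (k : Fin n → ℕ) (a : ∀ i, Y i → ℝ) (ha : ∀ i, Function.Injective (a i))
    (c : (∀ i, Fin (k i)) → ℝ) (y : ∀ i, Y i) (i : Fin n) (Z : Finset (Y i))
    (hZ : k i ≤ Z.card) (h0 : ∀ z ∈ Z, pf k a c (Function.update y i z) = 0) :
    pf k a c y = 0 := by
  classical
  set p : Polynomial ℝ := ∑ κ : (∀ i, Fin (k i)),
    Polynomial.C (c κ * ∏ j ∈ univ.erase i, a j (y j) ^ (κ j : ℕ)) * Polynomial.X ^ (κ i : ℕ) with hp
  have heval : ∀ z : Y i, p.eval (a i z) = pf k a c (Function.update y i z) := by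
    intro z
    rw [hp, Polynomial.eval_finsetSum, pf]
    refine sum_congr rfl fun κ _ => ?_
    rw [Polynomial.eval_mul, Polynomial.eval_C, Polynomial.eval_pow, Polynomial.eval_X,
      ← mul_prod_erase univ _ (mem_univ i), Function.update_self, mul_assoc,
      mul_comm (∏ j ∈ univ.erase i, a j (y j) ^ (κ j : ℕ))]
    congr 2
    refine prod_congr rfl fun j hj => ?_
    rw [Function.update_of_ne (ne_of_mem_erase hj)]
  have hdeg : p.degree < (Z.card : ℕ) := by
    rw [← Polynomial.mem_degreeLT]
    refine Submodule.sum_mem _ fun κ _ => ?_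
    rw [Polynomial.mem_degreeLT]
    refine lt_of_le_of_lt (Polynomial.degree_C_mul_X_pow_le _ _) ?_
    exact_mod_cast lt_of_lt_of_le (κ i).2 hZ
  have hp0 : p = 0 := Polynomial.eq_zero_of_degree_lt_of_eval_index_eq_zero (s := Z) (v := a i)
    ((ha i).injOn) hdeg (fun z hz => by rw [heval]; exact h0 z hz)
  have := heval (y i)
  rw [Function.update_eq_self] at this
  rw [← this, hp0, Polynomial.eval_zero]

theorem pf_eq_zero (k : Fin n → ℕ) (hk : ∀ i, 0 < k i) (hkY : ∀ i, k i ≤ Fintype.card (Y i))
    (a : ∀ i, Y i → ℝ) (ha : ∀ i, Function.Injective (a i))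
    (c : (∀ i, Fin (k i)) → ℝ) (h0 : ∀ y, pf k a c y = 0) : c = 0 := by
  classical
  let ex : (∀ i, Fin (k i)) → (Fin n →₀ ℕ) := fun κ =>
    Finsupp.equivFunOnFinite.symm (fun i => (κ i : ℕ))
  have hex : Function.Injective ex := by
    intro κ κ' h
    have := Finsupp.equivFunOnFinite.symm.injective h
    funext i
    exact Fin.ext (congrFun this i)
  set P : MvPolynomial (Fin n) ℝ := ∑ κ, MvPolynomial.monomial (ex κ) (c κ) with hP
  have hP0 : P = 0 := by
    refine MvPolynomial.eq_zero_of_eval_zero_at_prod_finset P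
      (fun i => univ.image (a i)) ?_ ?_
    · intro i
      rw [card_image_of_injective _ (ha i), card_univ]
      refine lt_of_lt_of_le ?_ (hkY i)
      rw [MvPolynomial.degreeOf_lt_iff (hk i)]
      intro m hm
      have : m ∈ univ.biUnion (fun κ => (MvPolynomial.monomial (ex κ) (c κ)).support) :=
        MvPolynomial.support_sum hm
      rw [mem_biUnion] at this
      obtain ⟨κ, -, hκ⟩ := this
      have := MvPolynomial.support_monomial_subset hκ
      rw [mem_singleton] at this
      subst this
      exact (κ i).2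
    · intro x hx
      have : ∀ i, ∃ y : Y i, a i y = x i := fun i => by
        have := hx i
        rw [mem_image] at this
        obtain ⟨y, -, hy⟩ := this
        exact ⟨y, hy⟩
      choose y hy using this
      have h := h0 y
      rw [pf] at h
      rw [hP, map_sum]
      convert h using 2 with κ _
      rw [MvPolynomial.eval_monomial]
      congr 1
      rw [Finsupp.prod_fintype _ _ (by simp)]
      refine prod_congr rfl fun i _ => ?_
      rw [hy]; rfl
  funext κ
  have hc : MvPolynomial.coeff (ex κ) P = c κ := by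
    rw [hP, MvPolynomial.coeff_sum]
    rw [sum_eq_single κ]
    · simp
    · intro κ' _ hne
      rw [MvPolynomial.coeff_monomial, if_neg (fun h => hne (hex h))]
    · simp
  rw [← hc, hP0]; simp

/-- **Line percolation lemma.** -/
theorem percolation (k : Fin n → ℕ) (hkY : ∀ i, k i ≤ Fintype.card (Y i))
    (K : Finset (∀ i, Y i))
    (hperc : ∀ S : Set (∀ i, Y i), (∀ y ∈ K, y ∈ S) →
      (∀ (y : ∀ i, Y i) (i : Fin n) (Z : Finset (Y i)), k i ≤ Z.card →
        (∀ z ∈ Z, Function.update y i z ∈ S) → y ∈ S) → ∀ y, y ∈ S) :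
    ∏ i, k i ≤ K.card := by
  classical
  by_contra hlt
  push Not at hlt
  have hk : ∀ i, 0 < k i := by
    intro i
    by_contra h
    have h0 : k i = 0 := by omega
    rw [prod_eq_zero (mem_univ i) h0] at hlt
    omega
  let a : ∀ i, Y i → ℝ := fun i y => ((Fintype.equivFin (Y i) y : ℕ) : ℝ)
  have ha : ∀ i, Function.Injective (a i) := by
    intro i y y' h
    have h1 : ((Fintype.equivFin (Y i) y : ℕ) : ℝ) = ((Fintype.equivFin (Y i) y' : ℕ) : ℝ) := h
    have h2 : (Fintype.equivFin (Y i) y : ℕ) = (Fintype.equivFin (Y i) y' : ℕ) := by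
      exact_mod_cast h1
    exact (Fintype.equivFin (Y i)).injective (Fin.ext h2)
  let Φ : ((∀ i, Fin (k i)) → ℝ) →ₗ[ℝ] (K → ℝ) :=
    { toFun := fun c y => pf k a c y.1
      map_add' := by
        intro c d
        funext y
        simp only [pf, Pi.add_apply, add_mul, sum_add_distrib]
      map_smul' := by
        intro r c
        funext y
        simp only [pf, Pi.smul_apply, smul_eq_mul, mul_sum, RingHom.id_apply, mul_assoc] }
  have hker : LinearMap.ker Φ ≠ ⊥ := by
    apply LinearMap.ker_ne_bot_of_finrank_lt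
    rw [Module.finrank_fintype_fun_eq_card, Module.finrank_fintype_fun_eq_card]
    simpa using hlt
  obtain ⟨c, hc, hc0⟩ := (Submodule.ne_bot_iff _).1 hker
  apply hc0
  apply pf_eq_zero k hk hkY a ha c
  refine hperc {y | pf k a c y = 0} ?_ ?_
  · intro y hy
    have := congrFun (LinearMap.mem_ker.1 hc) ⟨y, hy⟩
    exact this
  · intro y i Z hZ h
    exact pf_line k a ha c y i Z hZ h

end R581.Moral
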