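import Pool.Agent.R581.MoralCount

/-!
# The weighted inequality for real weights
-/

namespace R581.Moral

open Finset Filter Topology

variable {n : ℕ} {V : Type} [Fintype V] [DecidableEq V] {L : Type} [LinearOrder L]

/-- left hand side -/
noncomputable def lhsF (A : (Fin n → V) → Option (Fin n)) (U : Fin n → Finset V)
    (q : Fin n → V → ℝ) : ℝ :=
  ∑ v, (∏ j, q j (v j)) * ∑ i, cellPay A U q i v

/-- right hand side -/
noncomputable def rhsF (U : Fin n → Finset V) (q : Fin n → V → ℝ) : ℝ :=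
  ∏ i, (∑ x, q i x) - ∏ i, (∑ x, q i x - ∑ x ∈ U i, q i x)

theorem cellPay_scale (A : (Fin n → V) → Option (Fin n)) (U : Fin n → Finset V)
    (q : Fin n → V → ℝ) (c : ℝ) (hc : 0 < c) (i : Fin n) (v : Fin n → V) :
    cellPay A U (fun i x => c * q i x) i v = cellPay A U q i v := by
  unfold cellPay
  split_ifs
  · rw [← mul_sum, ← mul_sum, ← mul_min_of_nonneg _ _ hc.le, mul_div_mul_left _ _ hc.ne']
  · rfl

theorem lhsF_scale (A : (Fin n → V) → Option (Fin n)) (U : Fin n → Finset V)
    (q : Fin n → V → ℝ) (c : ℝ) (hc : 0 < c) :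
    lhsF A U (fun i x => c * q i x) = c ^ n * lhsF A U q := by
  unfold lhsF
  rw [mul_sum]
  refine sum_congr rfl fun v _ => ?_
  rw [prod_mul_distrib, prod_const, card_univ, Fintype.card_fin, mul_assoc]
  congr 2
  exact sum_congr rfl fun i _ => cellPay_scale A U q c hc i v

theorem rhsF_scale (U : Fin n → Finset V) (q : Fin n → V → ℝ) (c : ℝ) :
    rhsF U (fun i x => c * q i x) = c ^ n * rhsF U q := by
  unfold rhsF
  simp only [← mul_sum, ← mul_sub, prod_mul_distrib, prod_const, card_univ, Fintype.card_fin]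

theorem real_ineq (A : (Fin n → V) → Option (Fin n)) (κ : Fin n → (Fin n → V) → L)
    (hκ : ∀ i v x, κ i (Function.update v i x) = κ i v)
    (hA : ∀ v i, A v = some i → ∀ j, j ≠ i → κ i v < κ j v)
    (U : Fin n → Finset V) (q : Fin n → V → ℝ) (hq : ∀ i x, 0 < q i x) :
    lhsF A U q ≤ rhsF U q := by
  classical
  let M : ℕ → Fin n → V → ℕ := fun N i x => ⌊(N : ℝ) * q i x⌋₊
  let qN : ℕ → Fin n → V → ℝ := fun N i x => (N : ℝ)⁻¹ * (M N i x : ℝ)
  have hqN : ∀ i x, Tendsto (fun N => qN N i x) atTop (𝓝 (q i x)) := by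
    intro i x
    have h := (tendsto_nat_floor_mul_div_atTop (R := ℝ) (hq i x).le).comp
      (tendsto_natCast_atTop_atTop (R := ℝ))
    refine h.congr fun N => ?_
    simp only [Function.comp, qN, M]
    rw [div_eq_inv_mul, mul_comm (q i x)]
  have hineq : ∀ N : ℕ, 0 < N → lhsF A U (qN N) ≤ rhsF U (qN N) := by
    intro N hN
    have hc : (0 : ℝ) < (N : ℝ)⁻¹ := by positivity
    have h := count_ineq A κ hκ hA U (M N)
    have h1 := lhsF_scale A U (fun i x => (M N i x : ℝ)) _ hc
    have h2 := rhsF_scale U (fun i x => (M N i x : ℝ)) ((N : ℝ)⁻¹)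
    show lhsF A U (fun i x => (N : ℝ)⁻¹ * (M N i x : ℝ)) ≤ rhsF U (fun i x => (N : ℝ)⁻¹ * (M N i x : ℝ))
    rw [h1, h2]
    exact mul_le_mul_of_nonneg_left h (by positivity)
  have hsum : ∀ (i : Fin n) (s : Finset V),
      Tendsto (fun N => ∑ x ∈ s, qN N i x) atTop (𝓝 (∑ x ∈ s, q i x)) := by
    intro i s
    exact tendsto_finset_sum _ fun x _ => hqN i x
  have hL : Tendsto (fun N => lhsF A U (qN N)) atTop (𝓝 (lhsF A U q)) := by
    unfold lhsF
    refine tendsto_finset_sum _ fun v _ => ?_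
    refine Tendsto.mul (tendsto_finset_prod _ fun j _ => hqN j _) ?_
    refine tendsto_finset_sum _ fun i _ => ?_
    unfold cellPay
    split_ifs with hv
    · refine Tendsto.div ((hsum i _).min (hsum i _)) (hsum i _) ?_
      have hmem : v i ∈ winSet A i v := by
        simp only [winSet, mem_filter, mem_univ, true_and, Function.update_eq_self]
        exact hv
      exact (sum_pos (fun x _ => hq i x) ⟨_, hmem⟩).ne'
    · exact tendsto_const_nhds
  have hR : Tendsto (fun N => rhsF U (qN N)) atTop (𝓝 (rhsF U q)) := by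
    unfold rhsF
    refine Tendsto.sub ?_ ?_
    · exact tendsto_finset_prod _ fun i _ => hsum i _
    · exact tendsto_finset_prod _ fun i _ => (hsum i _).sub (hsum i _)
  exact le_of_tendsto_of_tendsto hL hR ((eventually_gt_atTop 0).mono hineq)

end R581.Moral
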