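import Pool.Agent.TH49.Spl.Defs

set_option autoImplicit false

/-! Splaying on hierarchically alternating request sequences: exact costs, and a comparison with
static trees and with rotation-based executions. -/

namespace Pool.Agent.R581.SplayLB

open Pool.Agent.H581R2.Splay Pool.Agent.TH49.Spl

open Tr

/-- A full binary tree `c` whose leaves carry the requested keys; the inner nodes carry keys which
are never requested and a switch: `true` means that the next request is taken from the right part,
`false` that it is taken from the left part. -/
inductive Code : Type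
  | leaf (a : ℕ) : Code
  | br (b : ℕ) (L R : Code) (s : Bool) : Code

open Code

/-- The keys in symmetric order. -/
def inord : Code → List ℕ
  | leaf a => [a]
  | br b L R _ => inord L ++ b :: inord R

/-- The next request: follow the switches. -/
def req : Code → ℕ
  | leaf a => a
  | br _ _ R true => req R
  | br _ L _ false => req L

/-- The number of edges from the root of `c` to the leaf of the next request. -/
def lev : Code → ℕ
  | leaf _ => 0
  | br _ _ R true => lev R + 1
  | br _ L _ false => lev L + 1

/-- After the request all switches on the way to the leaf are turned over. -/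
def nxt : Code → Code
  | leaf a => leaf a
  | br b L R true => br b L (nxt R) false
  | br b L R false => br b (nxt L) R true

/-- The first `n` requests. -/
def run : ℕ → Code → List ℕ
  | 0, _ => []
  | n + 1, c => req c :: run n (nxt c)

/-- Insert the tree `T` with all keys greater than `b` on the right of the root. -/
def combR (b : ℕ) : Tr → Tr → Tr
  | nil, T => node b nil T
  | node x A B, T => node x A (node b B T)

/-- Insert the tree `T` with all keys less than `b` on the left of the root. -/
def combL (b : ℕ) (T : Tr) : Tr → Tr
  | nil => node b T nil
  | node y C D => node y (node b T C) D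

/-- The search tree of a code tree with switches. -/
def tree : Code → Tr
  | leaf a => node a nil nil
  | br b L R true => combR b (tree L) (tree R)
  | br b L R false => combL b (tree L) (tree R)

lemma keys_combR (b : ℕ) (S T : Tr) : keys (combR b S T) = keys S ++ b :: keys T := by
  cases S <;> simp [combR, keys]

lemma keys_combL (b : ℕ) (S T : Tr) : keys (combL b S T) = keys S ++ b :: keys T := by
  cases T <;> simp [combL, keys]

lemma keys_tree : ∀ c : Code, keys (tree c) = inord c
  | leaf a => by simp [tree, keys, inord]
  | br b L R true => by rw [tree, keys_combR, keys_tree L, keys_tree R, inord]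
  | br b L R false => by rw [tree, keys_combL, keys_tree L, keys_tree R, inord]

lemma tree_node : ∀ c : Code, ∃ x A B, tree c = node x A B
  | leaf a => ⟨a, nil, nil, rfl⟩
  | br b L R true => by
      obtain ⟨x, A, B, h⟩ := tree_node L
      exact ⟨x, A, node b B (tree R), by rw [tree, h, combR]⟩
  | br b L R false => by
      obtain ⟨x, A, B, h⟩ := tree_node R
      exact ⟨x, node b (tree L) A, B, by rw [tree, h, combL]⟩

lemma req_mem : ∀ c : Code, req c ∈ inord c
  | leaf a => by simp [req, inord]
  | br b L R true => by simp [req, inord, req_mem R]
  | br b L R false => by simp [req, inord, req_mem L]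

lemma inord_nxt : ∀ c : Code, inord (nxt c) = inord c
  | leaf a => rfl
  | br b L R true => by simp [nxt, inord, inord_nxt R]
  | br b L R false => by simp [nxt, inord, inord_nxt L]

lemma locate_append (x : ℕ) : ∀ (t : Tr) (fs : List Fr),
    locate x t fs = ((locate x t []).1 ++ fs, (locate x t []).2)
  | nil, fs => by simp [locate]
  | node a l r, fs => by
      by_cases h : x = a
      · simp [locate, h]
      · by_cases h2 : x < a
        · simp only [locate, h, h2, if_true, if_false]
          rw [locate_append x l (Fr.inL a r :: fs), locate_append x l [Fr.inL a r]]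
          simp
        · simp only [locate, h, h2, if_false]
          rw [locate_append x r (Fr.inR a l :: fs), locate_append x r [Fr.inR a l]]
          simp

lemma locate_length (x : ℕ) : ∀ (t : Tr), (locate x t []).1.length = dep x t
  | nil => by simp [locate, dep]
  | node a l r => by
      by_cases h : x = a
      · simp [locate, dep, h]
      · by_cases h2 : x < a
        · simp only [locate, dep, h, h2, if_true, if_false]
          rw [locate_append x l [Fr.inL a r]]
          simp [locate_length x l]
        · simp only [locate, dep, h, h2, if_false]
          rw [locate_append x r [Fr.inR a l]]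
          simp [locate_length x r]

lemma climb_even (x : ℕ) : ∀ (fs : List Fr) (l r : Tr), Even fs.length →
    ∃ l' r', climb x fs l r = node x l' r' ∧ ∀ gs, climb x (fs ++ gs) l r = climb x gs l' r'
  | [], l, r, _ => ⟨l, r, by simp [climb], fun gs => by simp⟩
  | [_], l, r, h => by simp at h
  | f :: g :: fs, l, r, h => by
      have h' : Even fs.length := by
        simp only [List.length_cons] at h
        have h3 : fs.length + 1 + 1 = fs.length + 2 := by ring
        rw [h3, Nat.even_add] at h
        exact h.2 (by decide)
      cases f with
      | inL y c =>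
          cases g with
          | inL z d =>
              obtain ⟨l', r', h1, h2⟩ := climb_even x fs l (node y r (node z c d)) h'
              exact ⟨l', r', by simpa [climb] using h1, fun gs => by simpa [climb] using h2 gs⟩
          | inR z d =>
              obtain ⟨l', r', h1, h2⟩ := climb_even x fs (node z d l) (node y r c) h'
              exact ⟨l', r', by simpa [climb] using h1, fun gs => by simpa [climb] using h2 gs⟩
      | inR y c =>
          cases g with
          | inL z d =>
              obtain ⟨l', r', h1, h2⟩ := climb_even x fs (node y c l) (node z r d) h'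
              exact ⟨l', r', by simpa [climb] using h1, fun gs => by simpa [climb] using h2 gs⟩
          | inR z d =>
              obtain ⟨l', r', h1, h2⟩ := climb_even x fs (node y (node z d c) l) r h'
              exact ⟨l', r', by simpa [climb] using h1, fun gs => by simpa [climb] using h2 gs⟩

/-- One request: the depth of the requested key is twice its level and splaying leads to the tree
of the next state. -/
theorem step : ∀ c : Code, (inord c).Pairwise (· < ·) →
    dep (req c) (tree c) = 2 * lev c ∧ splay (req c) (tree c) = tree (nxt c)
  | leaf a, _ => by simp [dep, req, tree, lev, splay, locate, climb, nxt]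
  | br b L R true, h => by
      rw [inord, List.pairwise_append, List.pairwise_cons] at h
      obtain ⟨hL, ⟨hb, hR⟩, hLR⟩ := h
      obtain ⟨hd, hs⟩ := step R hR
      obtain ⟨x, A, B, hx⟩ := tree_node L
      have hy : req R ∈ inord R := req_mem R
      have hby : b < req R := hb _ hy
      have hxm : x ∈ inord L := by rw [← keys_tree, hx]; simp [keys]
      have hxy : x < req R := hLR x hxm _ (by simp [hy])
      have e1 : tree (br b L R true) = node x A (node b B (tree R)) := by rw [tree, hx, combR]
      have e2 : req (br b L R true) = req R := rfl
      constructor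
      · rw [e1, e2]
        simp only [dep, if_neg hxy.ne', if_neg (not_lt.2 hxy.le), if_neg hby.ne',
          if_neg (not_lt.2 hby.le), hd, lev]
        ring
      · obtain ⟨l', r', h1, h2⟩ := climb_even (req R) (locate (req R) (tree R) []).1
          (locate (req R) (tree R) []).2.1 (locate (req R) (tree R) []).2.2
          (by rw [locate_length, hd]; exact even_two_mul _)
        have e3 : tree (nxt R) = node (req R) l' r' := by rw [← hs, splay, h1]
        rw [e1, e2, nxt, tree, hx, e3, combL, splay]
        simp only [locate, if_neg hxy.ne', if_neg (not_lt.2 hxy.le), if_neg hby.ne',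
          if_neg (not_lt.2 hby.le)]
        rw [locate_append (req R) (tree R) [Fr.inR b B, Fr.inR x A]]
        simp only
        rw [h2]
        simp [climb]
  | br b L R false, h => by
      rw [inord, List.pairwise_append, List.pairwise_cons] at h
      obtain ⟨hL, ⟨hb, hR⟩, hLR⟩ := h
      obtain ⟨hd, hs⟩ := step L hL
      obtain ⟨y, C, D, hy⟩ := tree_node R
      have hx : req L ∈ inord L := req_mem L
      have hxb : req L < b := hLR _ hx _ (by simp)
      have hym : y ∈ inord R := by rw [← keys_tree, hy]; simp [keys]
      have hxy : req L < y := hLR _ hx _ (by simp [hym])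
      have e1 : tree (br b L R false) = node y (node b (tree L) C) D := by rw [tree, hy, combL]
      have e2 : req (br b L R false) = req L := rfl
      constructor
      · rw [e1, e2]
        simp only [dep, if_neg hxy.ne, if_pos hxy, if_neg hxb.ne, if_pos hxb, hd, lev]
        ring
      · obtain ⟨l', r', h1, h2⟩ := climb_even (req L) (locate (req L) (tree L) []).1
          (locate (req L) (tree L) []).2.1 (locate (req L) (tree L) []).2.2
          (by rw [locate_length, hd]; exact even_two_mul _)
        have e3 : tree (nxt L) = node (req L) l' r' := by rw [← hs, splay, h1]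
        rw [e1, e2, nxt, tree, hy, e3, combR, splay]
        simp only [locate, if_neg hxy.ne, if_pos hxy, if_neg hxb.ne, if_pos hxb]
        rw [locate_append (req L) (tree L) [Fr.inL b C, Fr.inL y D]]
        simp only
        rw [h2]
        simp [climb]

/-- The sum of `f` over the first `n` states. -/
def tot (f : Code → ℕ) : ℕ → Code → ℕ
  | 0, _ => 0
  | n + 1, c => f c + tot f n (nxt c)

theorem costSplay_run : ∀ (n : ℕ) (c : Code), (inord c).Pairwise (· < ·) →
    costSplay (tree c) (run n c) = tot (fun c => 1 + 2 * lev c) n c
  | 0, c, _ => by simp [run, costSplay, tot]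
  | n + 1, c, h => by
      obtain ⟨h1, h2⟩ := step c h
      rw [run, costSplay, tot, h1, h2, costSplay_run n (nxt c) (by rw [inord_nxt]; exact h)]

lemma tot_congr (f g : Code → ℕ) : ∀ (n : ℕ) (c : Code),
    (∀ c', inord c' = inord c → f c' = g c') → tot f n c = tot g n c
  | 0, _, _ => rfl
  | n + 1, c, h => by
      rw [tot, tot, h c rfl, tot_congr f g n (nxt c) (fun c' h' => h c' (by rw [h', inord_nxt]))]

lemma tot_add (f : Code → ℕ) (a : ℕ) : ∀ (n : ℕ) (c : Code),
    tot (fun c => f c + a) n c = tot f n c + n * a
  | 0, _ => by simp [tot]
  | n + 1, c => by rw [tot, tot, tot_add f a n (nxt c)]; ring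

lemma tot_mul (f : Code → ℕ) (a b : ℕ) : ∀ (n : ℕ) (c : Code),
    tot (fun c => a + b * f c) n c = n * a + b * tot f n c
  | 0, _ => by simp [tot]
  | n + 1, c => by rw [tot, tot, tot_mul f a b n (nxt c)]; ring

lemma tot_br (f g h : Code → ℕ) (hg : ∀ b L R, f (br b L R true) = g R)
    (hh : ∀ b L R, f (br b L R false) = h L) (b : ℕ) : ∀ (n : ℕ) (L R : Code) (s : Bool),
    tot f (2 * n) (br b L R s) = tot h n L + tot g n R
  | 0, _, _, _ => by simp [tot]
  | n + 1, L, R, true => by
      have e : 2 * (n + 1) = (2 * n + 1) + 1 := by ring
      rw [e, tot, hg, nxt, tot, hh, nxt, tot_br f g h hg hh b n, tot, tot]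
      ring
  | n + 1, L, R, false => by
      have e : 2 * (n + 1) = (2 * n + 1) + 1 := by ring
      rw [e, tot, hh, nxt, tot, hg, nxt, tot_br f g h hg hh b n, tot, tot]
      ring

lemma tot_leaf (f : Code → ℕ) (a : ℕ) : ∀ n : ℕ, tot f n (leaf a) = n * f (leaf a)
  | 0 => by simp [tot]
  | n + 1 => by rw [tot, nxt, tot_leaf f a n]; ring

/-- The number of keys of the code tree number `k`. -/
def len : ℕ → ℕ
  | 0 => 1
  | k + 1 => 2 * len k + 3

/-- The code trees `D (k + 1) = ((D k, leaf), D k)`, with the keys `o, o + 1, …`. -/
def D : ℕ → ℕ → Code
  | 0, o => leaf o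
  | k + 1, o => br (o + len k + 2) (br (o + len k) (D k o) (leaf (o + len k + 1)) true)
      (D k (o + len k + 3)) true

lemma range_split (o N : ℕ) : List.range' o (2 * N + 3) =
    List.range' o N ++ (o + N) :: (o + N + 1) :: (o + N + 2) :: List.range' (o + N + 3) N := by
  have h1 : List.range' o (2 * N + 3) = List.range' o N ++ List.range' (o + N) (N + 3) := by
    have := @List.range'_append o N (N + 3) 1
    rw [one_mul] at this
    rw [this]
    congr 1
    ring
  rw [h1]
  congr 1

lemma inord_D : ∀ k o : ℕ, inord (D k o) = List.range' o (len k)
  | 0, o => by simp [D, inord, len]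
  | k + 1, o => by
      rw [D, inord, inord, inord_D k, inord_D k, inord, len, range_split]
      simp

lemma pairwise_D (k o : ℕ) : (inord (D k o)).Pairwise (· < ·) := by
  rw [inord_D]; exact List.pairwise_lt_range'

theorem tot_lev_D : ∀ k o M : ℕ,
    tot lev (4 ^ k * M) (D k o) + 6 * 3 ^ k * M = 6 * 4 ^ k * M
  | 0, o, M => by rw [D, tot_leaf]; simp [lev]
  | k + 1, o, M => by
      have h1 := tot_br lev (fun c => lev c + 1) (fun c => lev c + 1) (fun _ _ _ => rfl)
        (fun _ _ _ => rfl)
      have e1 : 4 ^ (k + 1) * M = 2 * (2 * (4 ^ k * M)) := by ring
      rw [D, e1, h1, tot_add, tot_add, h1, tot_add, tot_add, tot_leaf]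
      have e2 : 2 * (4 ^ k * M) = 4 ^ k * (2 * M) := by ring
      have h2 := tot_lev_D k o M
      have h3 := tot_lev_D k (o + len k + 3) (2 * M)
      rw [← e2] at h3
      simp only [lev]
      have e3 : 3 ^ (k + 1) = 3 * 3 ^ k := by ring
      have e4 : 4 ^ (k + 1) = 4 * 4 ^ k := by ring
      rw [e3, e4]
      nlinarith [h2, h3]

end Pool.Agent.R581.SplayLB
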