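import Pool.Agent.R581.SplayLB

set_option autoImplicit false

/-! Static trees and rotation-based executions for the hierarchically alternating requests. -/

namespace Pool.Agent.R581.SplayLB

open Pool.Agent.H581R2.Splay Pool.Agent.TH49.Spl

open Tr Code

/-- Insert a new largest key `b` at the bottom. -/
def insMax (b : ℕ) : Tr → Tr
  | nil => node b nil nil
  | node a l r => node a l (insMax b r)

/-- Insert a new smallest key `b` at the bottom. -/
def insMin (b : ℕ) : Tr → Tr
  | nil => node b nil nil
  | node a l r => node a (insMin b l) r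

lemma keys_insMax (b : ℕ) : ∀ t : Tr, keys (insMax b t) = keys t ++ [b]
  | nil => by simp [insMax, keys]
  | node a l r => by simp [insMax, keys, keys_insMax b r]

lemma keys_insMin (b : ℕ) : ∀ t : Tr, keys (insMin b t) = b :: keys t
  | nil => by simp [insMin, keys]
  | node a l r => by simp [insMin, keys, keys_insMin b l]

lemma dep_insMax (b x : ℕ) : ∀ t : Tr, (keys t).Pairwise (· < ·) → x ∈ keys t →
    dep x (insMax b t) = dep x t
  | nil, _, h => by simp [keys] at h
  | node a l r, hp, h => by
      rw [keys, List.pairwise_append, List.pairwise_cons] at hp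
      obtain ⟨hl, ⟨ha, hr⟩, hlr⟩ := hp
      rw [insMax, dep, dep]
      by_cases h1 : x = a
      · simp [h1]
      · by_cases h2 : x < a
        · simp [h1, h2]
        · have hx : x ∈ keys r := by
            rw [keys, List.mem_append, List.mem_cons] at h
            rcases h with h | h | h
            · exact absurd (hlr x h a (by simp)) h2
            · exact absurd h h1
            · exact h
          simp [h1, h2, dep_insMax b x r hr hx]

lemma dep_insMin (b x : ℕ) : ∀ t : Tr, (keys t).Pairwise (· < ·) → x ∈ keys t →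
    dep x (insMin b t) = dep x t
  | nil, _, h => by simp [keys] at h
  | node a l r, hp, h => by
      rw [keys, List.pairwise_append, List.pairwise_cons] at hp
      obtain ⟨hl, ⟨ha, hr⟩, hlr⟩ := hp
      rw [insMin, dep, dep]
      by_cases h1 : x = a
      · simp [h1]
      · by_cases h2 : x < a
        · have hx : x ∈ keys l := by
            rw [keys, List.mem_append, List.mem_cons] at h
            rcases h with h | h | h
            · exact h
            · exact absurd h h1
            · exact absurd (ha x h) (by omega)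
          simp [h1, h2, dep_insMin b x l hl hx]
        · simp [h1, h2]

/-- The static search trees for the code trees `D k o`. -/
def St : ℕ → ℕ → Tr
  | 0, o => node o nil nil
  | k + 1, o => node (o + len k + 1) (insMax (o + len k) (St k o))
      (insMin (o + len k + 2) (St k (o + len k + 3)))

lemma keys_St : ∀ k o : ℕ, keys (St k o) = List.range' o (len k)
  | 0, o => by simp [St, keys, len]
  | k + 1, o => by
      rw [St, keys, keys_insMax, keys_insMin, keys_St k, keys_St k, len, range_split]
      simp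

lemma bst_St (k o : ℕ) : (keys (St k o)).Pairwise (· < ·) := by
  rw [keys_St]; exact List.pairwise_lt_range'

/-- The cost of the requests `X` in the static tree `S`. -/
def statCost (S : Tr) (X : List ℕ) : ℕ := (X.map fun x => 1 + dep x S).sum

lemma statCost_run (S : Tr) : ∀ (n : ℕ) (c : Code),
    statCost S (run n c) = tot (fun c => 1 + dep (req c) S) n c
  | 0, c => by simp [statCost, run, tot]
  | n + 1, c => by
      have h := statCost_run S n (nxt c)
      unfold statCost at h ⊢
      rw [run, List.map_cons, List.sum_cons, h, tot]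

lemma dep_left (k o x : ℕ) (hx : x ∈ List.range' o (len k)) :
    dep x (St (k + 1) o) = dep x (St k o) + 1 := by
  have h1 := List.mem_range'_1.1 hx
  rw [St, dep, if_neg (by omega), if_pos (by omega),
    dep_insMax _ _ _ (bst_St k o) (by rw [keys_St]; exact hx)]

lemma dep_right (k o x : ℕ) (hx : x ∈ List.range' (o + len k + 3) (len k)) :
    dep x (St (k + 1) o) = dep x (St k (o + len k + 3)) + 1 := by
  have h1 := List.mem_range'_1.1 hx
  rw [St, dep, if_neg (by omega), if_neg (by omega),
    dep_insMin _ _ _ (bst_St k _) (by rw [keys_St]; exact hx)]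

theorem tot_stat_D : ∀ k o M : ℕ,
    tot (fun c => 1 + dep (req c) (St k o)) (4 ^ k * M) (D k o) + 3 * 3 ^ k * M = 4 * 4 ^ k * M
  | 0, o, M => by rw [D, tot_leaf]; simp [req, St, dep]; ring
  | k + 1, o, M => by
      set f : Code → ℕ := fun c => 1 + dep (req c) (St (k + 1) o) with hf
      have h1 := tot_br f f f (fun _ _ _ => rfl) (fun _ _ _ => rfl)
      have e1 : 4 ^ (k + 1) * M = 2 * (2 * (4 ^ k * M)) := by ring
      rw [e1]
      show tot f (2 * (2 * (4 ^ k * M))) (br (o + len k + 2) (br (o + len k) (D k o)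
        (leaf (o + len k + 1)) true) (D k (o + len k + 3)) true) + _ = _
      rw [h1, h1, tot_leaf]
      have c1 : tot f (4 ^ k * M) (D k o) =
          tot (fun c => (fun c => 1 + dep (req c) (St k o)) c + 1) (4 ^ k * M) (D k o) := by
        apply tot_congr
        intro c' hc'
        have hm : req c' ∈ List.range' o (len k) := by
          rw [← inord_D k o, ← hc']; exact req_mem c'
        simp only [hf]
        rw [dep_left k o _ hm]
        ring
      have c2 : tot f (2 * (4 ^ k * M)) (D k (o + len k + 3)) =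
          tot (fun c => (fun c => 1 + dep (req c) (St k (o + len k + 3))) c + 1)
            (2 * (4 ^ k * M)) (D k (o + len k + 3)) := by
        apply tot_congr
        intro c' hc'
        have hm : req c' ∈ List.range' (o + len k + 3) (len k) := by
          rw [← inord_D k (o + len k + 3), ← hc']; exact req_mem c'
        simp only [hf]
        rw [dep_right k o _ hm]
        ring
      have c3 : f (leaf (o + len k + 1)) = 1 := by simp [hf, req, St, dep]
      rw [c1, c2, c3, tot_add, tot_add]
      have e2 : 2 * (4 ^ k * M) = 4 ^ k * (2 * M) := by ring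
      have h2 := tot_stat_D k o M
      have h3 := tot_stat_D k (o + len k + 3) (2 * M)
      rw [← e2] at h3
      have e3 : 3 ^ (k + 1) = 3 * 3 ^ k := by ring
      have e4 : 4 ^ (k + 1) = 4 * 4 ^ k := by ring
      rw [e3, e4]
      nlinarith [h2, h3]

/-! Rotations connect all search trees with the same keys. -/

lemma Rot.symm' {t t' : Tr} {s : ℕ} (h : Rot t t' s) : ∃ s', Rot t' t s' := by
  induction h with
  | right a b A B C => exact ⟨_, Rot.left a b A B C⟩
  | left a b A B C => exact ⟨_, Rot.right a b A B C⟩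
  | inl a L L' R s _ ih => obtain ⟨s', h⟩ := ih; exact ⟨s', Rot.inl a _ _ _ _ h⟩
  | inr a L R R' s _ ih => obtain ⟨s', h⟩ := ih; exact ⟨s', Rot.inr a _ _ _ _ h⟩

lemma rotN_trans {e : ℕ} {t t' : Tr} (h : RotN e t t') : ∀ {f : ℕ} {t'' : Tr},
    RotN f t' t'' → RotN (e + f) t t'' := by
  induction h with
  | refl T => intro f t'' h; simpa using h
  | step e s T T' T'' h1 _ ih =>
      intro f t'' h
      have := RotN.step _ _ _ _ _ h1 (ih h)
      convert this using 1
      ring

lemma rotN_symm {e : ℕ} {t t' : Tr} (h : RotN e t t') : RotN e t' t := by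
  induction h with
  | refl T => exact RotN.refl T
  | step e s T T' T'' h1 _ ih =>
      obtain ⟨s', h2⟩ := Rot.symm' h1
      exact rotN_trans ih (by simpa using RotN.step 0 s' _ _ _ h2 (RotN.refl _))

lemma rotN_inl {e : ℕ} {t t' : Tr} (a : ℕ) (R : Tr) (h : RotN e t t') :
    RotN e (node a t R) (node a t' R) := by
  induction h with
  | refl T => exact RotN.refl _
  | step e s T T' T'' h1 _ ih => exact RotN.step e s _ _ _ (Rot.inl a _ _ _ _ h1) ih

lemma rotN_inr {e : ℕ} {t t' : Tr} (a : ℕ) (L : Tr) (h : RotN e t t') :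
    RotN e (node a L t) (node a L t') := by
  induction h with
  | refl T => exact RotN.refl _
  | step e s T T' T'' h1 _ ih => exact RotN.step e s _ _ _ (Rot.inr a _ _ _ _ h1) ih

/-- The path with the keys `l`. -/
def spine : List ℕ → Tr
  | [] => nil
  | a :: l => node a nil (spine l)

lemma spine_join (a : ℕ) (R : List ℕ) : ∀ L : List ℕ,
    ∃ e, RotN e (node a (spine L) (spine R)) (spine (L ++ a :: R))
  | [] => ⟨0, RotN.refl _⟩
  | b :: L => by
      obtain ⟨e, h⟩ := spine_join a R L
      refine ⟨e + 1, RotN.step e _ _ (node b nil (node a (spine L) (spine R))) _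
        (Rot.right a b nil (spine L) (spine R)) ?_⟩
      exact rotN_inr b nil h

lemma to_spine : ∀ t : Tr, ∃ e, RotN e t (spine (keys t))
  | nil => ⟨0, RotN.refl _⟩
  | node a l r => by
      obtain ⟨e1, h1⟩ := to_spine l
      obtain ⟨e2, h2⟩ := to_spine r
      obtain ⟨e3, h3⟩ := spine_join a (keys r) (keys l)
      exact ⟨e1 + (e2 + e3), rotN_trans (rotN_inl a r h1) (rotN_trans (rotN_inr a _ h2) h3)⟩

lemma rot_connected (S T : Tr) (h : keys S = keys T) : ∃ e, RotN e S T := by
  obtain ⟨e1, h1⟩ := to_spine S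
  obtain ⟨e2, h2⟩ := to_spine T
  rw [h] at h1
  exact ⟨e1 + e2, rotN_trans h1 (rotN_symm h2)⟩

lemma exec_stat (S : Tr) : ∀ X : List ℕ, Exec S X (statCost S X)
  | [] => Exec.nil S
  | x :: X => by
      have h := Exec.cons S S x X 0 (statCost S X) (RotN.refl S) (exec_stat S X)
      have e : statCost S (x :: X) = 1 + 0 + dep x S + statCost S X := by
        simp [statCost]
      rw [e]; exact h

/-- All requests can be served at the cost of a static tree, up to an additive constant. -/
lemma exec_const (S T : Tr) (h : keys S = keys T) : ∃ K : ℕ, ∀ X : List ℕ,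
    (∀ x ∈ X, x ∈ keys T) → ∃ e, Exec T X e ∧ e ≤ statCost S X + K := by
  obtain ⟨r, hr⟩ := rot_connected T S h.symm
  refine ⟨1 + r + ((keys T).map fun x => dep x T).sum, fun X hX => ?_⟩
  cases X with
  | nil => exact ⟨0, Exec.nil T, by simp⟩
  | cons x X =>
      refine ⟨_, Exec.cons T S x X r _ hr (exec_stat S X), ?_⟩
      have h1 : dep x T ≤ ((keys T).map fun x => dep x T).sum :=
        List.single_le_sum (by simp) _ (List.mem_map.2 ⟨x, hX x (by simp), rfl⟩)
      have h2 : statCost S (x :: X) = 1 + dep x S + statCost S X := by simp [statCost]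
      omega

/-- The optimum: the least cost of an execution. -/
noncomputable def opt (T : Tr) (X : List ℕ) : ℕ := sInf {c : ℕ | Exec T X c}

lemma mem_run : ∀ (n : ℕ) (c : Code), ∀ x ∈ run n c, x ∈ inord c
  | 0, c, x, h => by simp [run] at h
  | n + 1, c, x, h => by
      rw [run, List.mem_cons] at h
      rcases h with rfl | h
      · exact req_mem c
      · rw [← inord_nxt c]; exact mem_run n (nxt c) x h

lemma run_eq : ∀ (n : ℕ) (c : Code), run n c = (List.range n).map fun i => req (nxt^[i] c)
  | 0, c => by simp [run]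
  | n + 1, c => by
      rw [run, run_eq n (nxt c), List.range_succ_eq_map, List.map_cons, List.map_map]
      rfl

lemma inord_iter (c : Code) : ∀ i : ℕ, inord (nxt^[i] c) = inord c
  | 0 => rfl
  | i + 1 => by rw [Function.iterate_succ_apply', inord_nxt, inord_iter c i]

theorem main (c : ℝ) (hc : c < 13 / 4) : ∃ (S T : Tr) (f : ℕ → ℕ), IsBST T ∧ keys S = keys T ∧
    (∀ i, f i ∈ keys T) ∧ ∀ B : ℝ, ∃ m : ℕ,
      c * (opt T ((List.range m).map f) : ℝ) + B < costSplay T ((List.range m).map f) ∧
      c * (statCost S ((List.range m).map f) : ℝ) + B < costSplay T ((List.range m).map f) := by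
  set c' : ℝ := max c 0 with hc'
  have hc0 : 0 ≤ c' := le_max_right _ _
  have hcc : c ≤ c' := le_max_left _ _
  have hc1 : c' < 13 / 4 := max_lt hc (by norm_num)
  obtain ⟨k, hk⟩ := exists_pow_lt_of_lt_one (show (0 : ℝ) < (13 - 4 * c') / 12 by linarith)
    (show (3 / 4 : ℝ) < 1 by norm_num)
  have h4 : (0 : ℝ) < 4 ^ k := by positivity
  have h3 : (0 : ℝ) < 3 ^ k := by positivity
  have hk2 : 12 * (3 : ℝ) ^ k < (13 - 4 * c') * 4 ^ k := by
    rw [div_pow, div_lt_div_iff₀ h4 (by norm_num)] at hk
    linarith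
  set α : ℝ := 13 * 4 ^ k - 12 * 3 ^ k with hα
  set β : ℝ := 4 * 4 ^ k - 3 * 3 ^ k with hβ
  have hαβ : 0 < α - c' * β := by
    have : 0 ≤ c' * (3 * 3 ^ k) := by positivity
    rw [hα, hβ]; nlinarith
  have hkS : keys (St k 0) = keys (tree (D k 0)) := by rw [keys_St, keys_tree, inord_D]
  refine ⟨St k 0, tree (D k 0), fun i => req (nxt^[i] (D k 0)), ?_, hkS, ?_, ?_⟩
  · unfold IsBST; rw [keys_tree]; exact pairwise_D k 0
  · intro i
    rw [keys_tree, ← inord_iter (D k 0) i]
    exact req_mem _
  intro B
  obtain ⟨K, hK⟩ := exec_const (St k 0) (tree (D k 0)) hkS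
  obtain ⟨M, hM⟩ := exists_nat_gt ((c' * K + |B|) / (α - c' * β))
  have hM' : c' * K + |B| < M * (α - c' * β) := by rwa [div_lt_iff₀ hαβ] at hM
  set X := run (4 ^ k * M) (D k 0) with hX
  have hXm : ∀ x ∈ X, x ∈ keys (tree (D k 0)) := by
    intro x hx; rw [keys_tree]; exact mem_run _ _ x hx
  have hsp : (costSplay (tree (D k 0)) X : ℝ) = α * M := by
    have h1 := costSplay_run (4 ^ k * M) (D k 0) (pairwise_D k 0)
    rw [tot_mul] at h1
    have h2 := tot_lev_D k 0 M
    have h1' : (costSplay (tree (D k 0)) X : ℝ) =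
        4 ^ k * M + 2 * (tot lev (4 ^ k * M) (D k 0) : ℝ) := by
      rw [hX, h1]; push_cast; ring
    have h2' : (tot lev (4 ^ k * M) (D k 0) : ℝ) + 6 * 3 ^ k * M = 6 * 4 ^ k * M := by
      exact_mod_cast h2
    rw [h1', hα]; linarith
  have hst : (statCost (St k 0) X : ℝ) = β * M := by
    have h1 := statCost_run (St k 0) (4 ^ k * M) (D k 0)
    have h2 := tot_stat_D k 0 M
    rw [← h1] at h2
    have h2' : (statCost (St k 0) X : ℝ) + 3 * 3 ^ k * M = 4 * 4 ^ k * M := by exact_mod_cast h2
    rw [hβ]; linarith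
  obtain ⟨e, he, hle⟩ := hK X hXm
  have hopt : (opt (tree (D k 0)) X : ℝ) ≤ statCost (St k 0) X + K := by
    have h1 : opt (tree (D k 0)) X ≤ e := Nat.sInf_le he
    exact_mod_cast h1.trans hle
  have hB : B ≤ |B| := le_abs_self B
  have hK0 : (0 : ℝ) ≤ c' * K := by positivity
  refine ⟨4 ^ k * M, ?_⟩
  rw [← run_eq, ← hX]
  constructor
  · have h1 : c * (opt (tree (D k 0)) X : ℝ) ≤ c' * (statCost (St k 0) X + K) := by
      calc c * (opt (tree (D k 0)) X : ℝ) ≤ c' * (opt (tree (D k 0)) X : ℝ) :=
            mul_le_mul_of_nonneg_right hcc (Nat.cast_nonneg _)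
        _ ≤ c' * (statCost (St k 0) X + K) := mul_le_mul_of_nonneg_left hopt hc0
    rw [hst] at h1
    rw [hsp]
    nlinarith
  · have h1 : c * (statCost (St k 0) X : ℝ) ≤ c' * (statCost (St k 0) X) :=
      mul_le_mul_of_nonneg_right hcc (Nat.cast_nonneg _)
    rw [hst] at h1 ⊢
    rw [hsp]
    nlinarith

/-- The complete code trees with `k` levels. -/
def U : ℕ → ℕ → Code
  | 0, o => leaf o
  | k + 1, o => br (o + (2 ^ (k + 1) - 1)) (U k o) (U k (o + 2 ^ (k + 1))) true

lemma inord_U : ∀ k o : ℕ, inord (U k o) = List.range' o (2 ^ (k + 1) - 1)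
  | 0, o => by simp [U, inord]
  | k + 1, o => by
      have h2 : 2 ^ (k + 1 + 1) - 1 = (2 ^ (k + 1) - 1) + (2 ^ (k + 1) - 1 + 1) := by
        have : 0 < 2 ^ (k + 1) := by positivity
        have : 2 ^ (k + 1 + 1) = 2 * 2 ^ (k + 1) := by ring
        omega
      have h3 : o + (2 ^ (k + 1) - 1) + 1 = o + 2 ^ (k + 1) := by
        have : 0 < 2 ^ (k + 1) := by positivity
        omega
      have h4 := @List.range'_append o (2 ^ (k + 1) - 1) (2 ^ (k + 1) - 1 + 1) 1
      rw [one_mul] at h4
      rw [U, inord, inord_U k, inord_U k, h2, ← h4, List.range'_succ, h3]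

/-- All leaves have level `k`. -/
inductive Lv : ℕ → Code → Prop
  | leaf (a : ℕ) : Lv 0 (leaf a)
  | br (k b : ℕ) (L R : Code) (s : Bool) : Lv k L → Lv k R → Lv (k + 1) (br b L R s)

lemma lv_lev {k : ℕ} {c : Code} (h : Lv k c) : lev c = k := by
  induction h with
  | leaf a => rfl
  | br k b L R s _ _ h1 h2 => cases s <;> simp [lev, h1, h2]

lemma lv_nxt {k : ℕ} {c : Code} (h : Lv k c) : Lv k (nxt c) := by
  induction h with
  | leaf a => exact Lv.leaf a
  | br k b L R s hL hR h1 h2 =>
      cases s
      · exact Lv.br k b _ _ _ h1 hR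
      · exact Lv.br k b _ _ _ hL h2

lemma lv_U : ∀ k o : ℕ, Lv k (U k o)
  | 0, _ => Lv.leaf _
  | k + 1, o => Lv.br k _ _ _ _ (lv_U k _) (lv_U k _)

lemma tot_lv (k : ℕ) : ∀ (n : ℕ) (c : Code), Lv k c →
    tot (fun c => 1 + 2 * lev c) n c = (2 * k + 1) * n
  | 0, _, _ => by simp [tot]
  | n + 1, c, h => by rw [tot, tot_lv k n (nxt c) (lv_nxt h), lv_lev h]; ring

theorem uniform (k : ℕ) : ∃ (T : Tr) (f : ℕ → ℕ), IsBST T ∧ (keys T).length + 1 = 2 ^ (k + 1) ∧
    (∀ i, f i ∈ keys T) ∧ ∀ m : ℕ, costSplay T ((List.range m).map f) = (2 * k + 1) * m := by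
  have hp : (inord (U k 0)).Pairwise (· < ·) := by rw [inord_U]; exact List.pairwise_lt_range'
  refine ⟨tree (U k 0), fun i => req (nxt^[i] (U k 0)), ?_, ?_, ?_, ?_⟩
  · unfold IsBST; rw [keys_tree]; exact hp
  · rw [keys_tree, inord_U, List.length_range']
    have : 0 < 2 ^ (k + 1) := by positivity
    omega
  · intro i
    rw [keys_tree, ← inord_iter (U k 0) i]
    exact req_mem _
  · intro m
    rw [← run_eq, costSplay_run m _ hp, tot_lv k m _ (lv_U k 0)]

end Pool.Agent.R581.SplayLB
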