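import Mathlib
import Pool.Agent.R581.Auto

/-!
The pointwise topology on the permutation group of the natural numbers, and its uniqueness
among Polish topologies with continuous multiplication for which the point evaluation sets are
open.
-/

namespace Pool.Agent.R581

open Filter Set Topology TopologicalSpace

/-- Pair of a permutation and its inverse, as functions. -/
def dbl (g : Equiv.Perm ℕ) : (ℕ → ℕ) × (ℕ → ℕ) := (fun n => g n, fun n => g⁻¹ n)

/-- Pointwise topology on the permutation group. -/
@[reducible] def sig : TopologicalSpace (Equiv.Perm ℕ) := TopologicalSpace.induced dbl inferInstance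

theorem dbl_injective : Function.Injective dbl := by
  intro g h hgh
  ext n
  have := congrArg (fun p => p.1 n) hgh
  simpa [dbl] using this

theorem isOpen_comp_eq (n m : ℕ) :
    IsOpen {p : (ℕ → ℕ) × (ℕ → ℕ) | p.1 (p.2 n) = m} := by
  have : {p : (ℕ → ℕ) × (ℕ → ℕ) | p.1 (p.2 n) = m} =
      ⋃ k : ℕ, {p : (ℕ → ℕ) × (ℕ → ℕ) | p.2 n = k} ∩ {p | p.1 k = m} := by
    ext p; simp
  rw [this]
  refine isOpen_iUnion fun k => IsOpen.inter ?_ ?_
  · have hc : Continuous fun p : (ℕ → ℕ) × (ℕ → ℕ) => p.2 n :=
      (continuous_apply n).comp continuous_snd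
    exact (isOpen_discrete {k}).preimage hc
  · have hc : Continuous fun p : (ℕ → ℕ) × (ℕ → ℕ) => p.1 k :=
      (continuous_apply k).comp continuous_fst
    exact (isOpen_discrete {m}).preimage hc

theorem cont_comp (n : ℕ) : Continuous fun p : (ℕ → ℕ) × (ℕ → ℕ) => p.1 (p.2 n) := by
  refine continuous_discrete_rng.2 ?_
  intro m
  exact isOpen_comp_eq n m

theorem sig_polish : @PolishSpace _ sig := by
  let _ := sig
  have h1 : IsClosedEmbedding dbl := by
    refine ⟨⟨⟨rfl⟩, dbl_injective⟩, ?_⟩
    have : range dbl = ⋂ n : ℕ, ({p : (ℕ → ℕ) × (ℕ → ℕ) | p.1 (p.2 n) = n} ∩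
        {p : (ℕ → ℕ) × (ℕ → ℕ) | p.2 (p.1 n) = n}) := by
      ext p
      simp only [mem_range, mem_iInter, mem_inter_iff, mem_ofPred_eq]
      constructor
      · rintro ⟨g, rfl⟩ n
        simp [dbl]
      · intro h
        refine ⟨⟨p.1, p.2, fun n => (h n).2, fun n => (h n).1⟩, ?_⟩
        rfl
    rw [this]
    refine isClosed_iInter fun n => IsClosed.inter ?_ ?_
    · exact (isClosed_discrete {n}).preimage (cont_comp n)
    · exact (isClosed_discrete {n}).preimage ((cont_comp n).comp continuous_swap)
  exact h1.polishSpace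

theorem sig_group : @IsTopologicalGroup _ sig _ := by
  let _ := sig
  have hd : Continuous dbl := continuous_induced_dom
  refine { continuous_mul := ?_, continuous_inv := ?_ }
  · refine continuous_induced_rng.2 ?_
    refine Continuous.prodMk ?_ ?_
    · refine continuous_pi fun n => ?_
      have : Continuous fun p : Equiv.Perm ℕ × Equiv.Perm ℕ => ((dbl p.1).1, (dbl p.2).1) :=
        (continuous_fst.comp (hd.comp continuous_fst)).prodMk
          (continuous_fst.comp (hd.comp continuous_snd))
      exact (cont_comp n).comp this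
    · refine continuous_pi fun n => ?_
      have : Continuous fun p : Equiv.Perm ℕ × Equiv.Perm ℕ => ((dbl p.2).2, (dbl p.1).2) :=
        (continuous_snd.comp (hd.comp continuous_snd)).prodMk
          (continuous_snd.comp (hd.comp continuous_fst))
      have h2 := (cont_comp n).comp this
      refine h2.congr ?_
      intro p
      simp [dbl]
  · refine continuous_induced_rng.2 ?_
    have : (dbl ∘ fun g : Equiv.Perm ℕ => g⁻¹) = Prod.swap ∘ dbl := by
      funext g
      simp [dbl]
    rw [this]
    exact continuous_swap.comp hd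

theorem sig_isOpen (n m : ℕ) : IsOpen[sig] {g : Equiv.Perm ℕ | g n = m} := by
  let _ := sig
  have hd : Continuous dbl := continuous_induced_dom
  exact (isOpen_discrete {m}).preimage ((continuous_apply n).comp (continuous_fst.comp hd))

/-- Any topology in which all the point evaluation sets are open is finer than `sig`. -/
theorem le_sig {t : TopologicalSpace (Equiv.Perm ℕ)}
    (h : ∀ n m : ℕ, IsOpen[t] {g : Equiv.Perm ℕ | g n = m}) : t ≤ sig := by
  let _ := t
  rw [sig]
  refine continuous_iff_le_induced.1 ?_
  refine Continuous.prodMk ?_ ?_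
  · refine continuous_pi fun n => continuous_discrete_rng.2 fun m => ?_
    exact h n m
  · refine continuous_pi fun n => continuous_discrete_rng.2 fun m => ?_
    have : (fun a : Equiv.Perm ℕ => a⁻¹ n) ⁻¹' {m} = {g : Equiv.Perm ℕ | g m = n} := by
      ext g
      simp only [mem_preimage, mem_singleton_iff, mem_ofPred_eq]
      rw [Equiv.Perm.inv_eq_iff_eq]
      exact eq_comm
    rw [this]
    exact h m n

theorem eq_sig {t : TopologicalSpace (Equiv.Perm ℕ)} (hP : @PolishSpace _ t)
    (hM : @ContinuousMul _ t _)
    (h : ∀ n m : ℕ, IsOpen[t] {g : Equiv.Perm ℕ | g n = m}) : t = sig := by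
  have hle : t ≤ sig := le_sig h
  refine le_antisymm hle ?_
  rw [← continuous_id_iff_le]
  have hc : @Continuous _ _ t sig (MulEquiv.refl (Equiv.Perm ℕ)).symm :=
    continuous_id_iff_le.2 hle
  exact @auto_cont (Equiv.Perm ℕ) (Equiv.Perm ℕ) _ sig sig_group sig_polish _ t hM hP
    (MulEquiv.refl _) hc

end Pool.Agent.R581
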