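import Mathlib
import Pool.Agent.R581.SymTop

/-!
A semigroup with exactly two Polish semigroup topologies.
-/

namespace Pool.Agent.R581

open Filter Set Topology TopologicalSpace

/-- The carrier: permutations, points, a zero `z` and an extra element `e`. -/
inductive Sg : Type
  | g (a : Equiv.Perm ℕ)
  | x (n : ℕ)
  | z
  | e

namespace Sg

/-- The multiplication. -/
def mul : Sg → Sg → Sg
  | g a, g b => g (a * b)
  | g a, x n => x (a n)
  | g _, z => z
  | g _, e => z
  | x _, _ => z
  | z, _ => z
  | e, g _ => e
  | e, x _ => z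
  | e, z => z
  | e, e => z

instance : Semigroup Sg where
  mul := mul
  mul_assoc := by
    intro a b c
    cases a <;> cases b <;> cases c <;> rfl

@[simp] theorem g_g (a b : Equiv.Perm ℕ) : g a * g b = g (a * b) := rfl
@[simp] theorem g_x (a : Equiv.Perm ℕ) (n : ℕ) : g a * x n = x (a n) := rfl
@[simp] theorem g_z (a : Equiv.Perm ℕ) : g a * z = z := rfl
@[simp] theorem g_e (a : Equiv.Perm ℕ) : g a * e = z := rfl
@[simp] theorem x_any (n : ℕ) (s : Sg) : x n * s = z := rfl
@[simp] theorem z_any (s : Sg) : z * s = z := rfl
@[simp] theorem e_g (a : Equiv.Perm ℕ) : e * g a = e := rfl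
@[simp] theorem e_x (n : ℕ) : e * x n = z := rfl
@[simp] theorem e_z : e * z = z := rfl
@[simp] theorem e_e : e * e = z := rfl

theorem sig_mem_nhds {a : Equiv.Perm ℕ} {n m : ℕ} (h : a n = m) :
    {c : Equiv.Perm ℕ | c n = m} ∈ @nhds _ sig a := by
  let _ := sig
  exact (sig_isOpen n m).mem_nhds h

theorem g_injective : Function.Injective g := fun _ _ h => by injection h
theorem x_injective : Function.Injective x := fun _ _ h => by injection h

/-- The neighbourhood description of a topology on `Sg`; `F` is the trace filter at zero. -/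
structure Std (t : TopologicalSpace Sg) (F : Filter Sg) : Prop where
  hg : ∀ a : Equiv.Perm ℕ, @nhds Sg t (g a) = Filter.map g (@nhds _ sig a)
  hx : ∀ n : ℕ, @nhds Sg t (x n) = pure (x n)
  hz : @nhds Sg t z = F
  he : @nhds Sg t e = pure e

theorem Std.unique {t t' : TopologicalSpace Sg} {F : Filter Sg} (h : Std t F) (h' : Std t' F) :
    t = t' := by
  refine TopologicalSpace.ext_nhds fun s => ?_
  cases s with
  | g a => rw [h.hg, h'.hg]
  | x n => rw [h.hx, h'.hx]
  | z => rw [h.hz, h'.hz]
  | e => rw [h.he, h'.he]

/-- The filter of the one-point compactification at the zero. -/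
def Fc : Filter Sg := pure z ⊔ Filter.map x cofinite

/-- The filter of an isolated zero. -/
def Fd : Filter Sg := pure z

theorem Fd_ne_Fc : Fd ≠ Fc := by
  intro h
  have h1 : ({z} : Set Sg) ∈ Fd := by simp [Fd]
  rw [h, Fc, mem_sup, mem_map] at h1
  have h2 : x ⁻¹' {z} = (∅ : Set ℕ) := by ext n; simp
  rw [h2] at h1
  exact (cofinite_neBot (α := ℕ)).ne (empty_mem_iff_bot.1 h1.2)

theorem mul_cont {t : TopologicalSpace Sg} {F : Filter Sg} (h : Std t F)
    (hF : F = Fd ∨ F = Fc) : @ContinuousMul Sg t _ := by
  have hFz : F ≤ Fc := by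
    rcases hF with rfl | rfl
    · exact le_sup_left
    · exact le_rfl
  have hFX : ∀ᶠ s in F, ∀ b : Sg, s * b = z := by
    refine hFz ?_
    rw [Fc]
    simp only [mem_sup, mem_pure, mem_map]
    constructor
    · intro b; rfl
    · filter_upwards with n
      intro b; rfl
  refine @ContinuousMul.mk Sg t _ ?_
  rw [continuous_iff_continuousAt]
  rintro ⟨a, b⟩
  -- constant value near the point
  have key : ∀ (c : Sg), (∀ᶠ p in nhds (a, b), p.1 * p.2 = c) → a * b = c →
      ContinuousAt (fun p : Sg × Sg => p.1 * p.2) (a, b) := by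
    intro c hc hab
    refine ContinuousAt.congr (continuousAt_const (y := c)) ?_
    filter_upwards [hc] with p hp
    exact hp.symm
  have hprod : ∀ (A B : Set Sg), A ∈ nhds a → B ∈ nhds b → A ×ˢ B ∈ nhds (a, b) :=
    fun A B hA hB => prod_mem_nhds hA hB
  cases a with
  | x n =>
    refine key z ?_ rfl
    have := hprod {x n} univ (by rw [h.hx]; simp) univ_mem
    filter_upwards [this] with p hp
    rcases p with ⟨p, q⟩
    obtain ⟨h1, -⟩ := hp
    simp only [mem_singleton_iff] at h1
    subst h1
    rfl
  | z =>
    refine key z ?_ rfl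
    have := hprod {s | ∀ b : Sg, s * b = z} univ (by rw [h.hz]; exact hFX) univ_mem
    filter_upwards [this] with p hp
    exact hp.1 p.2
  | e =>
    cases b with
    | g b =>
      refine key e ?_ rfl
      have := hprod {e} (range g) (by rw [h.he]; simp) (by rw [h.hg]; exact range_mem_map)
      filter_upwards [this] with p hp
      rcases p with ⟨p, q⟩
      obtain ⟨h1, ⟨c, h2⟩⟩ := hp
      simp only [mem_singleton_iff] at h1 h2
      subst h1
      subst h2
      rfl
    | x n =>
      refine key z ?_ rfl
      have := hprod {e} {x n} (by rw [h.he]; simp) (by rw [h.hx]; simp)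
      filter_upwards [this] with p hp
      rcases p with ⟨p, q⟩
      obtain ⟨h1, h2⟩ := hp
      simp only [mem_singleton_iff] at h1 h2
      subst h1
      subst h2
      rfl
    | z =>
      refine key z ?_ rfl
      have := hprod {e} {s | s = z ∨ ∃ n, s = x n} (by rw [h.he]; simp) (by
        rw [h.hz]
        refine hFz ?_
        rw [Fc]
        simp only [mem_sup, mem_pure, mem_map]
        refine ⟨Or.inl rfl, ?_⟩
        filter_upwards with n
        exact Or.inr ⟨n, rfl⟩)
      filter_upwards [this] with p hp
      rcases p with ⟨p, q⟩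
      obtain ⟨h1, h2⟩ := hp
      simp only [mem_singleton_iff] at h1
      subst h1
      rcases h2 with h2 | ⟨n, h2⟩ <;> (simp only at h2; subst h2; rfl)
    | e =>
      refine key z ?_ rfl
      have := hprod {e} {e} (by rw [h.he]; simp) (by rw [h.he]; simp)
      filter_upwards [this] with p hp
      rcases p with ⟨p, q⟩
      obtain ⟨h1, h2⟩ := hp
      simp only [mem_singleton_iff] at h1 h2
      subst h1
      subst h2
      rfl
  | g a =>
    cases b with
    | g b =>
      rw [ContinuousAt, nhds_prod_eq, h.hg, h.hg, g_g, h.hg, prod_map_map_eq, tendsto_map'_iff]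
      have h1 : Tendsto (fun p : Equiv.Perm ℕ × Equiv.Perm ℕ => p.1 * p.2)
          (@nhds _ sig a ×ˢ @nhds _ sig b) (@nhds _ sig (a * b)) := by
        let _ := sig
        have hgrp := sig_group
        rw [← nhds_prod_eq]
        exact (continuous_mul (M := Equiv.Perm ℕ)).tendsto (a, b)
      exact (tendsto_map.comp h1)
    | x n =>
      refine key (x (a n)) ?_ rfl
      have hop : {c : Equiv.Perm ℕ | c n = a n} ∈ @nhds _ sig a := sig_mem_nhds rfl
      have := hprod (g '' {c : Equiv.Perm ℕ | c n = a n}) {x n}
        (by rw [h.hg]; exact image_mem_map hop) (by rw [h.hx]; simp)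
      filter_upwards [this] with p hp
      rcases p with ⟨p, q⟩
      obtain ⟨⟨c, hc, h1⟩, h2⟩ := hp
      simp only [mem_singleton_iff, mem_ofPred_eq] at h1 h2 hc
      subst h1
      subst h2
      rw [g_x, hc]
    | e =>
      refine key z ?_ rfl
      have := hprod (range g) {e} (by rw [h.hg]; exact range_mem_map) (by rw [h.he]; simp)
      filter_upwards [this] with p hp
      rcases p with ⟨p, q⟩
      obtain ⟨⟨c, h1⟩, h2⟩ := hp
      simp only [mem_singleton_iff] at h1 h2
      subst h1
      subst h2
      rfl
    | z =>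
      rcases hF with rfl | rfl
      · refine key z ?_ rfl
        have := hprod (range g) {z} (by rw [h.hg]; exact range_mem_map)
          (by rw [h.hz]; simp [Fd])
        filter_upwards [this] with p hp
        rcases p with ⟨p, q⟩
        obtain ⟨⟨c, h1⟩, h2⟩ := hp
        simp only [mem_singleton_iff] at h1 h2
        subst h1
        subst h2
        rfl
      · rw [ContinuousAt, g_z]
        intro U hU
        rw [h.hz, Fc, mem_sup, mem_pure, mem_map, mem_cofinite] at hU
        obtain ⟨hUz, hUf⟩ := hU
        -- finite set of bad points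
        have hfin : {n : ℕ | x (a n) ∉ U}.Finite := by
          have : {n : ℕ | x (a n) ∉ U} = a ⁻¹' ((x ⁻¹' U)ᶜ) := by
            ext n; simp
          rw [this]
          exact hUf.preimage a.injective.injOn
        have hV : (⋂ m ∈ (x ⁻¹' U)ᶜ, {c : Equiv.Perm ℕ | c (a⁻¹ m) = m}) ∈ @nhds _ sig a := by
          rw [biInter_mem hUf]
          intro m _
          exact sig_mem_nhds (by simp)
        have := hprod (g '' (⋂ m ∈ (x ⁻¹' U)ᶜ, {c : Equiv.Perm ℕ | c (a⁻¹ m) = m}))
          ({z} ∪ x '' {n : ℕ | x (a n) ∈ U})
          (by rw [h.hg]; exact image_mem_map hV)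
          (by
            rw [h.hz, Fc, mem_sup, mem_pure, mem_map, mem_cofinite]
            refine ⟨Or.inl rfl, ?_⟩
            refine hfin.subset ?_
            intro n hn hn'
            apply hn
            exact Or.inr ⟨n, hn', rfl⟩)
        rw [mem_map]
        filter_upwards [this] with p hp
        rcases p with ⟨p, q⟩
        obtain ⟨⟨c, hc, h1⟩, h2⟩ := hp
        simp only at h1 h2
        subst h1
        rcases h2 with h2 | ⟨n, hn, h2⟩
        · simp only [mem_singleton_iff] at h2
          subst h2
          exact hUz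
        · subst h2
          change g c * x n ∈ U
          rw [g_x]
          by_contra hcon
          -- c n = m bad, so a⁻¹ m = n and a n = m
          have h3 := mem_iInter₂.1 hc (c n) hcon
          have h4 : a⁻¹ (c n) = n := c.injective h3
          have h5 : a n = c n := by
            rw [Equiv.Perm.inv_eq_iff_eq] at h4
            exact h4.symm
          rw [mem_ofPred_eq, h5] at hn
          exact hcon hn

/-- Auxiliary equivalence used to define the topologies. -/
def toSum : Sg ≃ Equiv.Perm ℕ ⊕ (OnePoint ℕ ⊕ Unit) where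
  toFun
    | g a => Sum.inl a
    | x n => Sum.inr (Sum.inl (OnePoint.some n))
    | z => Sum.inr (Sum.inl OnePoint.infty)
    | e => Sum.inr (Sum.inr ())
  invFun
    | Sum.inl a => g a
    | Sum.inr (Sum.inl (Option.some n)) => x n
    | Sum.inr (Sum.inl Option.none) => z
    | Sum.inr (Sum.inr ()) => e
  left_inv := by rintro (a | n | _ | _) <;> rfl
  right_inv := by rintro (a | (_ | n) | ⟨⟩) <;> rfl

/-- The topology with given topology on the one-point extension. -/
@[reducible] def top (τ : TopologicalSpace (OnePoint ℕ)) : TopologicalSpace Sg :=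
  TopologicalSpace.induced toSum
    (@instTopologicalSpaceSum _ _ sig (@instTopologicalSpaceSum _ _ τ inferInstance))

theorem top_polish (τ : TopologicalSpace (OnePoint ℕ)) (hτ : @PolishSpace _ τ) :
    @PolishSpace Sg (top τ) := by
  let _ := sig
  have h1 := sig_polish
  let _ := τ
  have h2 : PolishSpace (OnePoint ℕ ⊕ Unit) := {}
  have h3 : PolishSpace (Equiv.Perm ℕ ⊕ (OnePoint ℕ ⊕ Unit)) := {}
  exact toSum.polishSpace_induced

open Classical in
theorem onePoint_polish : PolishSpace (OnePoint ℕ) := by
  let f : OnePoint ℕ → (ℕ → ℕ) := fun p n => if p = OnePoint.some n then 1 else 0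
  have hf : Continuous f := by
    rw [OnePoint.continuous_iff_from_discrete, tendsto_pi_nhds]
    intro i
    have h1 : f OnePoint.infty i = 0 := by simp [f]
    rw [h1]
    refine tendsto_const_nhds.congr' ?_
    have : ({i}ᶜ : Set ℕ) ∈ cofinite := (finite_singleton i).compl_mem_cofinite
    filter_upwards [this] with n hn
    simp only [mem_compl_iff, mem_singleton_iff] at hn
    simp [f, hn]
  have hinj : Function.Injective f := by
    intro p q hpq
    induction p using OnePoint.rec with
    | infty =>
      induction q using OnePoint.rec with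
      | infty => rfl
      | coe n =>
        have := congrFun hpq n
        simp [f] at this
    | coe n =>
      have := congrFun hpq n
      by_contra hne
      simp [f, Ne.symm hne] at this
  exact (hf.isClosedEmbedding hinj).polishSpace

theorem nhds_top (τ : TopologicalSpace (OnePoint ℕ)) (s : Sg) :
    @nhds Sg (top τ) s = Filter.map toSum.symm
      (@nhds _ (@instTopologicalSpaceSum _ _ sig (@instTopologicalSpaceSum _ _ τ inferInstance))
        (toSum s)) := by
  rw [@nhds_induced, Filter.map_equiv_symm]

theorem top_std (τ : TopologicalSpace (OnePoint ℕ)) (F : Filter (OnePoint ℕ))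
    (h1 : ∀ n : ℕ, @nhds _ τ (OnePoint.some n) = pure (OnePoint.some n))
    (h2 : @nhds _ τ OnePoint.infty = F) :
    Std (top τ) (Filter.map (fun p => toSum.symm (Sum.inr (Sum.inl p))) F) := by
  let _ := sig
  constructor
  · intro a
    rw [nhds_top]
    change Filter.map toSum.symm (nhds (Sum.inl a)) = _
    rw [nhds_inl, Filter.map_map]
    rfl
  · intro n
    rw [nhds_top]
    change Filter.map toSum.symm (nhds (Sum.inr (Sum.inl (OnePoint.some n)))) = _
    rw [nhds_inr, nhds_inl, h1, Filter.map_map, Filter.map_map, Filter.map_pure]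
    rfl
  · rw [nhds_top]
    change Filter.map toSum.symm (nhds (Sum.inr (Sum.inl OnePoint.infty))) = _
    rw [nhds_inr, nhds_inl, h2, Filter.map_map, Filter.map_map]
    rfl
  · rw [nhds_top]
    change Filter.map toSum.symm (nhds (Sum.inr (Sum.inr ()))) = _
    rw [nhds_inr, nhds_inr, nhds_discrete, Filter.map_map, Filter.map_pure]
    rfl

theorem exists_d : ∃ t : TopologicalSpace Sg, @PolishSpace Sg t ∧ Std t Fd := by
  refine ⟨top ⊥, ?_, ?_⟩
  · refine top_polish ⊥ ?_
    let _ : TopologicalSpace (OnePoint ℕ) := ⊥
    have : DiscreteTopology (OnePoint ℕ) := ⟨rfl⟩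
    have : Countable (OnePoint ℕ) := inferInstanceAs (Countable (Option ℕ))
    infer_instance
  · have := top_std ⊥ (pure OnePoint.infty)
      (fun n => congrFun (@nhds_discrete _ ⊥ (@DiscreteTopology.mk _ ⊥ rfl)) _)
      (congrFun (@nhds_discrete _ ⊥ (@DiscreteTopology.mk _ ⊥ rfl)) _)
    rw [Filter.map_pure] at this
    exact this

theorem exists_c : ∃ t : TopologicalSpace Sg, @PolishSpace Sg t ∧ Std t Fc := by
  refine ⟨top inferInstance, ?_, ?_⟩
  · exact top_polish _ onePoint_polish
  · have := top_std inferInstance _ (fun n => by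
      rw [OnePoint.nhds_coe_eq, nhds_discrete, Filter.map_pure]) OnePoint.nhds_infty_eq
    rw [Filter.map_sup, Filter.map_map, Filter.map_pure, coclosedCompact_eq_cocompact,
      cocompact_eq_cofinite, sup_comm] at this
    exact this

/-- The involution exchanging two disjoint sequences. -/
theorem exists_swap (a b : ℕ → ℕ) (ha : Function.Injective a) (hb : Function.Injective b)
    (hab : ∀ i j, a i ≠ b j) : ∃ σ : Equiv.Perm ℕ, ∀ i, σ (a i) = b i := by
  classical
  let f : ℕ → ℕ := fun n => if h : ∃ i, a i = n then b h.choose else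
    if h : ∃ i, b i = n then a h.choose else n
  have hfa : ∀ i, f (a i) = b i := by
    intro i
    have h : ∃ j, a j = a i := ⟨i, rfl⟩
    simp only [f, dif_pos h]
    exact congrArg b (ha h.choose_spec)
  have hfb : ∀ i, f (b i) = a i := by
    intro i
    have h' : ¬ ∃ j, a j = b i := by
      rintro ⟨j, hj⟩
      exact hab j i hj
    have h : ∃ j, b j = b i := ⟨i, rfl⟩
    simp only [f, dif_neg h', dif_pos h]
    exact congrArg a (hb h.choose_spec)
  have hinv : Function.Involutive f := by
    intro n
    by_cases h : ∃ i, a i = n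
    · obtain ⟨i, rfl⟩ := h
      rw [hfa, hfb]
    · by_cases h2 : ∃ i, b i = n
      · obtain ⟨i, rfl⟩ := h2
        rw [hfb, hfa]
      · have : f n = n := by simp only [f, dif_neg h, dif_neg h2]
        rw [this, this]
  exact ⟨hinv.toPerm f, hfa⟩

/-- A countably generated permutation invariant filter that is finer than the cofinite filter
and proper is the cofinite filter. -/
theorem filter_eq_cofinite (F : Filter ℕ) [F.IsCountablyGenerated] [F.NeBot]
    (hle : F ≤ cofinite) (hinv : ∀ σ : Equiv.Perm ℕ, Tendsto σ F F) : F = cofinite := by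
  refine le_antisymm hle ?_
  intro A hA
  by_contra hcon
  rw [mem_cofinite] at hcon
  have hcon : (Aᶜ).Infinite := hcon
  obtain ⟨u, hu⟩ := exists_seq_tendsto F
  have hu' : Tendsto u atTop atTop := by
    have := hu.mono_right hle
    rwa [Nat.cofinite_eq_atTop] at this
  obtain ⟨φ, hφ, huφ⟩ := strictMono_subseq_of_tendsto_atTop hu'
  have hev : ∀ᶠ j in atTop, u (φ j) ∈ A := (hu.comp hφ.tendsto_atTop) hA
  obtain ⟨N, hN⟩ := eventually_atTop.1 hev
  let a : ℕ → ℕ := fun i => u (φ (i + N))
  have ha : Function.Injective a := by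
    intro i j hij
    have := huφ.injective (a₁ := i + N) (a₂ := j + N) hij
    omega
  have haA : ∀ i, a i ∈ A := fun i => hN _ (Nat.le_add_left _ _)
  let b : ℕ → ℕ := fun i => (Set.Infinite.natEmbedding Aᶜ hcon i : ℕ)
  have hb : Function.Injective b := by
    intro i j hij
    exact (Set.Infinite.natEmbedding Aᶜ hcon).injective (Subtype.ext hij)
  have hbA : ∀ i, b i ∉ A := fun i => (Set.Infinite.natEmbedding Aᶜ hcon i).2
  obtain ⟨σ, hσ⟩ := exists_swap a b ha hb (fun i j h => hbA j (h ▸ haA i))
  have hta : Tendsto a atTop F := by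
    have h1 : Tendsto (fun i : ℕ => φ (i + N)) atTop atTop :=
      hφ.tendsto_atTop.comp (tendsto_add_atTop_nat N)
    exact hu.comp h1
  have hts := (hinv σ).comp hta
  have hev2 : ∀ᶠ i in atTop, (σ ∘ a) i ∈ A := hts hA
  obtain ⟨i, hi⟩ := hev2.exists
  simp only [Function.comp, hσ] at hi
  exact hbA i hi

theorem classify (t : TopologicalSpace Sg) (hP : @PolishSpace Sg t)
    (hM : @ContinuousMul Sg t _) : Std t Fd ∨ Std t Fc := by
  have hl : ∀ s : Sg, Continuous fun y : Sg => s * y := fun s => continuous_const_mul s
  have hr : ∀ s : Sg, Continuous fun y : Sg => y * s := fun s => continuous_mul_const s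
  -- the group part is clopen
  have hG : range g = {s : Sg | e * s = e} := by
    ext s; cases s <;> simp
  have hG' : (range g)ᶜ = {s : Sg | e * s = z} := by
    ext s; cases s <;> simp
  have hGclosed : IsClosed (range g) := by
    rw [hG]; exact isClosed_eq (hl e) continuous_const
  have hGopen : IsOpen (range g) := by
    rw [← isClosed_compl_iff, hG']; exact isClosed_eq (hl e) continuous_const
  -- the element e is isolated
  have heo : IsOpen ({e} : Set Sg) := by
    have : ({e} : Set Sg)ᶜ = {s : Sg | g 1 * s = s} := by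
      ext s; cases s <;> simp
    rw [← isClosed_compl_iff, this]
    exact isClosed_eq (hl _) continuous_id
  have hXz : IsOpen (range x ∪ {z}) := by
    have : (range x ∪ {z} : Set Sg) = (range g)ᶜ ∩ ({e} : Set Sg)ᶜ := by
      ext s; cases s <;> simp
    rw [this]
    exact hGclosed.isOpen_compl.inter isClosed_singleton.isOpen_compl
  have hX : IsOpen (range x) := by
    have : (range x : Set Sg) = (range x ∪ {z}) ∩ ({z} : Set Sg)ᶜ := by
      ext s; cases s <;> simp
    rw [this]
    exact hXz.inter isClosed_singleton.isOpen_compl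
  -- every point x n is isolated
  have hex : ∃ n, IsOpen ({x n} : Set Sg) := by
    by_contra hcon
    push Not at hcon
    have hd : ∀ n, Dense ({x n}ᶜ : Set Sg) := by
      intro n
      rw [← interior_eq_empty_iff_dense_compl]
      by_contra hne
      have hne' : (interior ({x n} : Set Sg)).Nonempty := nonempty_iff_ne_empty.2 hne
      have : interior ({x n} : Set Sg) = {x n} := by
        obtain ⟨y, hy⟩ := hne'
        have hy' : y = x n := by
          have h0 : y ∈ ({x n} : Set Sg) := interior_subset hy
          exact h0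
        rw [hy'] at hy
        exact subset_antisymm interior_subset (singleton_subset_iff.2 hy)
      exact hcon n (interior_eq_iff_isOpen.1 this)
    have hD : Dense (⋂ n, ({x n}ᶜ : Set Sg)) :=
      dense_iInter_of_isOpen (fun n => isClosed_singleton.isOpen_compl) hd
    obtain ⟨y, ⟨n, rfl⟩, hy2⟩ := hD.inter_open_nonempty _ hX ⟨x 0, 0, rfl⟩
    exact (mem_iInter.1 hy2 n) rfl
  have hxo : ∀ m, IsOpen ({x m} : Set Sg) := by
    obtain ⟨n, hn⟩ := hex
    intro m
    have h1 : ({x m} : Set Sg) = (fun y => g (Equiv.swap m n) * y) ⁻¹' {x n} := by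
      ext s
      cases s with
      | x k =>
        simp only [mem_singleton_iff, mem_preimage, g_x, x.injEq]
        constructor
        · rintro rfl; simp
        · intro hk
          have := congrArg (Equiv.swap m n) hk
          simpa using this
      | _ => simp
    rw [h1]
    exact hn.preimage (hl _)
  -- the topology on the group
  let τ : TopologicalSpace (Equiv.Perm ℕ) := TopologicalSpace.induced g t
  have hcl : IsClosedEmbedding g := ⟨⟨⟨rfl⟩, g_injective⟩, hGclosed⟩
  have hτP : PolishSpace (Equiv.Perm ℕ) := hcl.polishSpace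
  have hτM : ContinuousMul (Equiv.Perm ℕ) := by
    constructor
    rw [hcl.toIsEmbedding.toIsInducing.continuous_iff]
    have hc : Continuous g := continuous_induced_dom
    have : (g ∘ fun p : Equiv.Perm ℕ × Equiv.Perm ℕ => p.1 * p.2) =
        fun p : Equiv.Perm ℕ × Equiv.Perm ℕ => g p.1 * g p.2 := rfl
    rw [this]
    exact (hc.comp continuous_fst).mul (hc.comp continuous_snd)
  have hτs : τ = sig := by
    refine eq_sig hτP hτM ?_
    intro n m
    have hc : Continuous g := continuous_induced_dom
    have : {a : Equiv.Perm ℕ | a n = m} = (fun a => g a * x n) ⁻¹' {x m} := by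
      ext a; simp
    rw [this]
    exact (hxo m).preimage ((hr (x n)).comp hc)
  have hg : ∀ a : Equiv.Perm ℕ, nhds (g a) = Filter.map g (@nhds _ sig a) := by
    intro a
    rw [← hτs, @nhds_induced _ _ t g a, map_comap_of_mem (hGopen.mem_nhds ⟨a, rfl⟩)]
  have hx : ∀ n : ℕ, nhds (x n) = pure (x n) := fun n => (isOpen_singleton_iff_nhds_eq_pure _).1
    (hxo n)
  have he : nhds e = pure e := (isOpen_singleton_iff_nhds_eq_pure _).1 heo
  by_cases hzo : IsOpen ({z} : Set Sg)
  · left
    exact ⟨hg, hx, (isOpen_singleton_iff_nhds_eq_pure _).1 hzo, he⟩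
  · right
    refine ⟨hg, hx, ?_, he⟩
    -- trace filter
    have hne : (Filter.comap x (nhds z)).NeBot := by
      rw [comap_neBot_iff]
      intro U hU
      by_contra hcon
      push Not at hcon
      apply hzo
      have hmem : U ∩ (range x ∪ {z}) ∈ nhds z := inter_mem hU (hXz.mem_nhds (Or.inr rfl))
      have hsub : U ∩ (range x ∪ {z}) ⊆ {z} := by
        rintro y ⟨hyU, ⟨n, rfl⟩ | hy⟩
        · exact absurd hyU (hcon n)
        · exact hy
      exact isOpen_singleton_iff_nhds_eq_pure _ |>.2
        (le_antisymm (le_pure_iff.2 (mem_of_superset hmem hsub)) (pure_le_nhds z))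
    have hcof : Filter.comap x (nhds z) = cofinite := by
      refine filter_eq_cofinite _ ?_ ?_
      · intro A hA
        rw [mem_cofinite] at hA
        have hfin : (x '' Aᶜ).Finite := hA.image x
        refine mem_comap.2 ⟨(x '' Aᶜ)ᶜ, hfin.isClosed.isOpen_compl.mem_nhds ?_, ?_⟩
        · rintro ⟨n, -, hn⟩
          exact absurd hn (by simp)
        · intro n hn
          by_contra hnA
          exact hn ⟨n, hnA, rfl⟩
      · intro σ
        have h1 : Tendsto (fun y => g σ * y) (nhds z) (nhds z) := by
          have := (hl (g σ)).tendsto z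
          simpa using this
        rw [tendsto_comap_iff]
        have : (x ∘ σ : ℕ → Sg) = (fun y => g σ * y) ∘ x := rfl
        rw [this]
        exact h1.comp tendsto_comap
    ext U
    rw [Fc, mem_sup, mem_pure, mem_map]
    constructor
    · intro hU
      refine ⟨mem_of_mem_nhds hU, ?_⟩
      rw [← hcof]
      exact preimage_mem_comap hU
    · rintro ⟨hUz, hU⟩
      rw [← hcof] at hU
      obtain ⟨V, hV, hVU⟩ := mem_comap.1 hU
      have hmem : V ∩ (range x ∪ {z}) ∈ nhds z := inter_mem hV (hXz.mem_nhds (Or.inr rfl))
      refine mem_of_superset hmem ?_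
      rintro y ⟨hyV, ⟨n, rfl⟩ | hy⟩
      · exact hVU hyV
      · rw [mem_singleton_iff] at hy
        subst hy
        exact hUz

theorem card_two : Cardinal.mk {t : TopologicalSpace Sg //
    @PolishSpace Sg t ∧ @ContinuousMul Sg t _} = 2 := by
  obtain ⟨td, hdP, hd⟩ := exists_d
  obtain ⟨tc, hcP, hc⟩ := exists_c
  have hne : td ≠ tc := by
    intro h
    have h1 := hd.hz
    rw [h, hc.hz] at h1
    exact Fd_ne_Fc h1.symm
  have hset : {t : TopologicalSpace Sg | @PolishSpace Sg t ∧ @ContinuousMul Sg t _} =
      {td, tc} := by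
    ext t
    simp only [mem_ofPred_eq, mem_insert_iff, mem_singleton_iff]
    constructor
    · rintro ⟨h1, h2⟩
      rcases classify t h1 h2 with h | h
      · exact Or.inl (h.unique hd)
      · exact Or.inr (h.unique hc)
    · rintro (rfl | rfl)
      · exact ⟨hdP, mul_cont hd (Or.inl rfl)⟩
      · exact ⟨hcP, mul_cont hc (Or.inr rfl)⟩
  change Cardinal.mk {t : TopologicalSpace Sg | @PolishSpace Sg t ∧ @ContinuousMul Sg t _} = 2
  rw [hset, Cardinal.mk_insert (by simpa using hne), Cardinal.mk_singleton]
  exact one_add_one_eq_two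

end Sg

end Pool.Agent.R581
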