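import Pool.Agent.R537.VC.Defs
import Pool.Agent.ER.Dec
import Pool.Agent.ER.Hard

/-! VC-CL: closure properties of the classes of MP_77492d_lc. -/

set_option autoImplicit false

namespace Pool.Agent.NPC.R537VC

open Pool.Agent.NPC Pool.Agent.NPC.ER

namespace CLAux

theorem not_EBE_ff : ¬ EBE (([], [], Fm.ff) : Sen) := by
  rintro ⟨x, hx⟩
  obtain ⟨z, hz⟩ := hx (fun _ => false)
  exact not_ETR_ff ⟨_, hz⟩

theorem toPC {f : List Bool → Sen} (hf : PolyTime (fun w => bits (f w))) :
    PC (id : List Bool → List Bool) (bits : Sen → List Bool) f :=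
  H642R2.TMSim.polyTime_toPC hf

theorem comp_polyTime {β : Type} [TEnc β] {f : List Bool → Sen} {F : Sen → β}
    (hf : PolyTime (fun w => bits (f w))) (hF : Poly F) :
    PolyTime (fun w => bits (F (f w))) := by
  have h1 := toPC hf
  have h3 : PC (id : List Bool → List Bool) (bits : β → List Bool) (fun x => F (f x)) :=
    PC.comp (g := F) (eb := (bits : Sen → List Bool)) hF h1
  have h4 : PC (id : List Bool → List Bool) (id : List Bool → List Bool)
    (fun x => bits (F (f x))) := h3
  exact PC.toPolyTime h4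

/-- default value outside of the codes -/
def dfl {α β : Type} [TEnc α] [TDec α] (d : β) (p : α → β) (w : List Bool) : β :=
  match unbits α w with
  | none => d
  | some a => p a

theorem dfl_poly {α β : Type} [TEnc α] [TEnc β] [TDec α] (d : β) {p : α → β} (hp : Poly p) :
    PolyTime (fun w => bits (dfl d p w)) := by
  refine polyTime_bits (g := fun w => dfl d p w) ?_
  exact Poly.optCases (g := fun _ => d) (h := fun _ a => p a) poly_unbits
    (Poly.const _) (hp.comp (Poly.snd Poly.id))

end CLAux

open CLAux in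
theorem t_CL : S_CL := by
  refine ⟨?_, ?_, ?_, ?_⟩
  · intro p hp hP
    refine ⟨fun w => dfl (([], [], Fm.ff) : Sen) p w, dfl_poly _ hp, fun w => ?_⟩
    rw [mem_lang_iff]
    cases hx : unbits VInst w with
    | none =>
      simp only [dfl, hx]
      simp [not_EBE_ff]
    | some a =>
      simp only [dfl, hx]
      simp [hP a]
  · rintro F hF h L' ⟨g, hg, hL⟩
    refine ⟨fun x => bits (F (g x)), comp_polyTime hg hF, fun x => ?_⟩
    rw [hL, h]
    constructor
    · intro hP
      exact ⟨_, rfl, hP⟩
    · rintro ⟨a, ha, hP⟩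
      rwa [bits_injective ha] at hP
  · rintro F hF h L ⟨g, hg, hL⟩
    exact ⟨fun w => F (g w), comp_polyTime hg hF, fun w => (hL w).trans (h _)⟩
  · rintro L L' ⟨f, hf, h1⟩ ⟨g, hg, h2⟩
    have hfg : PolyTime (fun w => bits (f (g w))) :=
      H642R2.TMSim.polyTime_comp (g := fun w => bits (f w)) hf hg
    exact ⟨fun w => f (g w), hfg, fun w => (h2 w).trans (h1 _)⟩

end Pool.Agent.NPC.R537VC
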